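import Pool.Agent.Y921.DB.GL

/-!
# Binomial series with rational exponents, and the series `∑ z^m / (m - s)`
-/

set_option autoImplicit false

open PowerSeries

namespace Pool.Agent.Y921.DB

open Pool.Agent.Y113

/-- the coefficients of `(1 - z)^s` -/
def bc (s : ℚ) : ℕ → ℚ
  | 0 => 1
  | m + 1 => bc s m * ((m : ℚ) - s) / ((m : ℚ) + 1)

/-- `(1 - z)^s` -/
noncomputable def Bs (s : ℚ) : ℚ⟦X⟧ := PowerSeries.mk (bc s)

lemma coeff_Bs (s : ℚ) (m : ℕ) : coeff m (Bs s) = bc s m := coeff_mk _ _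

lemma bc_rec (s : ℚ) (m : ℕ) : bc s (m + 1) * ((m : ℚ) + 1) = bc s m * ((m : ℚ) - s) := by
  rw [bc]
  have : (m : ℚ) + 1 ≠ 0 := by positivity
  field_simp

/-- the differential equation -/
lemma Bs_ode (s : ℚ) : (1 - X) * d⁄dX ℚ (Bs s) = -(C s * Bs s) := by
  ext m
  rw [sub_mul, one_mul, map_sub, map_neg, coeff_C_mul, coeff_Bs, coeff_derivative, coeff_Bs, bc_rec]
  rcases m with _ | m
  · simp [mul_comm]
  · rw [coeff_succ_X_mul, coeff_derivative, coeff_Bs]
    push_cast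
    ring

/-- uniqueness -/
lemma ode_unique {s : ℚ} {f : ℚ⟦X⟧} (h : (1 - X) * d⁄dX ℚ f = -(C s * f)) (h0 : coeff 0 f = 1) : f = Bs s := by
  ext m
  rw [coeff_Bs]
  induction m with
  | zero => rw [h0]; rfl
  | succ m ih =>
    have h1 := congrArg (coeff m) h
    rw [sub_mul, one_mul, map_sub, map_neg, coeff_C_mul, coeff_derivative] at h1
    have h2 : coeff m (X * d⁄dX ℚ f) = m * coeff m f := by
      rcases m with _ | m
      · simp
      · rw [coeff_succ_X_mul, coeff_derivative]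
        push_cast
        ring
    rw [h2] at h1
    have h3 : coeff (m + 1) f * ((m : ℚ) + 1) = bc s m * ((m : ℚ) - s) := by
      rw [← ih]
      linarith
    rw [bc]
    have : (m : ℚ) + 1 ≠ 0 := by positivity
    rw [eq_div_iff this]
    exact h3

lemma Bs_mul (s t : ℚ) : Bs s * Bs t = Bs (s + t) := by
  refine ode_unique ?_ ?_
  · have h1 := Bs_ode s
    have h2 := Bs_ode t
    rw [Derivation.leibniz, smul_eq_mul, smul_eq_mul, mul_add]
    calc (1 - X) * (Bs s * d⁄dX ℚ (Bs t)) + (1 - X) * (Bs t * d⁄dX ℚ (Bs s)) =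
        Bs s * ((1 - X) * d⁄dX ℚ (Bs t)) + Bs t * ((1 - X) * d⁄dX ℚ (Bs s)) := by ring
      _ = _ := by rw [h1, h2, map_add]; ring
  · rw [coeff_zero_eq_constantCoeff_apply, map_mul, ← coeff_zero_eq_constantCoeff_apply,
      ← coeff_zero_eq_constantCoeff_apply, coeff_Bs, coeff_Bs]
    simp [bc]

lemma Bs_zero : Bs 0 = 1 := by
  symm
  refine ode_unique ?_ ?_
  · simp
  · simp

lemma Bs_one : Bs 1 = 1 - X := by
  symm
  refine ode_unique ?_ ?_
  · rw [map_sub, Derivation.map_one_eq_zero, derivative_X]; simp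
  · simp

lemma Bs_neg_one : Bs (-1) = PowerSeries.mk fun _ => 1 := by
  symm
  refine ode_unique ?_ ?_
  · ext m
    rw [sub_mul, one_mul, map_sub, map_neg, coeff_C_mul, coeff_derivative, coeff_mk, coeff_mk]
    rcases m with _ | m
    · simp
    · rw [coeff_succ_X_mul, coeff_derivative, coeff_mk]
      push_cast
      ring
  · simp

/-- the coefficients for integral exponents are integers -/
lemma bc_nat (p : ℕ) : ∀ m, ∃ a : ℤ, bc (p : ℚ) m = a := by
  induction p with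
  | zero =>
    intro m
    rw [← coeff_Bs, Nat.cast_zero, Bs_zero, coeff_one]
    split_ifs
    · exact ⟨1, by simp⟩
    · exact ⟨0, by simp⟩
  | succ p ih =>
    intro m
    rw [← coeff_Bs]
    push_cast
    rw [← Bs_mul, Bs_one, mul_sub, mul_one, map_sub, coeff_Bs]
    obtain ⟨a, ha⟩ := ih m
    rcases m with _ | m
    · exact ⟨a, by simp [ha]⟩
    · obtain ⟨b, hb⟩ := ih m
      refine ⟨a - b, ?_⟩
      rw [mul_comm, coeff_succ_X_mul, coeff_Bs, ha, hb]
      push_cast; ring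

lemma bc_neg (p : ℕ) : ∀ m, ∃ a : ℤ, bc (-(p : ℚ)) m = a := by
  induction p with
  | zero => simpa using bc_nat 0
  | succ p ih =>
    intro m
    rw [← coeff_Bs]
    have : -((p + 1 : ℕ) : ℚ) = -(p : ℚ) + -1 := by push_cast; ring
    rw [this, ← Bs_mul, Bs_neg_one, coeff_mul]
    choose a ha using ih
    refine ⟨∑ q ∈ Finset.HasAntidiagonal.antidiagonal m, a q.1, ?_⟩
    push_cast
    refine Finset.sum_congr rfl fun q _ => ?_
    rw [coeff_Bs, coeff_mk, mul_one, ha]

lemma bc_int (p : ℤ) (m : ℕ) : ∃ a : ℤ, bc (p : ℚ) m = a := by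
  rcases Int.eq_nat_or_neg p with ⟨n, rfl | rfl⟩
  · simpa using bc_nat n m
  · simpa using bc_neg n m

lemma Bs_pow (s : ℚ) (q : ℕ) : Bs s ^ q = Bs (q * s) := by
  induction q with
  | zero => rw [pow_zero, Nat.cast_zero, zero_mul, Bs_zero]
  | succ q ih => rw [pow_succ, ih, Bs_mul]; congr 1; push_cast; ring

/-- roots of series congruent to `1` modulo `q²` -/
lemma root_int {q : ℕ} (hq : 0 < q) {y : ℚ⟦X⟧} (h0 : coeff 0 y = 1)
    (h : ∀ m, 1 ≤ m → ∃ a : ℤ, coeff m (y ^ q) = (q : ℚ) ^ 2 * a) :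
    ∀ m, 1 ≤ m → ∃ a : ℤ, coeff m y = (q : ℚ) * a := by
  intro m
  induction m using Nat.strong_induction_on with
  | _ m ih =>
    intro hm
    have hq0 : (q : ℚ) ≠ 0 := by exact_mod_cast hq.ne'
    choose! c hc using ih
    -- the lower part
    set t' : ℤ⟦X⟧ := PowerSeries.mk fun j => if 1 ≤ j ∧ j < m then c j else 0 with ht'
    set t : ℚ⟦X⟧ := PowerSeries.map (Int.castRingHom ℚ) t' with ht
    have hct : ∀ j, coeff j t = if 1 ≤ j ∧ j < m then (c j : ℚ) else 0 := by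
      intro j
      rw [ht, coeff_map, ht', coeff_mk]
      split_ifs <;> simp
    set r : ℚ⟦X⟧ := PowerSeries.mk fun j => coeff (j + m) y with hr
    have hy : y = 1 + C (q : ℚ) * t + X ^ m * r := by
      ext j
      rw [map_add, map_add, coeff_one, coeff_C_mul, hct]
      rw [coeff_X_pow_mul']
      rcases Nat.lt_or_ge j m with hj | hj
      · rw [if_neg (show ¬ m ≤ j by omega)]
        rcases Nat.eq_zero_or_pos j with rfl | hj0
        · simp [h0]
        · rw [if_neg (show ¬ j = 0 by omega), if_pos ⟨hj0, hj⟩, hc j hj hj0]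
          ring
      · rw [if_pos hj, if_neg (show ¬ j = 0 by omega), if_neg (show ¬ (1 ≤ j ∧ j < m) by omega), hr, coeff_mk]
        have : j - m + m = j := by omega
        rw [this]
        ring
    set u : ℚ⟦X⟧ := 1 + C (q : ℚ) * t with hu
    have hu0 : constantCoeff u = 1 := by
      have h2 := hct 0
      rw [coeff_zero_eq_constantCoeff_apply] at h2
      rw [hu, map_add, map_mul, h2]
      simp
    have hy0 : constantCoeff y = 1 := by
      rw [← coeff_zero_eq_constantCoeff_apply, h0]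
    -- the power
    have h1 : y ^ q = u ^ q + X ^ m * (r * ∑ i ∈ Finset.range q, y ^ i * u ^ (q - 1 - i)) := by
      have h2 := (Commute.all y u).geom_sum₂_mul q
      have h3 : y - u = X ^ m * r := by rw [hy]; ring
      rw [h3] at h2
      have h4 : y ^ q = u ^ q + (y ^ q - u ^ q) := by ring
      rw [h4, ← h2]
      ring
    have h2 : coeff m (y ^ q) = coeff m (u ^ q) + q * coeff m y := by
      rw [h1, map_add, coeff_X_pow_mul', if_pos le_rfl, Nat.sub_self, coeff_zero_eq_constantCoeff_apply, map_mul,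
        map_sum]
      have h3 : ∀ i ∈ Finset.range q, constantCoeff (y ^ i * u ^ (q - 1 - i)) = (1 : ℚ) := by
        intro i _
        rw [map_mul, map_pow, map_pow, hy0, hu0, one_pow, one_pow, one_mul]
      rw [Finset.sum_congr rfl h3, Finset.sum_const, Finset.card_range, nsmul_eq_mul, mul_one]
      have h4 : constantCoeff r = coeff m y := by
        rw [← coeff_zero_eq_constantCoeff_apply, hr, coeff_mk, zero_add]
      rw [h4]
      ring
    have h3 : ∃ a : ℤ, coeff m (u ^ q) = (q : ℚ) ^ 2 * a := by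
      rw [hu, add_comm, add_pow, map_sum]
      have h4 : ∀ i ∈ Finset.range (q + 1), ∃ a : ℤ,
          coeff m ((C (q : ℚ) * t) ^ i * 1 ^ (q - i) * ((q.choose i : ℕ) : ℚ⟦X⟧)) = (q : ℚ) ^ 2 * a := by
        intro i _
        rw [one_pow, mul_one]
        rcases i with _ | _ | i
        · refine ⟨0, ?_⟩
          rw [pow_zero, Nat.choose_zero_right, Nat.cast_one, mul_one, coeff_one, if_neg (by omega)]
          simp
        · refine ⟨0, ?_⟩
          rw [zero_add, pow_one, Nat.choose_one_right]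
          have e1 : ((q : ℕ) : ℚ⟦X⟧) = C (q : ℚ) := by simp
          rw [e1, mul_comm, coeff_C_mul, coeff_C_mul, hct, if_neg (by omega)]
          simp
        · refine ⟨(q : ℤ) ^ i * coeff m (t' ^ (i + 2)) * (q.choose (i + 2) : ℤ), ?_⟩
          have e1 : ((q.choose (i + 1 + 1) : ℕ) : ℚ⟦X⟧) = C (q.choose (i + 2) : ℚ) := by simp
          rw [e1, mul_pow, ← map_pow, mul_comm, coeff_C_mul, coeff_C_mul, ht, ← map_pow, coeff_map]
          push_cast
          simp only [eq_intCast]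
          ring
      choose! a ha using h4
      refine ⟨∑ i ∈ Finset.range (q + 1), a i, ?_⟩
      rw [Finset.sum_congr rfl ha, ← Finset.mul_sum]
      push_cast
      rfl
    obtain ⟨a, ha⟩ := h m hm
    obtain ⟨b, hb⟩ := h3
    refine ⟨a - b, ?_⟩
    rw [ha, hb] at h2
    have h5 : (q : ℚ) * coeff m y = q * (q * (a - b : ℤ)) := by
      push_cast
      linarith
    exact mul_left_cancel₀ hq0 h5

/-- denominators of the binomial coefficients -/
lemma bc_den (s : ℚ) (m : ℕ) : ∃ a : ℤ, (s.den : ℚ) ^ (2 * m) * bc s m = a := by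
  set q := s.den with hq
  have hq0 : 0 < q := s.pos
  rcases Nat.eq_zero_or_pos m with rfl | hm
  · exact ⟨1, by simp [bc]⟩
  set y : ℚ⟦X⟧ := PowerSeries.rescale ((q : ℚ) ^ 2) (Bs s) with hy
  have h1 : y ^ q = PowerSeries.rescale ((q : ℚ) ^ 2) (Bs s.num) := by
    rw [hy, ← map_pow, Bs_pow]
    congr 2
    rw [mul_comm]
    exact Rat.mul_den_eq_num s
  have h2 : ∀ m, 1 ≤ m → ∃ a : ℤ, coeff m (y ^ q) = (q : ℚ) ^ 2 * a := by
    intro m hm
    rw [h1, coeff_rescale, coeff_Bs]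
    obtain ⟨a, ha⟩ := bc_int s.num m
    refine ⟨q ^ (2 * (m - 1)) * a, ?_⟩
    rw [ha]
    push_cast
    rw [← pow_mul, ← mul_assoc, ← pow_add]
    congr 2
    omega
  obtain ⟨a, ha⟩ := root_int hq0 (by
    rw [hy, coeff_rescale, coeff_Bs]
    simp [bc]) h2 m hm
  refine ⟨q * a, ?_⟩
  push_cast
  rw [← ha, hy, coeff_rescale, coeff_Bs, pow_mul]

lemma bc_bound (s : ℚ) (m : ℕ) : |((bc s m : ℚ) : ℝ)| ≤ (|(s : ℝ)| + 1) ^ m := by
  induction m with
  | zero => simp [bc]
  | succ m ih =>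
    rw [bc]
    push_cast
    rw [mul_div_assoc, abs_mul, pow_succ]
    refine mul_le_mul ih ?_ (abs_nonneg _) (by positivity)
    rw [abs_div, abs_of_pos (by positivity : (0 : ℝ) < (m : ℝ) + 1), div_le_iff₀ (by positivity)]
    have h1 := abs_sub (m : ℝ) (s : ℝ)
    rw [abs_of_nonneg (Nat.cast_nonneg m : (0 : ℝ) ≤ m)] at h1
    have h2 : (0 : ℝ) ≤ m := Nat.cast_nonneg m
    have h3 := abs_nonneg (s : ℝ)
    nlinarith

/-- **the binomial series is a G-function** -/
theorem SDc_Bs (s : ℚ) : SDc (Bs s) := by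
  obtain ⟨n, hn⟩ := pow_unbounded_of_one_lt (|(s : ℝ)| + 1) (show (1 : ℝ) < 2 by norm_num)
  obtain ⟨n', hn'⟩ := pow_unbounded_of_one_lt ((s.den : ℝ) ^ 2) (show (1 : ℝ) < 2 by norm_num)
  have h1 : (2 : ℝ) ^ n ≤ 2 ^ (n + n') := pow_le_pow_right₀ (by norm_num) (by omega)
  have h2 : (2 : ℝ) ^ n' ≤ 2 ^ (n + n') := pow_le_pow_right₀ (by norm_num) (by omega)
  have hone : (1 : ℝ) ≤ 2 ^ (n + n') := one_le_pow₀ (by norm_num)
  refine ⟨n + n', fun m => ?_, fun m => ⟨s.den ^ (2 * m), pow_pos s.pos _, ?_, fun j hj => ?_⟩⟩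
  · rw [coeff_Bs]
    calc _ ≤ (|(s : ℝ)| + 1) ^ m := bc_bound s m
      _ ≤ (2 ^ (n + n')) ^ m := pow_le_pow_left₀ (by positivity) (hn.le.trans h1) _
      _ ≤ _ := pow_le_pow_right₀ hone (by omega)
  · push_cast
    calc (s.den : ℝ) ^ (2 * m) = ((s.den : ℝ) ^ 2) ^ m := by rw [pow_mul]
      _ ≤ (2 ^ (n + n')) ^ m := pow_le_pow_left₀ (by positivity) (hn'.le.trans h2) _
      _ ≤ _ := pow_le_pow_right₀ hone (by omega)
  · obtain ⟨a, ha⟩ := bc_den s j
    refine ⟨(s.den : ℤ) ^ (2 * (m - j)) * a, ?_⟩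
    rw [coeff_Bs]
    push_cast
    rw [← ha, ← mul_assoc, ← pow_add]
    congr 2
    omega

/-- the series `∑ z^m / (m - s)` -/
noncomputable def Ls (s : ℚ) : ℚ⟦X⟧ := PowerSeries.mk fun m => 1 / ((m : ℚ) - s)

/-- **it is a G-function** -/
theorem SDc_Ls (s : ℚ) (hs : ∀ m : ℕ, (m : ℚ) ≠ s) : SDc (Ls s) := by
  set q := s.den with hq
  set p := s.num with hp
  have hq0 : 0 < q := s.pos
  have hqq : (0 : ℚ) < q := by exact_mod_cast hq0
  have hs' : s = p / q := (Rat.num_div_den s).symm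
  have hne : ∀ m : ℕ, (q : ℤ) * m - p ≠ 0 := by
    intro m h
    apply hs m
    rw [hs', eq_div_iff hqq.ne']
    have : ((q : ℤ) * m - p : ℤ) = (0 : ℚ) := by exact_mod_cast h
    push_cast at this
    linarith
  have hval : ∀ m : ℕ, 1 / ((m : ℚ) - s) = q / (((q : ℤ) * m - p : ℤ) : ℚ) := by
    intro m
    have h1 : (((q : ℤ) * m - p : ℤ) : ℚ) ≠ 0 := by exact_mod_cast hne m
    have h2 : (m : ℚ) - s = (((q : ℤ) * m - p : ℤ) : ℚ) / q := by
      rw [hs']
      push_cast
      field_simp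
    rw [h2, one_div_div]
  set a := p.natAbs with ha
  have hnat : ∀ m : ℕ, ((q : ℤ) * m - p).natAbs ≤ q * m + a := by
    intro m
    have h1 := Int.natAbs_sub_le ((q : ℤ) * m) p
    rw [Int.natAbs_mul, Int.natAbs_natCast, Int.natAbs_natCast] at h1
    exact h1
  obtain ⟨n, hn⟩ := pow_unbounded_of_one_lt (q : ℝ) (show (1 : ℝ) < 2 by norm_num)
  set E := n + 8 * q + 8 * a with hE
  refine ⟨E, fun m => ?_, fun m => ⟨Nat.lcmUpto (q * m + a), Nat.lcmUpto_pos _, ?_, fun j hj => ?_⟩⟩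
  · rw [Ls, coeff_mk, hval]
    push_cast
    rw [abs_div, abs_of_pos (by exact_mod_cast hq0 : (0 : ℝ) < q)]
    have h1 : (1 : ℝ) ≤ |(q : ℝ) * m - p| := by
      have h2 : (1 : ℤ) ≤ |(q : ℤ) * m - p| := Int.one_le_abs (hne m)
      have h3 : ((1 : ℤ) : ℝ) ≤ ((|(q : ℤ) * m - p| : ℤ) : ℝ) := by exact_mod_cast h2
      push_cast at h3
      exact h3
    calc (q : ℝ) / |(q : ℝ) * m - p| ≤ q := div_le_self (by positivity) h1
      _ ≤ 2 ^ n := hn.le
      _ ≤ 2 ^ E := pow_le_pow_right₀ (by norm_num) (by omega)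
      _ ≤ _ := le_self_pow₀ (one_le_pow₀ (by norm_num)) (by omega)
  · refine (lcm_bound _).trans ?_
    rw [← pow_mul, ← pow_mul]
    refine pow_le_pow_right₀ (by norm_num) ?_
    have : (n + 8 * q + 8 * a) * (m + 1) = n * (m + 1) + 8 * (q * m + a) + 8 * q + 8 * (a * m) := by ring
    rw [hE, this]
    omega
  · rw [Ls, coeff_mk, hval]
    set N : ℤ := (q : ℤ) * j - p with hN
    have hN0 : 1 ≤ N.natAbs := Int.natAbs_pos.2 (hne j)
    have hNle : N.natAbs ≤ q * m + a := (hnat j).trans (by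
      have := Nat.mul_le_mul_left q hj
      omega)
    obtain ⟨c, hc⟩ := dvd_lcmUpto hN0 hNle
    have h1 : (Nat.lcmUpto (q * m + a) : ℤ) = N * (Int.sign N * c) := by
      rw [hc, ← mul_assoc, Int.mul_sign_self]
      push_cast
      rfl
    refine ⟨q * (Int.sign N * c), ?_⟩
    have hN' : (N : ℚ) ≠ 0 := by exact_mod_cast hne j
    have h2 : (Nat.lcmUpto (q * m + a) : ℚ) = N * ((Int.sign N * c : ℤ) : ℚ) := by exact_mod_cast h1
    rw [h2]
    push_cast
    field_simp

end Pool.Agent.Y921.DB
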