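import Pool.Agent.Y921.DB.Res

/-!
# Direct sums of systems
-/

set_option autoImplicit false

open PowerSeries

namespace Pool.Agent.Y921.DB

variable {L : Type} [Field L] [NumberField L] {S : Type} [Fintype S] [DecidableEq S] {n : S → ℕ}

/-- the size of the direct sum -/
def sz (n : S → ℕ) : ℕ := Fintype.card (Σ s, Fin (n s))

/-- the index of the direct sum -/
noncomputable def sx (n : S → ℕ) : Fin (sz n) ≃ Σ s, Fin (n s) := (Fintype.equivFin (Σ s, Fin (n s))).symm

/-- the direct sum -/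
noncomputable def blk {R : Type} [Zero R] (Z : ∀ s, Fin (n s) → Fin (n s) → R) (i j : Fin (sz n)) : R :=
  Matrix.blockDiagonal' (fun s => Matrix.of (Z s)) (sx n i) (sx n j)

/-- **Direct sums of systems** -/
theorem DatL.block {f : S → Polynomial L} {A : ∀ s, Fin (n s) → Fin (n s) → Polynomial L}
    {Z W : ∀ s, Fin (n s) → Fin (n s) → L⟦X⟧} (h : ∀ s, DatL (f s) (A s) (Z s) (W s)) :
    ∃ A' : Fin (sz n) → Fin (sz n) → Polynomial L, DatL (∏ s, f s) A' (blk Z) (blk W) := by
  classical
  have hmul : ∀ (M M' : ∀ s, Fin (n s) → Fin (n s) → L⟦X⟧) (i j : Fin (sz n)),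
      ∑ k, blk M i k * blk M' k j = Matrix.blockDiagonal' (fun s => Matrix.of (M s) * Matrix.of (M' s)) (sx n i) (sx n j) := by
    intro M M' i j
    rw [Matrix.blockDiagonal'_mul, Matrix.mul_apply, ← (sx n).sum_comp]
    rfl
  have hgf : ∀ (M : ∀ s, Fin (n s) → Fin (n s) → L⟦X⟧), (∀ s i j, GFn (M s i j)) → ∀ i j, GFn (blk M i j) := by
    intro M hM i j
    unfold blk
    obtain ⟨s, a⟩ := sx n i
    obtain ⟨s', b⟩ := sx n j
    by_cases hs : s = s'
    · subst hs
      rw [Matrix.blockDiagonal'_apply_eq]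
      exact hM _ _ _
    · rw [Matrix.blockDiagonal'_apply_ne _ _ _ hs]
      exact GFn.zero
  refine ⟨blk fun s a b => (∏ s' ∈ Finset.univ.erase s, f s') * A s a b, ?_, fun i j => ?_, fun i j => ?_, ?_, ?_⟩
  · rw [Polynomial.coeff_zero_eq_eval_zero, Polynomial.eval_prod]
    refine Finset.prod_ne_zero_iff.2 fun s _ => ?_
    rw [← Polynomial.coeff_zero_eq_eval_zero]
    exact (h s).reg
  · have h1 : ∀ k, ((blk (fun s a b => (∏ s' ∈ Finset.univ.erase s, f s') * A s a b) k j : Polynomial L) : L⟦X⟧) =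
        blk (fun s a b => (((∏ s' ∈ Finset.univ.erase s, f s') * A s a b : Polynomial L) : L⟦X⟧)) k j := by
      intro k
      unfold blk
      obtain ⟨s, a⟩ := sx n k
      obtain ⟨s', b⟩ := sx n j
      by_cases hs : s = s'
      · subst hs
        rw [Matrix.blockDiagonal'_apply_eq, Matrix.blockDiagonal'_apply_eq]
        rfl
      · rw [Matrix.blockDiagonal'_apply_ne _ _ _ hs, Matrix.blockDiagonal'_apply_ne _ _ _ hs, Polynomial.coe_zero]
    rw [Finset.sum_congr rfl fun k _ => by rw [h1 k], hmul]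
    unfold blk
    obtain ⟨s, a⟩ := sx n i
    obtain ⟨s', b⟩ := sx n j
    by_cases hs : s = s'
    · subst hs
      rw [Matrix.blockDiagonal'_apply_eq, Matrix.blockDiagonal'_apply_eq, Matrix.mul_apply]
      have h2 := (h s).sys a b
      rw [← Finset.mul_prod_erase Finset.univ f (Finset.mem_univ s), Polynomial.coe_mul]
      simp only [Matrix.of_apply, Polynomial.coe_mul]
      calc _ = ((∏ s' ∈ Finset.univ.erase s, f s' : Polynomial L) : L⟦X⟧) * ((f s : L⟦X⟧) *
            PowerSeries.derivative L (Z s a b)) := by ring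
        _ = _ := by
          rw [h2, Finset.mul_sum]
          exact Finset.sum_congr rfl fun k _ => by ring
    · rw [Matrix.blockDiagonal'_apply_ne _ _ _ hs, Matrix.blockDiagonal'_apply_ne _ _ _ hs, map_zero, mul_zero]
  · rw [hmul]
    have h1 : (fun s => Matrix.of (W s) * Matrix.of (Z s)) = fun s => (1 : Matrix (Fin (n s)) (Fin (n s)) L⟦X⟧) := by
      funext s
      ext a b
      rw [Matrix.mul_apply, Matrix.one_apply]
      exact congrArg _ ((h s).inv a b)
    rw [h1]
    have h2 : Matrix.blockDiagonal' (fun s => (1 : Matrix (Fin (n s)) (Fin (n s)) L⟦X⟧)) = 1 := Matrix.blockDiagonal'_one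
    rw [h2, Matrix.one_apply]
    simp only [(sx n).injective.eq_iff]
  · exact hgf Z fun s => (h s).gZ
  · exact hgf W fun s => (h s).gW

lemma blk_same {R : Type} [Zero R] (Z : ∀ s, Fin (n s) → Fin (n s) → R) (s : S) (a b : Fin (n s)) :
    blk Z ((sx n).symm ⟨s, a⟩) ((sx n).symm ⟨s, b⟩) = Z s a b := by
  unfold blk
  rw [Equiv.apply_symm_apply, Equiv.apply_symm_apply, Matrix.blockDiagonal'_apply_eq]
  rfl

end Pool.Agent.Y921.DB
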