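import Pool.Agent.Y113.GG.Conv

/-!
# Complex values of words of G-functions
-/

set_option autoImplicit false

open PowerSeries

namespace Pool.Agent.Y921.DB

open Pool.Agent.Y113 Pool.Agent.Y113.GG Pool.Agent.Y37.GF Pool.Agent.Y118.HG

variable {n : ℕ}

/-- the complex values -/
noncomputable def zc (Z : Fin n → Fin n → ℚ⟦X⟧) (z : ℂ) (p : Fin n × Fin n) : ℂ := Ec (Z p.1 p.2) z

lemma sr_c {C : ℝ} (hC : 1 ≤ C) {f : ℚ⟦X⟧} (hf : ∀ m, |((coeff m f : ℚ) : ℝ)| ≤ C ^ (m + 1)) {z : ℂ}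
    (hz : ‖z‖ < 1 / C) : SR ‖z‖ f := by
  have hC0 : 0 < C := by linarith
  refine SR.of_bound (A := C) (B := C) (norm_nonneg _) hC0.le ?_ fun m => ?_
  · rw [lt_div_iff₀ hC0] at hz
    linarith
  · rw [← pow_succ']; exact hf m

lemma zv_eq (Z : Fin n → Fin n → ℚ⟦X⟧) (x : ℝ) (p : Fin n × Fin n) : zv Z x p = zc Z ((1 / x : ℝ) : ℂ) p := by
  unfold zv zc
  rw [ev_eq]
  unfold E Ec
  rw [Complex.ofReal_tsum]
  push_cast
  rfl

/-- the complex value of a word -/
lemma ec_wd {Z : Fin n → Fin n → ℚ⟦X⟧} {C : ℝ} (hC : 1 ≤ C)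
    (hZ : ∀ i j m, |((coeff m (Z i j) : ℚ) : ℝ)| ≤ C ^ (m + 1)) {δ : ℕ} (h : Fin δ → Option (Fin n × Fin n)) {z : ℂ}
    (hz : ‖z‖ < 1 / C) : SR ‖z‖ (wd Z h) ∧ Ec (wd Z h) z = wv (zc Z z) h := by
  have h1 : ∀ a, SR ‖z‖ (lt Z (h a)) := by
    intro a
    unfold lt
    rcases h a with _ | ⟨i, j⟩
    · exact SR.one _
    · exact sr_c hC (hZ i j) hz
  refine ⟨SR.prod _ (norm_nonneg _) fun a _ => h1 a, ?_⟩
  unfold wd wv
  have h2 : ∀ s : Finset (Fin δ), Ec (∏ a ∈ s, lt Z (h a)) z = ∏ a ∈ s, Ec (lt Z (h a)) z := by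
    intro s
    classical
    induction s using Finset.induction_on with
    | empty => simp [Ec_one]
    | insert a s ha ih =>
      rw [Finset.prod_insert ha, Finset.prod_insert ha, Ec_mul (h1 a) (SR.prod _ (norm_nonneg _) fun a _ => h1 a) le_rfl, ih]
  rw [h2]
  refine Finset.prod_congr rfl fun a _ => ?_
  unfold lt zc
  rcases h a with _ | ⟨i, j⟩
  · simp [Ec_one]
  · simp

lemma sr_ps (P : Polynomial ℤ) (r : ℝ) : SR r (ps P) := SR.poly _ _

lemma ec_ps (P : Polynomial ℤ) (z : ℂ) : Ec (ps P) z = Polynomial.aeval z P := by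
  unfold Ec ps
  rw [tsum_eq_sum (s := Finset.range (P.natDegree + 1))]
  · rw [Polynomial.aeval_eq_sum_range]
    refine Finset.sum_congr rfl fun m _ => ?_
    simp [Polynomial.coeff_coe]
  · intro m hm
    have : P.natDegree < m := by
      simp only [Finset.mem_range, not_lt] at hm
      omega
    simp [Polynomial.coeff_coe, Polynomial.coeff_eq_zero_of_natDegree_lt this]

lemma ec_sum {ι : Type} (s : Finset ι) {F : ι → ℚ⟦X⟧} {z : ℂ} (h : ∀ i ∈ s, SR ‖z‖ (F i)) :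
    Ec (∑ i ∈ s, F i) z = ∑ i ∈ s, Ec (F i) z := by
  have h1 : HasSum (fun m : ℕ => ∑ i ∈ s, ((coeff m (F i) : ℚ) : ℂ) * z ^ m) (∑ i ∈ s, Ec (F i) z) :=
    hasSum_sum fun i hi => hasSum_Ec (h i hi) le_rfl
  unfold Ec at h1 ⊢
  rw [← h1.tsum_eq]
  refine tsum_congr fun m => ?_
  rw [map_sum]
  push_cast
  rw [Finset.sum_mul]

/-- the reduction of the complex values -/
lemma red_vc {Z : Fin n → Fin n → ℚ⟦X⟧} {C : ℝ} (hC : 1 ≤ C)
    (hZ : ∀ i j m, |((coeff m (Z i j) : ℚ) : ℝ)| ≤ C ^ (m + 1)) {δ : ℕ} (b : Bas Z δ)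
    (h : Fin δ → Option (Fin n × Fin n)) {z : ℂ} (hz : ‖z‖ < 1 / C) :
    Polynomial.aeval z b.D * wv (zc Z z) h =
      ∑ k : b.s, Polynomial.aeval z (b.N h k) * wv (zc Z z) (k : Fin δ → Option (Fin n × Fin n)) := by
  have hk : ∀ k : b.s, SR ‖z‖ (ps (b.N h k) * wd Z (k : Fin δ → Option (Fin n × Fin n))) := fun k =>
    SR.mul (norm_nonneg _) (sr_ps _ _) (ec_wd hC hZ k.1 hz).1
  have e1 : Ec (ps b.D * wd Z h) z = Polynomial.aeval z b.D * wv (zc Z z) h := by
    rw [Ec_mul (sr_ps _ _) (ec_wd hC hZ h hz).1 le_rfl, ec_ps, (ec_wd hC hZ h hz).2]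
  rw [← e1, b.red h, ec_sum _ fun k _ => hk k]
  refine Finset.sum_congr rfl fun k _ => ?_
  rw [Ec_mul (sr_ps _ _) (ec_wd hC hZ k.1 hz).1 le_rfl, ec_ps, (ec_wd hC hZ k.1 hz).2]

/-- letters -/
lemma lt_vc {σ : Type} {M : Type} [CommMonoid M] {δ : ℕ} (y : σ → M) (h : Fin δ → Option σ) :
    wv y h = ∏ a, (h a).elim 1 y := rfl

/-- words in linear combinations of letters -/
lemma wv_lin {ι σ : Type} [Fintype σ] [DecidableEq σ] {R : Type} [CommRing R] {δ : ℕ} (lam : ι → Option σ → R)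
    (y : σ → R) (h : Fin δ → Option ι) :
    wv (fun i => ∑ q, lam i q * q.elim 1 y) h =
      ∑ g : Fin δ → Option σ, (∏ a, (h a).elim (if g a = none then 1 else 0) fun i => lam i (g a)) * wv y g := by
  classical
  unfold wv
  have h1 : ∀ a : Fin δ, ((h a).elim 1 fun i => ∑ q, lam i q * q.elim 1 y) =
      ∑ q : Option σ, ((h a).elim (if q = none then 1 else 0) fun i => lam i q) * q.elim 1 y := by
    intro a
    rcases h a with _ | i
    · simp only [Option.elim_none]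
      rw [Fintype.sum_option]
      simp
    · rfl
  rw [Finset.prod_congr rfl fun a _ => h1 a, Finset.prod_univ_sum, Fintype.piFinset_univ]
  refine Finset.sum_congr rfl fun g _ => ?_
  rw [Finset.prod_mul_distrib]

/-- the part of a word at one place -/
def rs {ι : Type} {k δ : ℕ} (w : Fin δ → Option (Fin k × ι)) (l : Fin k) : Fin δ → Option ι :=
  fun a => (w a).elim none fun p => if p.1 = l then some p.2 else none

lemma wv_rs {ι M : Type} [CommMonoid M] {k δ : ℕ} (y : Fin k × ι → M) (w : Fin δ → Option (Fin k × ι)) :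
    wv y w = ∏ l, wv (fun i => y (l, i)) (rs w l) := by
  classical
  unfold wv
  rw [Finset.prod_comm]
  refine Finset.prod_congr rfl fun a _ => ?_
  unfold rs
  rcases w a with _ | ⟨l', i⟩
  · simp
  · simp only [Option.elim_some]
    rw [Finset.prod_eq_single l']
    · simp
    · intro l _ hl
      simp [Ne.symm hl]
    · intro hh; exact absurd (Finset.mem_univ _) hh

end Pool.Agent.Y921.DB
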