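import Pool.Agent.Y921.DB.Spec

/-!
# Changing the variables in relations
-/

set_option autoImplicit false

namespace Pool.Agent.Y921.DB

open MvPolynomial

variable {K : Type} [Field K] [Algebra K ℂ] {k : ℕ} {τ τ' : Type}

lemma totalDegree_aeval_le' {R : Type} [CommRing R] {f : τ' → MvPolynomial τ R} (hf : ∀ i, (f i).totalDegree ≤ 1)
    (p : MvPolynomial τ' R) : (aeval f p).totalDegree ≤ p.totalDegree := by
  classical
  rw [aeval_def, eval₂_eq]
  refine totalDegree_finsetSum_le fun s hs => ?_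
  rw [algebraMap_eq]
  refine (totalDegree_mul _ _).trans ?_
  rw [totalDegree_C, zero_add]
  refine (totalDegree_finsetProd _ _).trans ?_
  refine le_trans ?_ (le_totalDegree hs)
  rw [Finsupp.sum]
  refine Finset.sum_le_sum fun i _ => ?_
  refine (totalDegree_pow _ _).trans ?_
  calc s i * (f i).totalDegree ≤ s i * 1 := Nat.mul_le_mul_left _ (hf i)
    _ = s i := mul_one _

/-- restriction to a part of the functions -/
theorem SpecK.rename {p : (Fin k → ℂ) → τ → ℂ} {p' : (Fin k → ℂ) → τ' → ℂ} {r : ℝ} {δ : ℕ} {m : Fin k → ℕ} {g : τ → τ'}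
    (hg : Function.Injective g) (h1 : ∀ z t, p' z (g t) = p z t) (h2 : ∀ z t', t' ∉ Set.range g → p' z t' = 0)
    (h : SpecK K p' r δ m) : SpecK K p r δ m := by
  classical
  intro P hP h0
  obtain ⟨G, hG1, hG2, hG3⟩ := h (MvPolynomial.rename g P) ((totalDegree_rename_le g P).trans hP) (by
    rw [aeval_rename, ← h0]
    congr 1
    congr 1
    funext t
    exact h1 _ t)
  refine ⟨killCompl hg G, (totalDegree_aeval_le' (fun i => ?_) G).trans hG1, fun z hz => ?_, ?_⟩
  · split_ifs
    · exact (totalDegree_X _).le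
    · simp
  · have h3 := MvPolynomial.map_aeval (R := MvPolynomial (Fin k) K)
      (g := fun i => if hi : i ∈ Set.range g then (X ((Equiv.ofInjective g hg).symm ⟨i, hi⟩) :
        MvPolynomial τ (MvPolynomial (Fin k) K)) else 0)
      (φ := eval₂Hom (aeval z : MvPolynomial (Fin k) K →ₐ[K] ℂ).toRingHom (p z)) (p := G)
    have h4 : MvPolynomial.eval₂ (aeval z : MvPolynomial (Fin k) K →ₐ[K] ℂ).toRingHom (p z) (killCompl hg G) =
        eval₂Hom (aeval z : MvPolynomial (Fin k) K →ₐ[K] ℂ).toRingHom (p z) (killCompl hg G) := rfl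
    rw [h4]
    unfold killCompl
    rw [h3, ← hG2 z hz]
    have h5 : (eval₂Hom (aeval z : MvPolynomial (Fin k) K →ₐ[K] ℂ).toRingHom (p z)).comp
        (algebraMap (MvPolynomial (Fin k) K) (MvPolynomial τ (MvPolynomial (Fin k) K))) =
        (aeval z : MvPolynomial (Fin k) K →ₐ[K] ℂ).toRingHom := by
      refine RingHom.ext fun a => ?_
      rw [RingHom.comp_apply, algebraMap_eq, coe_eval₂Hom, eval₂_C]
    rw [h5, coe_eval₂Hom]
    congr 1
    funext t'
    by_cases ht' : t' ∈ Set.range g
    · rw [dif_pos ht', coe_eval₂Hom, eval₂_X]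
      obtain ⟨t, rfl⟩ := ht'
      rw [h1]
      congr 1
      exact (Equiv.symm_apply_eq _).2 (Subtype.ext rfl)
    · rw [dif_neg ht', map_zero, h2 z t' ht']
  · unfold killCompl
    have h3 := MvPolynomial.map_aeval (R := MvPolynomial (Fin k) K)
      (g := fun i => if hi : i ∈ Set.range g then (X ((Equiv.ofInjective g hg).symm ⟨i, hi⟩) :
        MvPolynomial τ (MvPolynomial (Fin k) K)) else 0)
      (φ := MvPolynomial.map (σ := τ) (eval fun l => 1 / (m l : K))) (p := G)
    rw [h3]
    have h4 : P = killCompl hg (MvPolynomial.map (eval fun l => 1 / (m l : K)) G) := by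
      rw [hG3, killCompl_rename_app]
    conv_rhs => rw [h4]
    unfold killCompl
    rw [aeval_def, eval₂_map]
    rw [coe_eval₂Hom]
    congr 1
    · refine RingHom.ext fun a => ?_
      simp
    · funext t'
      split_ifs <;> simp

/-- the one variable form -/
def Spec1 (K : Type) [Field K] [Algebra K ℂ] {τ : Type} (p : ℂ → τ → ℂ) (r : ℝ) (δ : ℕ) (m : ℕ) : Prop :=
  ∀ P : MvPolynomial τ K, P.totalDegree ≤ δ → aeval (p (1 / (m : ℂ))) P = 0 →
    ∃ G : MvPolynomial τ (Polynomial K), G.totalDegree ≤ δ ∧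
      (∀ z : ℂ, ‖z‖ < r → G.eval₂ (Polynomial.aeval z : Polynomial K →ₐ[K] ℂ).toRingHom (p z) = 0) ∧
      G.map (Polynomial.evalRingHom (1 / (m : K))) = P

theorem SpecK.one (g : τ ≃ τ') {p : (Fin 1 → ℂ) → τ' → ℂ} {p' : ℂ → τ → ℂ} {r : ℝ} {δ : ℕ} {m : ℕ}
    (h1 : ∀ z t, p' z t = p (fun _ => z) (g t)) (h : SpecK K p r δ (fun _ => m)) : Spec1 K p' r δ m := by
  classical
  intro P hP h0
  obtain ⟨G, hG1, hG2, hG3⟩ := h (MvPolynomial.rename g P) ((totalDegree_rename_le _ P).trans hP) (by
    rw [aeval_rename, ← h0]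
    congr 1
    congr 1
    funext t
    exact (h1 _ t).symm)
  set ψ : MvPolynomial (Fin 1) K →ₐ[K] Polynomial K := aeval fun _ => Polynomial.X with hψ
  refine ⟨MvPolynomial.map ψ.toRingHom (MvPolynomial.rename g.symm G), ?_, fun z hz => ?_, ?_⟩
  · exact (Finset.sup_mono (support_map_subset _ _)).trans ((totalDegree_rename_le _ _).trans hG1)
  · rw [eval₂_map, eval₂_rename, ← hG2 (fun _ => z) (fun _ => hz)]
    congr 1
    · refine RingHom.ext fun a => ?_
      have h3 : (Polynomial.aeval z : Polynomial K →ₐ[K] ℂ).comp ψ = aeval (fun _ : Fin 1 => z) := by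
        refine MvPolynomial.algHom_ext fun i => ?_
        simp [hψ]
      exact congrArg (fun F : MvPolynomial (Fin 1) K →ₐ[K] ℂ => F a) h3
    · funext t
      rw [Function.comp_apply, h1, Equiv.apply_symm_apply]
  · rw [MvPolynomial.map_map]
    have h3 : (Polynomial.evalRingHom (1 / (m : K))).comp ψ.toRingHom = eval (fun _ : Fin 1 => 1 / (m : K)) := by
      refine MvPolynomial.ringHom_ext (fun a => ?_) fun i => ?_
      · simp [hψ]
      · simp [hψ]
    rw [h3, MvPolynomial.map_rename]
    have h4 : MvPolynomial.map (eval (fun _ : Fin 1 => 1 / (m : K))) G = MvPolynomial.rename g P := hG3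
    rw [h4, rename_rename]
    have : (g.symm ∘ g : τ → τ) = id := by
      funext t
      simp
    rw [this, rename_id_apply]

end Pool.Agent.Y921.DB
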