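import Pool.Agent.Y921.DB.Per
import Pool.Agent.Y921.DB.Blk
import Pool.Agent.Y921.DB.Ren
import Mathlib.LinearAlgebra.Lagrange

/-!
# Periods of cyclic covers of the line
-/

set_option autoImplicit false

open PowerSeries

namespace Pool.Agent.Y921.DB

/-- `(x, y)` is a closed path on the affine curve `y ^ N = x ^ e₀ ∏ (x - a j) ^ (e j)`, outside the disc `|x| ≤ ρ` -/
structure CPath {n : ℕ} (N e₀ : ℕ) (a : Fin n → ℂ) (e : Fin n → ℕ) (ρ : ℝ) (x y : ℝ → ℂ) : Prop where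
  smooth_x : ContDiff ℝ 1 x
  smooth_y : ContDiff ℝ 1 y
  closed_x : x 0 = x 1
  closed_y : y 0 = y 1
  curve : ∀ t ∈ Set.Icc (0 : ℝ) 1, y t ^ N = x t ^ e₀ * ∏ j, (x t - a j) ^ e j
  away : ∀ t ∈ Set.Icc (0 : ℝ) 1, (∀ j, x t ≠ a j) ∧ ρ < ‖x t‖

/-- the path on the curve `y ^ N = (x - z) ^ e₀ ∏ (x - a j) ^ (e j)` with the same `x` -/
noncomputable def yz (N e₀ : ℕ) (x y : ℝ → ℂ) (z : ℂ) (t : ℝ) : ℂ := y t * (1 - z / x t) ^ ((e₀ : ℂ) / N)

/-- the period of `x ^ i dx / y ^ k` -/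
noncomputable def pd (N e₀ : ℕ) (x y : ℝ → ℂ) (z : ℂ) (k i : ℕ) : ℂ :=
  ∫ t in (0 : ℝ)..1, x t ^ i / yz N e₀ x y z t ^ k * deriv x t

section

variable {n N e₀ : ℕ} {a : Fin n → ℂ} {e : Fin n → ℕ} {ρ : ℝ} {x y : ℝ → ℂ}

lemma CPath.x0 (h : CPath N e₀ a e ρ x y) (hρ : 0 ≤ ρ) {t : ℝ} (ht : t ∈ Set.Icc (0 : ℝ) 1) : x t ≠ 0 := by
  intro h0
  have := (h.away t ht).2
  rw [h0, norm_zero] at this
  linarith

/-- the path is on the curve -/
lemma yz_pow (hN : 0 < N) (h : CPath N e₀ a e ρ x y) (hρ : 0 ≤ ρ) {z : ℂ} {t : ℝ}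
    (ht : t ∈ Set.Icc (0 : ℝ) 1) : yz N e₀ x y z t ^ N = (x t - z) ^ e₀ * ∏ j, (x t - a j) ^ e j := by
  have hx := h.x0 hρ ht
  have hN' : (N : ℂ) ≠ 0 := by exact_mod_cast hN.ne'
  unfold yz
  rw [mul_pow, h.curve t ht, ← Complex.cpow_nat_mul, mul_div_cancel₀ _ hN', Complex.cpow_natCast]
  have : x t - z = x t * (1 - z / x t) := by field_simp
  rw [this, mul_pow]
  ring

lemma CPath.y0 (hN : 0 < N) (h : CPath N e₀ a e ρ x y) (hρ : 0 ≤ ρ) {t : ℝ} (ht : t ∈ Set.Icc (0 : ℝ) 1) : y t ≠ 0 := by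
  intro h0
  have h1 := h.curve t ht
  rw [h0, zero_pow hN.ne'] at h1
  rcases mul_eq_zero.1 h1.symm with h2 | h2
  · exact h.x0 hρ ht (eq_zero_of_pow_eq_zero h2)
  · obtain ⟨j, -, hj⟩ := Finset.prod_eq_zero_iff.1 h2
    exact sub_ne_zero.2 ((h.away t ht).1 j) (eq_zero_of_pow_eq_zero hj)

/-- the derivative of a product -/
lemma dprod (s : Finset (Fin n)) (c : Fin n → ℕ) {x' : ℂ} {t : ℝ} (hx : HasDerivAt x x' t) (hne : ∀ j, x t ≠ a j) :
    HasDerivAt (fun t => ∏ j ∈ s, (x t - a j) ^ c j)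
      ((∏ j ∈ s, (x t - a j) ^ c j) * (∑ j ∈ s, (c j : ℂ) / (x t - a j)) * x') t := by
  classical
  induction s using Finset.induction_on with
  | empty => simpa using hasDerivAt_const t (1 : ℂ)
  | insert j s hj ih =>
    simp only [Finset.prod_insert hj, Finset.sum_insert hj]
    have h1 : HasDerivAt (fun t => (x t - a j) ^ c j) ((c j : ℂ) * (x t - a j) ^ (c j - 1) * x') t :=
      (hx.sub_const (a j)).pow (c j)
    refine (h1.mul ih).congr_deriv ?_
    have h2 := sub_ne_zero.2 (hne j)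
    have h3 : (c j : ℂ) * (x t - a j) ^ (c j - 1) = (x t - a j) ^ c j * ((c j : ℂ) / (x t - a j)) := by
      rcases Nat.eq_zero_or_pos (c j) with h0 | h0
      · rw [h0]; simp
      · have : (x t - a j) ^ c j = (x t - a j) ^ (c j - 1) * (x t - a j) := by
          rw [← pow_succ, Nat.sub_add_cancel h0]
        rw [this]
        field_simp
    rw [h3]
    ring

/-- the logarithmic derivative of `y` -/
lemma CPath.ylog (hN : 0 < N) (h : CPath N e₀ a e ρ x y) (hρ : 0 ≤ ρ) {t : ℝ} (ht : t ∈ Set.Icc (0 : ℝ) 1) :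
    (N : ℂ) * deriv y t = y t * (((e₀ : ℂ) / x t) + ∑ j, (e j : ℂ) / (x t - a j)) * deriv x t := by
  have hx0 := h.x0 hρ ht
  have hy0 := h.y0 hN hρ ht
  have hx : HasDerivAt x (deriv x t) t := (h.smooth_x.differentiable one_ne_zero t).hasDerivAt
  have hy : HasDerivAt y (deriv y t) t := (h.smooth_y.differentiable one_ne_zero t).hasDerivAt
  have h1 : HasDerivAt (fun t => y t ^ N) ((N : ℂ) * y t ^ (N - 1) * deriv y t) t := hy.pow N
  have h2 : HasDerivAt (fun t => x t ^ e₀ * ∏ j, (x t - a j) ^ e j)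
      (((e₀ : ℂ) * x t ^ (e₀ - 1) * deriv x t) * (∏ j, (x t - a j) ^ e j) +
        x t ^ e₀ * ((∏ j, (x t - a j) ^ e j) * (∑ j, (e j : ℂ) / (x t - a j)) * deriv x t)) t :=
    (hx.pow e₀).mul (dprod Finset.univ e hx (h.away t ht).1)
  have h3 : (N : ℂ) * y t ^ (N - 1) * deriv y t = _ :=
    (uniqueDiffOn_Icc (zero_lt_one (α := ℝ)) t ht).eq_deriv _ h1.hasDerivWithinAt
      (h2.hasDerivWithinAt.congr (fun s hs => h.curve s hs) (h.curve t ht))
  have h4 : (e₀ : ℂ) * x t ^ (e₀ - 1) = x t ^ e₀ * ((e₀ : ℂ) / x t) := by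
    rcases Nat.eq_zero_or_pos e₀ with h0 | h0
    · rw [h0]; simp
    · have : x t ^ e₀ = x t ^ (e₀ - 1) * x t := by
        rw [← pow_succ, Nat.sub_add_cancel h0]
      rw [this]
      field_simp
  have h5 : y t ^ N = y t ^ (N - 1) * y t := by rw [← pow_succ, Nat.sub_add_cancel hN]
  have h6 : y t ^ (N - 1) ≠ 0 := pow_ne_zero _ hy0
  apply mul_left_cancel₀ h6
  have h7 := h.curve t ht
  calc y t ^ (N - 1) * ((N : ℂ) * deriv y t) = (N : ℂ) * y t ^ (N - 1) * deriv y t := by ring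
    _ = (x t ^ e₀ * ∏ j, (x t - a j) ^ e j) * (((e₀ : ℂ) / x t) + ∑ j, (e j : ℂ) / (x t - a j)) * deriv x t := by
        rw [h3, h4]; ring
    _ = _ := by rw [← h7, h5]; ring

/-- the exponents -/
def muj (N k : ℕ) (e : Fin n → ℕ) (l : Fin n) : ℚ := 1 - (k * e l : ℚ) / N

def mu0 (N k e₀ : ℕ) : ℚ := -((k * e₀ : ℚ) / N)

/-- the multivalued function -/
noncomputable def ww (a : Fin n → ℂ) (x y : ℝ → ℂ) (k : ℕ) (t : ℝ) : ℂ := (∏ l, (x t - a l)) * (y t)⁻¹ ^ k

lemma CPath.loop (hN : 0 < N) (h : CPath N e₀ a e ρ x y) (hρ : 0 < ρ) (k : ℕ) :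
    Loop a (muj N k e) (mu0 N k e₀) ρ x (ww a x y k) := by
  have hN' : (N : ℂ) ≠ 0 := by exact_mod_cast hN.ne'
  have key : ∀ t ∈ Set.Icc (0 : ℝ) 1, HasDerivAt (ww a x y k)
      (ww a x y k t * ((∑ l, (muj N k e l : ℂ) / (x t - a l)) + (mu0 N k e₀ : ℂ) / x t) * deriv x t) t := by
    intro t ht
    have hx0 := h.x0 hρ.le ht
    have hy0 := h.y0 hN hρ.le ht
    have hx : HasDerivAt x (deriv x t) t := (h.smooth_x.differentiable one_ne_zero t).hasDerivAt
    have hy : HasDerivAt y (deriv y t) t := (h.smooth_y.differentiable one_ne_zero t).hasDerivAt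
    have h1 := dprod (a := a) Finset.univ (fun _ => 1) hx (h.away t ht).1
    simp only [pow_one, Nat.cast_one] at h1
    have h2 : HasDerivAt (fun t => (y t)⁻¹ ^ k) ((k : ℂ) * (y t)⁻¹ ^ (k - 1) * (-deriv y t / y t ^ 2)) t :=
      (hy.inv hy0).pow k
    refine (h1.mul h2).congr_deriv ?_
    have h3 := h.ylog hN hρ.le ht
    have h4 : (k : ℂ) * (y t)⁻¹ ^ (k - 1) * (-deriv y t / y t ^ 2) = -((y t)⁻¹ ^ k * ((k : ℂ) * ((y t)⁻¹ * deriv y t))) := by
      rcases Nat.eq_zero_or_pos k with h0 | h0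
      · rw [h0]; simp
      · have : (y t)⁻¹ ^ k = (y t)⁻¹ ^ (k - 1) * (y t)⁻¹ := by
          rw [← pow_succ, Nat.sub_add_cancel h0]
        rw [this]
        field_simp
    have h5 : (y t)⁻¹ * deriv y t = (((e₀ : ℂ) / x t) + ∑ j, (e j : ℂ) / (x t - a j)) * deriv x t / N := by
      rw [eq_div_iff hN']
      calc (y t)⁻¹ * deriv y t * N = (y t)⁻¹ * ((N : ℂ) * deriv y t) := by ring
        _ = _ := by rw [h3]; field_simp
    have h6 : (∑ l, (muj N k e l : ℂ) / (x t - a l)) = (∑ l, 1 / (x t - a l)) - (k : ℂ) / N * ∑ j, (e j : ℂ) / (x t - a j) := by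
      rw [Finset.mul_sum, ← Finset.sum_sub_distrib]
      refine Finset.sum_congr rfl fun l _ => ?_
      unfold muj
      push_cast
      ring
    have h7 : (mu0 N k e₀ : ℂ) / x t = -((k : ℂ) / N * ((e₀ : ℂ) / x t)) := by
      unfold mu0
      push_cast
      ring
    rw [h4, h5, h6, h7]
    unfold ww
    ring
  refine ⟨h.smooth_x, fun t ht => (key t ht).differentiableAt, hρ, fun t ht => (h.away t ht).2,
    fun t ht => (h.away t ht).1, h.closed_x, ?_, fun t ht => (key t ht).deriv⟩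
  unfold ww
  rw [h.closed_x, h.closed_y]

/-- the Lagrange coefficients -/
noncomputable def lag (a : Fin n → ℂ) (i : ℕ) (j : Fin n) : ℂ := a j ^ i * ∏ l ∈ Finset.univ.erase j, (a j - a l)⁻¹

lemma lag_sum (ha : Function.Injective a) {i : ℕ} (hi : i < n) (u : ℂ) :
    u ^ i = ∑ j, lag a i j * ∏ l ∈ Finset.univ.erase j, (u - a l) := by
  have h1 := Lagrange.eq_interpolate (s := (Finset.univ : Finset (Fin n))) (v := a) (f := (Polynomial.X ^ i : Polynomial ℂ))
    ha.injOn (by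
      rw [Polynomial.degree_X_pow, Finset.card_univ, Fintype.card_fin]
      exact_mod_cast hi)
  have h2 := congrArg (Polynomial.eval u) h1
  rw [Polynomial.eval_pow, Polynomial.eval_X, Lagrange.interpolate_apply, Polynomial.eval_finsetSum] at h2
  rw [h2]
  refine Finset.sum_congr rfl fun j _ => ?_
  rw [Polynomial.eval_mul, Polynomial.eval_C, Polynomial.eval_pow, Polynomial.eval_X, Lagrange.basis,
    Polynomial.eval_prod]
  unfold lag
  rw [mul_assoc, ← Finset.prod_mul_distrib]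
  congr 1
  refine Finset.prod_congr rfl fun l _ => ?_
  unfold Lagrange.basisDivisor
  simp

/-- **The periods in terms of the integrals.** -/
lemma CPath.pd_eq (hN : 0 < N) (h : CPath N e₀ a e ρ x y) (hρ : 0 < ρ) (ha : Function.Injective a) (k : ℕ) {i : ℕ}
    (hi : i < n) {z : ℂ} (hz : ‖z‖ < ρ) :
    pd N e₀ x y z k i = ∑ j, lag a i j * Io a (mu0 N k e₀) x (ww a x y k) z j := by
  have hL := h.loop hN hρ k
  have hN' : (N : ℂ) ≠ 0 := by exact_mod_cast hN.ne'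
  have hsl : ∀ t ∈ Set.Icc (0 : ℝ) 1, (1 - z / x t) ∈ Complex.slitPlane := by
    intro t ht
    have h1 : ‖z / x t‖ < 1 := by
      rw [norm_div, div_lt_one (hρ.trans (h.away t ht).2)]
      exact hz.trans (h.away t ht).2
    have h2 := Complex.mem_slitPlane_of_norm_lt_one (z := -(z / x t)) (by rwa [norm_neg])
    rwa [← sub_eq_add_neg] at h2
  have hint : ∀ j ∈ (Finset.univ : Finset (Fin n)), IntervalIntegrable (fun t => lag a i j *
      (ww a x y k t * (1 - z / x t) ^ (mu0 N k e₀ : ℂ) / (x t - a j) * deriv x t)) MeasureTheory.volume 0 1 := by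
    intro j _
    refine IntervalIntegrable.const_mul ?_ _
    apply ContinuousOn.intervalIntegrable
    rw [Set.uIcc_of_le zero_le_one]
    refine ContinuousOn.mul (ContinuousOn.div (ContinuousOn.mul hL.cont_w ?_)
      (hL.cont_x.continuousOn.sub continuousOn_const) fun t ht => sub_ne_zero.2 (hL.ne t ht j)) hL.cont_dx.continuousOn
    refine ContinuousOn.cpow_const ?_ hsl
    exact continuousOn_const.sub (continuousOn_const.div hL.cont_x.continuousOn fun t ht => hL.x0 ht)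
  unfold pd Io
  simp only [← intervalIntegral.integral_const_mul]
  rw [← intervalIntegral.integral_finsetSum hint]
  refine intervalIntegral.integral_congr fun t ht => ?_
  rw [Set.uIcc_of_le zero_le_one] at ht
  have hy0 := h.y0 hN hρ.le ht
  have h1 : yz N e₀ x y z t ^ k = y t ^ k * (1 - z / x t) ^ (-(mu0 N k e₀ : ℂ)) := by
    unfold yz
    rw [mul_pow, ← Complex.cpow_nat_mul]
    congr 2
    unfold mu0
    push_cast
    ring
  have h2 : (1 - z / x t) ^ (-(mu0 N k e₀ : ℂ)) = ((1 - z / x t) ^ (mu0 N k e₀ : ℂ))⁻¹ := Complex.cpow_neg _ _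
  have h3 : ∀ j, lag a i j * (ww a x y k t * (1 - z / x t) ^ (mu0 N k e₀ : ℂ) / (x t - a j) * deriv x t) =
      (lag a i j * ∏ l ∈ Finset.univ.erase j, (x t - a l)) *
        ((y t)⁻¹ ^ k * (1 - z / x t) ^ (mu0 N k e₀ : ℂ) * deriv x t) := by
    intro j
    have h4 : ∏ l, (x t - a l) = (x t - a j) * ∏ l ∈ Finset.univ.erase j, (x t - a l) :=
      (Finset.mul_prod_erase Finset.univ (fun l => x t - a l) (Finset.mem_univ j)).symm
    have h5 := sub_ne_zero.2 (hL.ne t ht j)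
    unfold ww
    rw [h4]
    field_simp
  rw [Finset.sum_congr rfl fun j _ => h3 j, ← Finset.sum_mul, ← lag_sum ha hi, h1, h2, inv_pow]
  rw [div_eq_mul_inv, mul_inv, inv_inv]
  ring

end

end Pool.Agent.Y921.DB
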