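import Pool.Agent.Y921.DB.Cyc

/-!
# Relations between periods of cyclic covers
-/

set_option autoImplicit false

open PowerSeries

namespace Pool.Agent.Y921.DB

lemma exists_pos_le {ι : Type} [Finite ι] (r : ι → ℝ) (h : ∀ i, 0 < r i) : ∃ r₀ : ℝ, 0 < r₀ ∧ ∀ i, r₀ ≤ r i := by
  rcases isEmpty_or_nonempty ι with hι | hι
  · exact ⟨1, one_pos, fun i => hι.elim i⟩
  · obtain ⟨i, hi⟩ := Finite.exists_min r
    exact ⟨r i, h i, hi⟩

lemma mu0_ne {N k e₀ : ℕ} (hN : 0 < N) (hk : 0 < k) (he : 0 < e₀) (m : ℕ) : (m : ℚ) ≠ mu0 N k e₀ := by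
  have h1 : (0 : ℚ) < (k * e₀ : ℚ) / N := by positivity
  have h2 : (0 : ℚ) ≤ m := Nat.cast_nonneg m
  unfold mu0
  intro h
  linarith

/-- the G-system of a family of integrals -/
theorem datL_Zk {L : Type} [Field L] [NumberField L] {n : ℕ} (a : Fin n → L) (μ : Fin n → ℚ) (μ0 : ℚ) (ha : ∀ j, a j ≠ 0)
    (h0 : ∀ m : ℕ, (m : ℚ) ≠ μ0) : DatL (fp a) (Ak a μ μ0) (Zk a μ μ0) (Wk a μ μ0) where
  reg := by
    unfold fp
    rw [Polynomial.coeff_zero_eq_eval_zero, Polynomial.eval_prod]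
    refine Finset.prod_ne_zero_iff.2 fun j _ => ?_
    simpa using ha j
  sys := Zk_sys a μ μ0 ha h0
  inv := Wk_inv a μ μ0 ha h0
  gZ := GFn_Zk a μ μ0 h0
  gW := GFn_Wk a μ μ0 h0

/-- the data of `p` families of cyclic covers -/
structure Fam (p : ℕ) where
  n : Fin p → ℕ
  N : Fin p → ℕ
  e₀ : Fin p → ℕ
  κ : Fin p → ℕ
  σ : Fin p → ℕ
  a : ∀ l, Fin (n l) → ℂ
  e : ∀ l, Fin (n l) → ℕ
  ρ : Fin p → ℝ
  x : ∀ l, Fin (σ l) → ℝ → ℂ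
  y : ∀ l, Fin (σ l) → ℝ → ℂ
  hN : ∀ l, 0 < N l
  he : ∀ l, 0 < e₀ l
  ha : ∀ l, Function.Injective (a l)
  halg : ∀ l j, IsAlgebraic ℚ (a l j)
  ha0 : ∀ l j, a l j ≠ 0
  hρ : ∀ l, 0 < ρ l
  path : ∀ l s, CPath (N l) (e₀ l) (a l) (e l) (ρ l) (x l s) (y l s)

variable {p : ℕ} (F : Fam p)

/-- the index set of the periods -/
abbrev Fam.τ : Type := Σ l : Fin p, Fin (F.σ l) × Fin (F.κ l) × Fin (F.n l)

/-- the periods -/
noncomputable def Fam.P (z : Fin p → ℂ) (v : F.τ) : ℂ :=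
  pd (F.N v.1) (F.e₀ v.1) (F.x v.1 v.2.1) (F.y v.1 v.2.1) (z v.1) (v.2.2.1 + 1) v.2.2.2

/-- **The periods are combinations of G-functions over a number field.** -/
theorem Fam.rep : ∃ (L : Type) (_ : Field L) (_ : NumberField L) (_ : Algebra L ℂ) (M : ℕ) (f : Polynomial L)
    (A : Fin M → Fin M → Polynomial L) (Z W : Fin M → Fin M → L⟦X⟧) (lam : Fin p → F.τ → Option (Fin M × Fin M) → ℂ)
    (r : ℝ), DatL f A Z W ∧ 0 < r ∧ (∀ l, r ≤ F.ρ l) ∧ (∀ v l, v.1 ≠ l → ∀ q, lam l v q = 0) ∧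
      ∀ z : Fin p → ℂ, (∀ l, ‖z l‖ < r) → ∀ v, F.P z v = ptL lam Z z (v.1, v) := by
  classical
  set S : Set ℂ := ⋃ l, Set.range (F.a l) with hS
  have hSf : S.Finite := Set.finite_iUnion fun l => Set.finite_range _
  have hSa : ∀ s ∈ S, IsIntegral ℚ s := by
    intro s hs
    obtain ⟨l, j, rfl⟩ := Set.mem_iUnion.1 hs
    exact (F.halg l j).isIntegral
  set L := IntermediateField.adjoin ℚ S with hL
  have hfd : FiniteDimensional ℚ L := by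
    have := hSf.to_subtype
    exact IntermediateField.finiteDimensional_adjoin hSa
  have hNF : NumberField L := ⟨⟩
  set α : ∀ l, Fin (F.n l) → L := fun l j => ⟨F.a l j, IntermediateField.subset_adjoin ℚ S (Set.mem_iUnion.2 ⟨l, j, rfl⟩)⟩
    with hα
  have hα0 : ∀ l j, α l j ≠ 0 := by
    intro l j h
    exact F.ha0 l j (congrArg Subtype.val h)
  have hαa : ∀ l j, algebraMap L ℂ (α l j) = F.a l j := fun l j => rfl
  -- the blocks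
  set B : Type := Σ l : Fin p, Fin (F.κ l) with hB
  set μ : ∀ b : B, Fin (F.n b.1) → ℚ := fun b => muj (F.N b.1) (b.2 + 1) (F.e b.1) with hμ
  set μ0 : B → ℚ := fun b => mu0 (F.N b.1) (b.2 + 1) (F.e₀ b.1) with hμ0
  have hμ0n : ∀ (b : B) (m : ℕ), (m : ℚ) ≠ μ0 b := fun b m => mu0_ne (F.hN _) (Nat.succ_pos _) (F.he _) m
  set nn : B → ℕ := fun b => F.n b.1 with hnn
  obtain ⟨A', hA'⟩ := DatL.block (S := B) (n := nn) (f := fun b => fp (α b.1))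
    (fun b => datL_Zk (α b.1) (μ b) (μ0 b) (hα0 _) (hμ0n b))
  set Z := blk (n := nn) fun b => Zk (α b.1) (μ b) (μ0 b) with hZ
  -- the representation of one period
  have hrep : ∀ v : F.τ, ∃ r : ℝ, 0 < r ∧ ∃ c : Option (Fin (sz nn) × Fin (sz nn)) → ℂ, ∀ z : ℂ, ‖z‖ < r →
      pd (F.N v.1) (F.e₀ v.1) (F.x v.1 v.2.1) (F.y v.1 v.2.1) z (v.2.2.1 + 1) v.2.2.2 =
        ∑ q, c q * q.elim 1 fun q => VL (Z q.1 q.2) z := by
    rintro ⟨l, s, k, i⟩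
    have hP := F.path l s
    have hLoop := hP.loop (F.hN l) (F.hρ l) (k + 1)
    obtain ⟨r, hr, hint⟩ := hLoop.integral (α l) (hαa l) (hα0 l) (hμ0n ⟨l, k⟩)
    refine ⟨min r (F.ρ l), lt_min hr (F.hρ l), fun q => ∑ j, ∑ l', if q = some ((sx nn).symm ⟨⟨l, k⟩, l'⟩,
      (sx nn).symm ⟨⟨l, k⟩, j⟩) then lag (F.a l) i j * Mo (F.a l) (F.x l s) (ww (F.a l) (F.x l s) (F.y l s) (k + 1)) 0 l'
      else 0, fun z hz => ?_⟩
    rw [hP.pd_eq (F.hN l) (F.hρ l) (F.ha l) (k + 1) i.2 (hz.trans_le (min_le_right _ _))]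
    simp only [Finset.sum_mul]
    rw [Finset.sum_comm]
    refine Finset.sum_congr rfl fun j _ => ?_
    rw [Finset.sum_comm, hint z (hz.trans_le (min_le_left _ _)) j, Finset.mul_sum]
    refine Finset.sum_congr rfl fun l' _ => ?_
    rw [Finset.sum_eq_single (some ((sx nn).symm ⟨⟨l, k⟩, l'⟩, (sx nn).symm ⟨⟨l, k⟩, j⟩))]
    · rw [if_pos rfl]
      have h1 : Z ((sx nn).symm ⟨⟨l, k⟩, l'⟩) ((sx nn).symm ⟨⟨l, k⟩, j⟩) = Zk (α l) (μ ⟨l, k⟩) (μ0 ⟨l, k⟩) l' j :=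
        blk_same (n := nn) (fun b => Zk (α b.1) (μ b) (μ0 b)) ⟨l, k⟩ l' j
      simp only [Option.elim_some]
      rw [h1, mul_assoc]
    · intro q _ hq
      rw [if_neg hq, zero_mul]
    · intro hh
      exact absurd (Finset.mem_univ _) hh
  choose r hr c hc using hrep
  obtain ⟨r₀, hr₀, hr₁⟩ := exists_pos_le r hr
  obtain ⟨r₂, hr₂, hr₃⟩ := exists_pos_le F.ρ F.hρ
  refine ⟨L, inferInstance, hNF, inferInstance, sz nn, ∏ b : B, fp (α b.1), A', Z,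
    blk (n := nn) (fun b => Wk (α b.1) (μ b) (μ0 b)), fun l v q => if v.1 = l then c v q else 0, min r₀ r₂,
    hA', lt_min hr₀ hr₂, fun l => (min_le_right _ _).trans (hr₃ l), fun v l hvl q => if_neg hvl, fun z hz v => ?_⟩
  unfold Fam.P ptL
  rw [hc v (z v.1) ((hz v.1).trans_le ((min_le_left _ _).trans (hr₁ v)))]
  simp only [if_true]

variable (K : Type) [Field K] [Algebra K ℂ]

lemma Fam.spec {L : Type} [Field L] [NumberField L] [Algebra L ℂ] {M : ℕ} {Z : Fin M → Fin M → L⟦X⟧}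
    {lam : Fin p → F.τ → Option (Fin M × Fin M) → ℂ} {r₀ r : ℝ} (hr : r ≤ r₀)
    (h : ∀ z : Fin p → ℂ, (∀ l, ‖z l‖ < r₀) → ∀ v, F.P z v = ptL lam Z z (v.1, v)) {δ : ℕ} {m : Fin p → ℕ}
    (h0 : ∀ v l, v.1 ≠ l → ∀ q, lam l v q = 0)
    (hm : ∀ l, 1 / (m l : ℝ) < r) (hs : SpecK K (ptL lam Z) r δ m) : SpecK K F.P r δ m := by
  have h1 : SpecK K (fun z v => ptL lam Z z (v.1, v)) r δ m := by
    refine SpecK.rename (g := fun v : F.τ => (v.1, v)) (fun v v' hv => (Prod.ext_iff.1 hv).2) (fun z t => rfl)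
      (fun z t' ht' => ?_) hs
    unfold ptL
    refine Finset.sum_eq_zero fun q _ => ?_
    rw [h0 t'.2 t'.1 (fun hh => ht' ⟨t'.2, Prod.ext hh rfl⟩), zero_mul]
  exact SpecK.congr (fun z hz => funext fun v => h z (fun l => (hz l).trans_le hr) v) hm h1

variable [NumberField K]

open Classical in
/-- **Products of families of cyclic covers, counting.** -/
theorem Fam.count (δ : ℕ) : ∃ r : ℝ, 0 < r ∧ (∀ l, r ≤ F.ρ l) ∧ ∃ c : ℝ, 0 < c ∧ ∃ C : ℝ, ∀ T : ℕ, 1 ≤ T →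
    (((Fintype.piFinset fun _ : Fin p => Finset.Icc 2 T).filter fun m =>
      ¬ ((∀ l, 1 / (m l : ℝ) < r) ∧ SpecK K F.P r δ m)).card : ℝ) ≤ C * (T : ℝ) ^ ((p : ℝ) - c) := by
  obtain ⟨L, _, _, _, M, f, A, Z, W, lam, r₀, hD, hr₀, hrρ, hl0, hrep⟩ := F.rep
  obtain ⟨r, hr, hrr, c, hc, C, hC⟩ := specL_count hD lam K δ hr₀
  refine ⟨r, hr, fun l => hrr.trans (hrρ l), c, hc, C, fun T hT => le_trans ?_ (hC T hT)⟩
  refine Nat.cast_le.2 (Finset.card_le_card fun m hm => ?_)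
  obtain ⟨hm1, hm2⟩ := Finset.mem_filter.1 hm
  refine Finset.mem_filter.2 ⟨hm1, fun hh => hm2 ⟨hh.1, ?_⟩⟩
  exact F.spec K hrr hrep hl0 hh.1 hh.2

/-- **Families of cyclic covers, windows.** -/
theorem Fam.win (F : Fam 1) (δ : ℕ) : ∃ r : ℝ, 0 < r ∧ (∀ l, r ≤ F.ρ l) ∧ ∃ c : ℝ, 0 < c ∧ ∃ M : ℕ, ∀ N : ℕ, 1 ≤ N →
    ∃ S : Finset ℕ, S.card ≤ M ∧ ∀ m : ℕ, N ≤ m → (m : ℝ) ≤ N + (N : ℝ) ^ c → m ∉ S →
      1 / (m : ℝ) < r ∧ SpecK K F.P r δ (fun _ => m) := by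
  obtain ⟨L, _, _, _, M, f, A, Z, W, lam, r₀, hD, hr₀, hrρ, hl0, hrep⟩ := F.rep
  obtain ⟨r, hr, hrr, c, hc, M', hM⟩ := specL_win hD lam K δ hr₀
  refine ⟨r, hr, fun l => hrr.trans (hrρ l), c, hc, M', fun N hN => ?_⟩
  obtain ⟨S, hS, hS'⟩ := hM N hN
  refine ⟨S, hS, fun m h1 h2 h3 => ?_⟩
  obtain ⟨h4, h5⟩ := hS' m h1 h2 h3
  exact ⟨h4, F.spec K hrr hrep hl0 (fun _ => h4) h5⟩

end Pool.Agent.Y921.DB
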