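import Pool.Agent.Y113.P.SD

/-!
# The conditions on the coefficients of G-functions over a number field
-/

set_option autoImplicit false

open PowerSeries Finset.HasAntidiagonal

namespace Pool.Agent.Y921.DB

open Pool.Agent.Y113

variable {L : Type} [Field L] [NumberField L]

/-- all conjugates of the coefficients, and the common denominators, have geometric growth -/
def GFp (A : ℝ) (f : L⟦X⟧) : Prop :=
  (∀ (φ : L →+* ℂ) (m : ℕ), ‖φ (coeff m f)‖ ≤ A ^ (m + 1)) ∧
  ∀ m, ∃ d : ℕ, 0 < d ∧ (d : ℝ) ≤ A ^ (m + 1) ∧ ∀ j ≤ m, IsIntegral ℤ ((d : L) * coeff j f)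

/-- the conditions on the coefficients of a G-function -/
def GFn (f : L⟦X⟧) : Prop := ∃ A : ℝ, GFp A f

omit [NumberField L] in
lemma GFp.one_le {A : ℝ} {f : L⟦X⟧} (h : GFp A f) : 1 ≤ A := by
  obtain ⟨d, hd0, hd, _⟩ := h.2 0
  have : (1 : ℝ) ≤ d := by exact_mod_cast hd0
  simpa using this.trans hd

omit [NumberField L] in
lemma GFp.mono {A B : ℝ} {f : L⟦X⟧} (h : GFp A f) (hAB : A ≤ B) : GFp B f := by
  have h0 : 0 ≤ A := zero_le_one.trans h.one_le
  refine ⟨fun φ m => (h.1 φ m).trans (pow_le_pow_left₀ h0 hAB _), fun m => ?_⟩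
  obtain ⟨d, hd0, hd, hd'⟩ := h.2 m
  exact ⟨d, hd0, hd.trans (pow_le_pow_left₀ h0 hAB _), hd'⟩

omit [NumberField L] in
lemma isIntegral_natCast (d : ℕ) : IsIntegral ℤ (d : L) := by
  have := isIntegral_algebraMap (R := ℤ) (A := L) (x := (d : ℤ))
  simpa using this

omit [NumberField L] in
lemma GFp.add {A B : ℝ} {f g : L⟦X⟧} (h : GFp A f) (h' : GFp B g) : GFp (2 * A * B) (f + g) := by
  have hA := h.one_le
  have hB := h'.one_le
  have hA0 : 0 < A := by linarith
  have hB0 : 0 < B := by linarith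
  refine ⟨fun φ m => ?_, fun m => ?_⟩
  · rw [map_add, map_add]
    refine (norm_add_le _ _).trans ((add_le_add (h.1 φ m) (h'.1 φ m)).trans ?_)
    have e1 : A ^ (m + 1) ≤ (A * B) ^ (m + 1) := pow_le_pow_left₀ hA0.le (by nlinarith) _
    have e2 : B ^ (m + 1) ≤ (A * B) ^ (m + 1) := pow_le_pow_left₀ hB0.le (by nlinarith) _
    calc A ^ (m + 1) + B ^ (m + 1) ≤ 2 * (A * B) ^ (m + 1) := by linarith
      _ ≤ 2 ^ (m + 1) * (A * B) ^ (m + 1) := by
          refine mul_le_mul_of_nonneg_right ?_ (by positivity)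
          exact le_self_pow₀ (by norm_num) (by omega)
      _ = _ := by rw [← mul_pow, mul_assoc]
  · obtain ⟨d, hd0, hd, hd'⟩ := h.2 m
    obtain ⟨e, he0, he, he'⟩ := h'.2 m
    refine ⟨d * e, Nat.mul_pos hd0 he0, ?_, fun j hj => ?_⟩
    · push_cast
      calc (d : ℝ) * e ≤ A ^ (m + 1) * B ^ (m + 1) := mul_le_mul hd he (by positivity) (by positivity)
        _ = (A * B) ^ (m + 1) := by rw [mul_pow]
        _ ≤ _ := pow_le_pow_left₀ (by positivity) (by nlinarith) _
    · have h1 : ((d * e : ℕ) : L) * coeff j (f + g) = (e : L) * ((d : L) * coeff j f) + (d : L) * ((e : L) * coeff j g) := by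
        rw [map_add]; push_cast; ring
      rw [h1]
      exact ((isIntegral_natCast e).mul (hd' j hj)).add ((isIntegral_natCast d).mul (he' j hj))

omit [NumberField L] in
lemma GFp.mul {A B : ℝ} {f g : L⟦X⟧} (h : GFp A f) (h' : GFp B g) : GFp (2 * A * B) (f * g) := by
  have hA := h.one_le
  have hB := h'.one_le
  have hA0 : 0 < A := by linarith
  have hB0 : 0 < B := by linarith
  refine ⟨fun φ m => ?_, fun m => ?_⟩
  · rw [coeff_mul, map_sum]
    refine (norm_sum_le _ _).trans ?_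
    refine (Finset.sum_le_card_nsmul _ _ (A ^ (m + 1) * B ^ (m + 1)) fun p hp => ?_).trans ?_
    · rw [Finset.HasAntidiagonal.mem_antidiagonal] at hp
      rw [map_mul, norm_mul]
      refine mul_le_mul ((h.1 φ _).trans (pow_le_pow_right₀ hA (by omega)))
        ((h'.1 φ _).trans (pow_le_pow_right₀ hB (by omega))) (norm_nonneg _) (by positivity)
    · rw [nsmul_eq_mul, Finset.Nat.card_antidiagonal]
      push_cast
      calc ((m : ℝ) + 1) * (A ^ (m + 1) * B ^ (m + 1)) ≤ 2 ^ (m + 1) * (A ^ (m + 1) * B ^ (m + 1)) := by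
            refine mul_le_mul_of_nonneg_right ?_ (by positivity)
            exact (succ_le_two_pow m).trans (pow_le_pow_right₀ (by norm_num) (by omega))
        _ = _ := by rw [← mul_pow, ← mul_pow, mul_assoc]
  · obtain ⟨d, hd0, hd, hd'⟩ := h.2 m
    obtain ⟨e, he0, he, he'⟩ := h'.2 m
    refine ⟨d * e, Nat.mul_pos hd0 he0, ?_, fun j hj => ?_⟩
    · push_cast
      calc (d : ℝ) * e ≤ A ^ (m + 1) * B ^ (m + 1) := mul_le_mul hd he (by positivity) (by positivity)
        _ = (A * B) ^ (m + 1) := by rw [mul_pow]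
        _ ≤ _ := pow_le_pow_left₀ (by positivity) (by nlinarith) _
    · rw [coeff_mul, Finset.mul_sum]
      refine IsIntegral.sum _ fun p hp => ?_
      rw [Finset.HasAntidiagonal.mem_antidiagonal] at hp
      have h1 : ((d * e : ℕ) : L) * (coeff p.1 f * coeff p.2 g) = ((d : L) * coeff p.1 f) * ((e : L) * coeff p.2 g) := by
        push_cast; ring
      rw [h1]
      exact (hd' _ (by omega)).mul (he' _ (by omega))

/-- coefficientwise product -/
noncomputable def Had {R : Type} [Semiring R] (F G : R⟦X⟧) : R⟦X⟧ := PowerSeries.mk fun m => coeff m F * coeff m G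

lemma coeff_Had {R : Type} [Semiring R] (F G : R⟦X⟧) (m : ℕ) : coeff m (Had F G) = coeff m F * coeff m G := by
  simp only [Had, coeff_mk]

omit [NumberField L] in
lemma GFp.had {A B : ℝ} {F G : L⟦X⟧} (h : GFp A F) (h' : GFp B G) : GFp (A * B) (Had F G) := by
  have hA := h.one_le
  have hB := h'.one_le
  refine ⟨fun φ m => ?_, fun m => ?_⟩
  · rw [coeff_Had, map_mul, norm_mul, mul_pow]
    exact mul_le_mul (h.1 φ m) (h'.1 φ m) (norm_nonneg _) (by positivity)
  · obtain ⟨d, hd0, hd, hd'⟩ := h.2 m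
    obtain ⟨e, he0, he, he'⟩ := h'.2 m
    refine ⟨d * e, Nat.mul_pos hd0 he0, ?_, fun j hj => ?_⟩
    · push_cast
      rw [mul_pow]
      exact mul_le_mul hd he (by positivity) (by positivity)
    · have h1 : ((d * e : ℕ) : L) * coeff j (Had F G) = ((d : L) * coeff j F) * ((e : L) * coeff j G) := by
        rw [coeff_Had]; push_cast; ring
      rw [h1]
      exact (hd' j hj).mul (he' j hj)

omit [NumberField L] in
lemma GFn.add {f g : L⟦X⟧} (h : GFn f) (h' : GFn g) : GFn (f + g) := by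
  obtain ⟨A, hA⟩ := h
  obtain ⟨B, hB⟩ := h'
  exact ⟨_, hA.add hB⟩

omit [NumberField L] in
lemma GFn.mul {f g : L⟦X⟧} (h : GFn f) (h' : GFn g) : GFn (f * g) := by
  obtain ⟨A, hA⟩ := h
  obtain ⟨B, hB⟩ := h'
  exact ⟨_, hA.mul hB⟩

omit [NumberField L] in
lemma GFn.had {f g : L⟦X⟧} (h : GFn f) (h' : GFn g) : GFn (Had f g) := by
  obtain ⟨A, hA⟩ := h
  obtain ⟨B, hB⟩ := h'
  exact ⟨_, hA.had hB⟩

/-- a number times a positive integer is integral -/
lemma exists_den (x : L) : ∃ d : ℕ, 0 < d ∧ IsIntegral ℤ ((d : L) * x) := by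
  obtain ⟨y, hy, hy'⟩ := exists_integral_multiples ℤ ℚ ({x} : Finset L)
  have h1 := hy' x (Finset.mem_singleton_self x)
  refine ⟨y.natAbs, Int.natAbs_pos.2 hy, ?_⟩
  have h2 : (y : L) * x = y • x := by simp
  rcases Int.natAbs_eq y with h3 | h3
  · have : ((y.natAbs : ℕ) : L) = (y : L) := by
      conv_rhs => rw [h3]
      simp
    rw [this, h2]
    exact h1
  · have : ((y.natAbs : ℕ) : L) = -(y : L) := by
      conv_rhs => rw [h3]
      simp
    rw [this, neg_mul, h2]
    exact h1.neg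

lemma GFn.const (x : L) : GFn (C x) := by
  obtain ⟨d, hd0, hd⟩ := exists_den x
  obtain ⟨B, hB⟩ : ∃ B : ℝ, ∀ φ : L →+* ℂ, ‖φ x‖ ≤ B :=
    ⟨∑ φ : L →+* ℂ, ‖φ x‖, fun φ => Finset.single_le_sum (f := fun φ : L →+* ℂ => ‖φ x‖) (fun _ _ => norm_nonneg _)
      (Finset.mem_univ φ)⟩
  set A := max B d with hA
  have h1 : (1 : ℝ) ≤ d := by exact_mod_cast hd0
  have hA1 : 1 ≤ A := h1.trans (le_max_right _ _)
  have hA2 : ∀ m : ℕ, A ≤ A ^ (m + 1) := fun m => le_self_pow₀ hA1 (by omega)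
  refine ⟨A, fun φ m => ?_, fun m => ⟨d, hd0, (le_max_right _ _).trans (hA2 m), fun j _ => ?_⟩⟩
  · rw [coeff_C]
    split_ifs
    · exact (hB φ).trans ((le_max_left _ _).trans (hA2 m))
    · rw [map_zero, norm_zero]; positivity
  · rw [coeff_C]
    split_ifs
    · exact hd
    · rw [mul_zero]; exact isIntegral_zero

omit [NumberField L] in
lemma GFn.X : GFn (X : L⟦X⟧) := by
  refine ⟨1, fun φ m => ?_, fun m => ⟨1, one_pos, by simp, fun j _ => ?_⟩⟩
  · rw [coeff_X]
    split_ifs <;> simp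
  · rw [coeff_X]
    split_ifs
    · simpa using isIntegral_one
    · simpa using isIntegral_zero

lemma GFn.zero : GFn (0 : L⟦X⟧) := by simpa using GFn.const (0 : L)

lemma GFn.one : GFn (1 : L⟦X⟧) := by simpa using GFn.const (1 : L)

lemma GFn.neg {f : L⟦X⟧} (h : GFn f) : GFn (-f) := by
  have := (GFn.const (-1 : L)).mul h
  simpa using this

lemma GFn.sub {f g : L⟦X⟧} (h : GFn f) (h' : GFn g) : GFn (f - g) := by
  rw [sub_eq_add_neg]
  exact h.add h'.neg

lemma GFn.sum {ι : Type*} (s : Finset ι) (F : ι → L⟦X⟧) (h : ∀ i ∈ s, GFn (F i)) : GFn (∑ i ∈ s, F i) := by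
  classical
  induction s using Finset.induction_on with
  | empty => rw [Finset.sum_empty]; exact GFn.zero
  | insert a s ha ih =>
    rw [Finset.sum_insert ha]
    exact (h a (Finset.mem_insert_self a s)).add (ih fun i hi => h i (Finset.mem_insert_of_mem hi))

lemma GFn.prod {ι : Type*} (s : Finset ι) (F : ι → L⟦X⟧) (h : ∀ i ∈ s, GFn (F i)) : GFn (∏ i ∈ s, F i) := by
  classical
  induction s using Finset.induction_on with
  | empty => rw [Finset.prod_empty]; exact GFn.one
  | insert a s ha ih =>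
    rw [Finset.prod_insert ha]
    exact (h a (Finset.mem_insert_self a s)).mul (ih fun i hi => h i (Finset.mem_insert_of_mem hi))

omit [NumberField L] in
lemma isIntegral_intCast (d : ℤ) : IsIntegral ℤ (d : L) := by
  have := isIntegral_algebraMap (R := ℤ) (A := L) (x := d)
  simpa using this

/-- G-functions with rational coefficients -/
lemma GFn.of_rat {f : ℚ⟦X⟧} (h : SDc f) : GFn (PowerSeries.map (algebraMap ℚ L) f) := by
  obtain ⟨n, h1, h2⟩ := h
  refine ⟨2 ^ n, fun φ m => ?_, fun m => ?_⟩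
  · have h3 := h1 m
    have h4 : φ (coeff m (PowerSeries.map (algebraMap ℚ L) f)) = ((coeff m f : ℚ) : ℂ) := by
      rw [coeff_map, eq_ratCast, map_ratCast]
    rw [h4]
    have h5 : ‖((coeff m f : ℚ) : ℂ)‖ = |((coeff m f : ℚ) : ℝ)| := by
      have : ((coeff m f : ℚ) : ℂ) = (((coeff m f : ℚ) : ℝ) : ℂ) := by push_cast; rfl
      rw [this, Complex.norm_real, Real.norm_eq_abs]
    rw [h5]
    exact h3
  · obtain ⟨d, hd0, hd, hd'⟩ := h2 m
    refine ⟨d, hd0, hd, fun j hj => ?_⟩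
    obtain ⟨a, ha⟩ := hd' j hj
    have h3 : (d : L) * coeff j (PowerSeries.map (algebraMap ℚ L) f) = (a : L) := by
      rw [coeff_map, eq_ratCast]
      have := congrArg (fun x : ℚ => (x : L)) ha
      push_cast at this
      exact this
    rw [h3]
    exact isIntegral_intCast a

/-- substitution of `b X` -/
lemma GFn.rescale {f : L⟦X⟧} (h : GFn f) (b : L) : GFn (PowerSeries.mk fun m => b ^ m * coeff m f) := by
  obtain ⟨d, hd0, hd⟩ := exists_den b
  obtain ⟨B, hB⟩ : ∃ B : ℝ, ∀ φ : L →+* ℂ, ‖φ b‖ ≤ B :=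
    ⟨∑ φ : L →+* ℂ, ‖φ b‖, fun φ => Finset.single_le_sum (f := fun φ : L →+* ℂ => ‖φ b‖) (fun _ _ => norm_nonneg _)
      (Finset.mem_univ φ)⟩
  obtain ⟨A, h1, h2⟩ := h
  set B' := max (max B d) 1 with hB'
  have hB1 : (1 : ℝ) ≤ B' := le_max_right _ _
  have hA1 : (1 : ℝ) ≤ A := GFp.one_le ⟨h1, h2⟩
  refine ⟨B' * A, fun φ m => ?_, fun m => ?_⟩
  · rw [coeff_mk, map_mul, map_pow, norm_mul, norm_pow, mul_pow]
    refine mul_le_mul ?_ (h1 φ m) (norm_nonneg _) (by positivity)
    calc ‖φ b‖ ^ m ≤ B' ^ m := pow_le_pow_left₀ (norm_nonneg _)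
            ((hB φ).trans ((le_max_left _ _).trans (le_max_left _ _))) _
      _ ≤ B' ^ (m + 1) := pow_le_pow_right₀ hB1 (by omega)
  · obtain ⟨e, he0, he, he'⟩ := h2 m
    refine ⟨d ^ m * e, by positivity, ?_, fun j hj => ?_⟩
    · push_cast
      rw [mul_pow]
      refine mul_le_mul ?_ he (by positivity) (by positivity)
      calc (d : ℝ) ^ m ≤ B' ^ m := pow_le_pow_left₀ (by positivity) ((le_max_right _ _).trans (le_max_left _ _)) _
        _ ≤ B' ^ (m + 1) := pow_le_pow_right₀ hB1 (by omega)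
    · rw [coeff_mk]
      have h3 : ((d ^ m * e : ℕ) : L) * (b ^ j * coeff j f) =
          (d : L) ^ (m - j) * (((d : L) * b) ^ j * ((e : L) * coeff j f)) := by
        push_cast
        have : (d : L) ^ m = (d : L) ^ (m - j) * (d : L) ^ j := by rw [← pow_add]; congr 1; omega
        rw [this, mul_pow]
        ring
      rw [h3]
      exact ((isIntegral_natCast d).pow _).mul ((hd.pow _).mul (he' j hj))

end Pool.Agent.Y921.DB
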