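import Pool.Agent.Y921.DB.Bin

/-!
# The system of the integrals `∫ ∏ (x - a_j)^(μ_j) (x - z)^(μ₀) dx / (x - a_i)`
-/

set_option autoImplicit false

open PowerSeries

namespace Pool.Agent.Y921.DB

open Pool.Agent.Y113

section det

variable {k K : Type} [CommRing k] [CommRing K] [Algebra k K]

theorem der_prod {ι : Type} [DecidableEq ι] (δ : Derivation k K K) (s : Finset ι) (f : ι → K) :
    δ (∏ i ∈ s, f i) = ∑ i ∈ s, δ (f i) * ∏ j ∈ s.erase i, f j := by
  induction s using Finset.induction_on with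
  | empty => simp
  | insert a s ha ih =>
    rw [Finset.prod_insert ha, Derivation.leibniz, ih, Finset.sum_insert ha,
      Finset.erase_insert ha, smul_eq_mul, smul_eq_mul, Finset.mul_sum, add_comm]
    congr 1
    · ring
    · refine Finset.sum_congr rfl fun i hi => ?_
      have hia : i ≠ a := fun h => ha (h ▸ hi)
      rw [Finset.erase_insert_of_ne hia.symm, Finset.prod_insert
        (fun h => ha (Finset.mem_of_mem_erase h))]
      ring

theorem der_det_col {m : ℕ} (δ : Derivation k K K) (A : Matrix (Fin m) (Fin m) K) :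
    δ A.det = ∑ i, (A.updateCol i (fun j => δ (A j i))).det := by
  simp only [Matrix.det_apply']
  rw [map_sum, Finset.sum_comm]
  refine Finset.sum_congr rfl fun σ _ => ?_
  rw [Derivation.leibniz, der_prod, smul_eq_mul, smul_eq_mul, Derivation.map_intCast, mul_zero,
    add_zero, Finset.mul_sum]
  refine Finset.sum_congr rfl fun i _ => ?_
  congr 1
  rw [← Finset.mul_prod_erase Finset.univ _ (Finset.mem_univ i)]
  congr 1
  · rw [Matrix.updateCol_self]
  · refine Finset.prod_congr rfl fun j hj => ?_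
    rw [Matrix.updateCol_ne (Finset.ne_of_mem_erase hj)]

theorem der_det {m : ℕ} (δ : Derivation k K K) (A : Matrix (Fin m) (Fin m) K) :
    δ A.det = ∑ i, (A.updateRow i (fun j => δ (A i j))).det := by
  rw [← Matrix.det_transpose, der_det_col]
  refine Finset.sum_congr rfl fun i _ => ?_
  rw [← Matrix.det_transpose (A.updateRow i _), Matrix.updateCol_transpose]
  rfl

theorem sum_updateRow_mul {m : ℕ} (A B : Matrix (Fin m) (Fin m) K) :
    ∑ i, (A.updateRow i ((A * B) i)).det = B.trace * A.det := by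
  have h1 : ∀ i, (A.updateRow i ((A * B) i)).det = ((A * B) * A.adjugate) i i := by
    intro i
    rw [← Matrix.cramer_transpose_apply, Matrix.cramer_eq_adjugate_mulVec, Matrix.mul_apply,
      Matrix.mulVec, dotProduct]
    refine Finset.sum_congr rfl fun j _ => ?_
    rw [← Matrix.adjugate_transpose, Matrix.transpose_apply]
    ring
  rw [Finset.sum_congr rfl fun i _ => h1 i]
  show Matrix.trace (A * B * A.adjugate) = _
  rw [Matrix.trace_mul_cycle, Matrix.adjugate_mul, Matrix.smul_mul, Matrix.one_mul, Matrix.trace_smul, smul_eq_mul]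
  ring

theorem der_det_of {m : ℕ} (δ : Derivation k K K) (A B : Matrix (Fin m) (Fin m) K)
    (h : ∀ i j, δ (A i j) = (A * B) i j) : δ A.det = B.trace * A.det := by
  rw [der_det, ← sum_updateRow_mul]
  refine Finset.sum_congr rfl fun i _ => ?_
  congr 2
  funext j
  exact h i j

end det

variable {L : Type} [Field L] [NumberField L]

/-- `(1 - z / a)^s` -/
noncomputable def Bn (a : L) (s : ℚ) : L⟦X⟧ := PowerSeries.rescale a⁻¹ (PowerSeries.map (algebraMap ℚ L) (Bs s))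

lemma coeff_Bn (a : L) (s : ℚ) (m : ℕ) : coeff m (Bn a s) = a⁻¹ ^ m * (bc s m : L) := by
  rw [Bn, coeff_rescale, coeff_map, coeff_Bs, eq_ratCast]

lemma GFn_Bn (a : L) (s : ℚ) : GFn (Bn a s) := by
  have h := (GFn.of_rat (L := L) (SDc_Bs s)).rescale a⁻¹
  have e : Bn a s = PowerSeries.mk fun m => a⁻¹ ^ m * coeff m (PowerSeries.map (algebraMap ℚ L) (Bs s)) := by
    ext m
    rw [Bn, coeff_rescale, coeff_mk]
  rw [e]
  exact h

lemma Bn_mul (a : L) (s t : ℚ) : Bn a s * Bn a t = Bn a (s + t) := by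
  rw [Bn, Bn, ← map_mul, ← map_mul, Bs_mul]
  rfl

lemma Bn_zero (a : L) : Bn a 0 = 1 := by
  rw [Bn, Bs_zero, map_one, map_one]

lemma Bn_one (a : L) : Bn a 1 = 1 - C a⁻¹ * X := by
  rw [Bn, Bs_one, map_sub, map_one, map_sub, map_one, PowerSeries.map_X, rescale_X]

lemma Bn_coeff_zero (a : L) (s : ℚ) : constantCoeff (Bn a s) = 1 := by
  rw [← coeff_zero_eq_constantCoeff_apply, coeff_Bn]
  simp [bc]

lemma coeff_X_der {R : Type} [CommRing R] (f : R⟦X⟧) (m : ℕ) : coeff m (X * d⁄dX R f) = m * coeff m f := by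
  rcases m with _ | m
  · simp
  · rw [coeff_succ_X_mul, coeff_derivative]
    push_cast
    ring

/-- the differential equation of the binomial series -/
lemma Bn_ode {a : L} (ha : a ≠ 0) (s : ℚ) : (X - C a) * d⁄dX L (Bn a s) = C (s : L) * Bn a s := by
  ext m
  rw [sub_mul, map_sub, coeff_X_der, coeff_C_mul, coeff_C_mul, coeff_derivative, coeff_Bn, coeff_Bn]
  have h1 : ((bc s (m + 1) : ℚ) : L) * ((m : L) + 1) = (bc s m : L) * ((m : L) - (s : L)) := by
    have := congrArg (fun x : ℚ => (x : L)) (bc_rec s m)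
    push_cast at this
    exact this
  have h2 : a * (a⁻¹ ^ (m + 1) * ((bc s (m + 1) : ℚ) : L) * ((m : L) + 1)) =
      a⁻¹ ^ m * ((bc s m : L) * ((m : L) - (s : L))) := by
    rw [← h1, pow_succ]
    field_simp
  rw [h2]
  ring

variable {n : ℕ} (a : Fin n → L) (μ : Fin n → ℚ) (μ0 : ℚ)

/-- the product of the binomial series -/
noncomputable def Bp (μ : Fin n → ℚ) : L⟦X⟧ := ∏ j, Bn (a j) (μ j)

lemma Bp_mul_neg : Bp a μ * Bp a (fun j => - μ j) = 1 := by
  unfold Bp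
  rw [← Finset.prod_mul_distrib]
  refine Finset.prod_eq_one fun j _ => ?_
  rw [Bn_mul, add_neg_cancel, Bn_zero]

lemma GFn_Bp : GFn (Bp a μ) := GFn.prod _ _ fun j _ => GFn_Bn _ _

/-- the denominators -/
noncomputable def fp : Polynomial L := ∏ j, (Polynomial.X - Polynomial.C (a j))

/-- the other factors -/
noncomputable def fe (j : Fin n) : Polynomial L := ∏ i ∈ Finset.univ.erase j, (Polynomial.X - Polynomial.C (a i))

lemma fp_eq (j : Fin n) : fp a = (Polynomial.X - Polynomial.C (a j)) * fe a j := by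
  unfold fp fe
  rw [Finset.mul_prod_erase Finset.univ (fun i => (Polynomial.X - Polynomial.C (a i))) (Finset.mem_univ j)]

lemma coe_XC (x : L) : ((Polynomial.X - Polynomial.C x : Polynomial L) : L⟦X⟧) = X - C x := by
  rw [Polynomial.coe_sub, Polynomial.coe_X, Polynomial.coe_C]

lemma Bp_ode (ha : ∀ j, a j ≠ 0) :
    (fp a : L⟦X⟧) * d⁄dX L (Bp a μ) = (∑ j, C (μ j : L) * (fe a j : L⟦X⟧)) * Bp a μ := by
  unfold Bp
  rw [der_prod, Finset.mul_sum, Finset.sum_mul]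
  refine Finset.sum_congr rfl fun j _ => ?_
  rw [fp_eq a j, Polynomial.coe_mul, coe_XC]
  have h1 := Bn_ode (ha j) (μ j)
  calc _ = ((X - C (a j)) * d⁄dX L (Bn (a j) (μ j))) * ((fe a j : L⟦X⟧) * ∏ i ∈ Finset.univ.erase j, Bn (a i) (μ i)) := by
        ring
    _ = C (μ j : L) * (fe a j : L⟦X⟧) * (Bn (a j) (μ j) * ∏ i ∈ Finset.univ.erase j, Bn (a i) (μ i)) := by
        rw [h1]; ring
    _ = _ := by
        rw [Finset.mul_prod_erase Finset.univ (fun i => Bn (a i) (μ i)) (Finset.mem_univ j)]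

/-- `1 / (1 - z / a)` -/
noncomputable def ge (x : L) : L⟦X⟧ := Bn x (-1)

omit [NumberField L] in
lemma dummy_ge : True := trivial

lemma ge_mul (x : L) : (1 - C x⁻¹ * X) * ge x = 1 := by
  rw [← Bn_one, ge, Bn_mul]
  norm_num
  exact Bn_zero x

/-- the auxiliary series -/
noncomputable def hk (k : Fin n) : L⟦X⟧ := Bp a (fun j => - μ j) * (C (μ k : L) * ge (a k))

noncomputable def Ek (k : Fin n) : L⟦X⟧ := Had (hk a μ k) (PowerSeries.map (algebraMap ℚ L) (Ls μ0))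

noncomputable def et (k : Fin n) : L⟦X⟧ := Bp a μ * Ek a μ μ0 k

noncomputable def Rk (k j : Fin n) : L⟦X⟧ :=
  (C (if k = j then 1 else 0) - C (a j)⁻¹ * X * et a μ μ0 k) * ge (a j)

/-- the fundamental matrix -/
noncomputable def Zk (k j : Fin n) : L⟦X⟧ := Had (PowerSeries.map (algebraMap ℚ L) (Bs μ0)) (Rk a μ μ0 k j)

lemma Ek_eq (h0 : ∀ m : ℕ, (m : ℚ) ≠ μ0) (k : Fin n) :
    X * d⁄dX L (Ek a μ μ0 k) - C (μ0 : L) * Ek a μ μ0 k = hk a μ k := by
  ext m
  rw [map_sub, coeff_X_der, coeff_C_mul, Ek, coeff_Had, coeff_map, Ls, coeff_mk, eq_ratCast]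
  have h1 : ((m : L) - (μ0 : L)) ≠ 0 := by
    have h2 : (m : ℚ) - μ0 ≠ 0 := sub_ne_zero.2 (h0 m)
    have h3 : (((m : ℚ) - μ0 : ℚ) : L) ≠ 0 := by exact_mod_cast h2
    push_cast at h3
    exact h3
  push_cast
  field_simp

/-- the logarithmic derivative of `∏ (1 - z / a_j)^(μ_j)` -/
lemma Bp_th (ha : ∀ j, a j ≠ 0) :
    X * d⁄dX L (Bp a μ) = -((∑ j, C (μ j : L) * (C (a j)⁻¹ * X * ge (a j))) * Bp a μ) := by
  unfold Bp
  rw [der_prod, Finset.mul_sum, Finset.sum_mul, ← Finset.sum_neg_distrib]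
  refine Finset.sum_congr rfl fun j _ => ?_
  have h1 := Bn_ode (ha j) (μ j)
  have h2 : d⁄dX L (Bn (a j) (μ j)) = -(C (μ j : L) * C (a j)⁻¹ * ge (a j) * Bn (a j) (μ j)) := by
    have h3 : C (a j)⁻¹ * ge (a j) * ((X - C (a j)) * d⁄dX L (Bn (a j) (μ j))) = - d⁄dX L (Bn (a j) (μ j)) := by
      have h4 := ge_mul (a j)
      have h5 : C (a j)⁻¹ * C (a j) = (1 : L⟦X⟧) := by rw [← map_mul, inv_mul_cancel₀ (ha j), map_one]
      calc _ = (C (a j)⁻¹ * X - C (a j)⁻¹ * C (a j)) * ge (a j) * d⁄dX L (Bn (a j) (μ j)) := by ring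
        _ = -((1 - C (a j)⁻¹ * X) * ge (a j)) * d⁄dX L (Bn (a j) (μ j)) := by rw [h5]; ring
        _ = _ := by rw [h4]; ring
    rw [h1] at h3
    rw [← neg_eq_iff_eq_neg, ← h3]
    ring
  rw [h2, ← Finset.mul_prod_erase Finset.univ (fun i => Bn (a i) (μ i)) (Finset.mem_univ j)]
  ring

lemma et_eq (ha : ∀ j, a j ≠ 0) (h0 : ∀ m : ℕ, (m : ℚ) ≠ μ0) (k : Fin n) :
    X * d⁄dX L (et a μ μ0 k) - C (μ0 : L) * et a μ μ0 k = ∑ j, C (μ j : L) * Rk a μ μ0 k j := by
  unfold et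
  rw [Derivation.leibniz, smul_eq_mul, smul_eq_mul]
  have h1 := Ek_eq a μ μ0 h0 k
  have h2 := Bp_th a μ ha
  have h3 : X * (Bp a μ * d⁄dX L (Ek a μ μ0 k) + Ek a μ μ0 k * d⁄dX L (Bp a μ)) - C (μ0 : L) * (Bp a μ * Ek a μ μ0 k) =
      Bp a μ * (X * d⁄dX L (Ek a μ μ0 k) - C (μ0 : L) * Ek a μ μ0 k) + Ek a μ μ0 k * (X * d⁄dX L (Bp a μ)) := by ring
  rw [h3, h1, h2, hk]
  have h4 := Bp_mul_neg a μ
  have h5 : Bp a μ * (Bp a (fun j => - μ j) * (C (μ k : L) * ge (a k))) = C (μ k : L) * ge (a k) := by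
    rw [← mul_assoc, h4, one_mul]
  rw [h5]
  have h6 : ∀ j, C (μ j : L) * Rk a μ μ0 k j = (if k = j then C (μ j : L) * ge (a j) else 0) -
      C (μ j : L) * (C (a j)⁻¹ * X * ge (a j)) * (Bp a μ * Ek a μ μ0 k) := by
    intro j
    unfold Rk et
    split_ifs
    · rw [map_one]; ring
    · rw [map_zero]; ring
  rw [Finset.sum_congr rfl fun j _ => h6 j, Finset.sum_sub_distrib, Finset.sum_ite_eq, if_pos (Finset.mem_univ k),
    ← Finset.sum_mul]
  ring

lemma Rk_rec (ha : ∀ j, a j ≠ 0) (k j : Fin n) (m : ℕ) :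
    a j * coeff (m + 1) (Rk a μ μ0 k j) = coeff m (Rk a μ μ0 k j) - coeff m (et a μ μ0 k) := by
  have h1 : (1 - C (a j)⁻¹ * X) * Rk a μ μ0 k j = C (if k = j then 1 else 0) - C (a j)⁻¹ * X * et a μ μ0 k := by
    unfold Rk
    rw [mul_left_comm, ge_mul, mul_one]
  have h2 := congrArg (coeff (m + 1)) h1
  rw [sub_mul, one_mul, mul_assoc, mul_assoc, map_sub, map_sub, coeff_C_mul, coeff_C_mul, coeff_succ_X_mul,
    coeff_succ_X_mul, coeff_C, if_neg (by omega)] at h2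
  have h3 : coeff (m + 1) (Rk a μ μ0 k j) = (a j)⁻¹ * (coeff m (Rk a μ μ0 k j) - coeff m (et a μ μ0 k)) := by
    linear_combination h2
  rw [h3, ← mul_assoc, mul_inv_cancel₀ (ha j), one_mul]

lemma Rk_zero (k j : Fin n) : constantCoeff (Rk a μ μ0 k j) = if k = j then 1 else 0 := by
  unfold Rk ge
  rw [map_mul, Bn_coeff_zero]
  split_ifs <;> simp

lemma coeff_Zk (k j : Fin n) (m : ℕ) : coeff m (Zk a μ μ0 k j) = (bc μ0 m : L) * coeff m (Rk a μ μ0 k j) := by
  rw [Zk, coeff_Had, coeff_map, coeff_Bs, eq_ratCast]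

lemma Zk_zero (k j : Fin n) : constantCoeff (Zk a μ μ0 k j) = if k = j then 1 else 0 := by
  rw [← coeff_zero_eq_constantCoeff_apply, coeff_Zk, coeff_zero_eq_constantCoeff_apply, Rk_zero]
  simp [bc]

/-- **The recursion of the fundamental matrix.** -/
lemma Zk_rec (ha : ∀ j, a j ≠ 0) (h0 : ∀ m : ℕ, (m : ℚ) ≠ μ0) (k j : Fin n) (m : ℕ) :
    a j * ((m : L) + 1) * coeff (m + 1) (Zk a μ μ0 k j) = ((m : L) - μ0) * coeff m (Zk a μ μ0 k j) -
      ∑ l, (μ l : L) * coeff m (Zk a μ μ0 k l) := by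
  have h1 : ((bc μ0 (m + 1) : ℚ) : L) * ((m : L) + 1) = (bc μ0 m : L) * ((m : L) - (μ0 : L)) := by
    have := congrArg (fun x : ℚ => (x : L)) (bc_rec μ0 m)
    push_cast at this
    exact this
  have h2 := congrArg (coeff m) (et_eq a μ μ0 ha h0 k)
  rw [map_sub, coeff_X_der, coeff_C_mul, map_sum] at h2
  have h3 : ∑ l, (μ l : L) * coeff m (Zk a μ μ0 k l) = (bc μ0 m : L) * (((m : L) - μ0) * coeff m (et a μ μ0 k)) := by
    have h4 : ((m : L) - μ0) * coeff m (et a μ μ0 k) = ∑ l, coeff m (C (μ l : L) * Rk a μ μ0 k l) := by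
      rw [← h2]; ring
    rw [h4, Finset.mul_sum]
    refine Finset.sum_congr rfl fun l _ => ?_
    rw [coeff_Zk, coeff_C_mul]
    ring
  rw [h3, coeff_Zk, coeff_Zk]
  calc a j * ((m : L) + 1) * (((bc μ0 (m + 1) : ℚ) : L) * coeff (m + 1) (Rk a μ μ0 k j)) =
      (((bc μ0 (m + 1) : ℚ) : L) * ((m : L) + 1)) * (a j * coeff (m + 1) (Rk a μ μ0 k j)) := by ring
    _ = _ := by rw [h1, Rk_rec a μ μ0 ha]; ring

/-- the matrix of the system -/
noncomputable def Ak (l j : Fin n) : Polynomial L :=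
  Polynomial.C ((μ l : L) + if l = j then (μ0 : L) else 0) * fe a j

/-- **The system.** -/
theorem Zk_sys (ha : ∀ j, a j ≠ 0) (h0 : ∀ m : ℕ, (m : ℚ) ≠ μ0) (k j : Fin n) :
    (fp a : L⟦X⟧) * d⁄dX L (Zk a μ μ0 k j) = ∑ l, Zk a μ μ0 k l * (Ak a μ μ0 l j : L⟦X⟧) := by
  have h1 : (X - C (a j)) * d⁄dX L (Zk a μ μ0 k j) = ∑ l, Zk a μ μ0 k l * C ((μ l : L) + if l = j then (μ0 : L) else 0) := by
    ext m
    rw [sub_mul, map_sub, coeff_X_der, coeff_C_mul, coeff_derivative, map_sum]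
    have h2 := Zk_rec a μ μ0 ha h0 k j m
    have h3 : ∑ l, coeff m (Zk a μ μ0 k l * C ((μ l : L) + if l = j then (μ0 : L) else 0)) =
        (∑ l, (μ l : L) * coeff m (Zk a μ μ0 k l)) + μ0 * coeff m (Zk a μ μ0 k j) := by
      have h4 : ∀ l, coeff m (Zk a μ μ0 k l * C ((μ l : L) + if l = j then (μ0 : L) else 0)) =
          (μ l : L) * coeff m (Zk a μ μ0 k l) + if l = j then μ0 * coeff m (Zk a μ μ0 k l) else 0 := by
        intro l
        rw [coeff_mul_C]
        split_ifs <;> ring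
      rw [Finset.sum_congr rfl fun l _ => h4 l, Finset.sum_add_distrib, Finset.sum_ite_eq', if_pos (Finset.mem_univ j)]
    rw [h3]
    linear_combination -h2
  rw [fp_eq a j, Polynomial.coe_mul, coe_XC]
  calc _ = (fe a j : L⟦X⟧) * ((X - C (a j)) * d⁄dX L (Zk a μ μ0 k j)) := by ring
    _ = _ := by
      rw [h1, Finset.mul_sum]
      refine Finset.sum_congr rfl fun l _ => ?_
      rw [Ak, Polynomial.coe_mul, Polynomial.coe_C]
      ring

/-- the determinant -/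
theorem det_Zk (ha : ∀ j, a j ≠ 0) (h0 : ∀ m : ℕ, (m : ℚ) ≠ μ0) :
    Bp a (fun j => -(μ j + μ0)) * (Matrix.of (Zk a μ μ0)).det = 1 := by
  set Z : Matrix (Fin n) (Fin n) L⟦X⟧ := Matrix.of (Zk a μ μ0) with hZ
  set A : Matrix (Fin n) (Fin n) L⟦X⟧ := Matrix.of fun l j => (Ak a μ μ0 l j : L⟦X⟧) with hA
  set δ : Derivation L L⟦X⟧ L⟦X⟧ := (fp a : L⟦X⟧) • PowerSeries.derivative L with hδ
  have hd : ∀ f : L⟦X⟧, δ f = (fp a : L⟦X⟧) * d⁄dX L f := fun f => rfl
  have h1 : δ Z.det = A.trace * Z.det := der_det_of δ Z A fun i j => by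
    rw [hd, Matrix.mul_apply]
    exact Zk_sys a μ μ0 ha h0 i j
  have htr : A.trace = ∑ j, C ((μ j + μ0 : ℚ) : L) * (fe a j : L⟦X⟧) := by
    unfold Matrix.trace
    refine Finset.sum_congr rfl fun j _ => ?_
    simp only [Matrix.diag_apply, hA, Matrix.of_apply, Ak, if_true, Polynomial.coe_mul, Polynomial.coe_C]
    push_cast
    rfl
  have h2 : δ (Bp a (fun j => -(μ j + μ0))) = -(A.trace * Bp a (fun j => -(μ j + μ0))) := by
    rw [hd, Bp_ode a _ ha, htr, ← neg_mul, ← Finset.sum_neg_distrib]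
    congr 1
    refine Finset.sum_congr rfl fun j _ => ?_
    push_cast
    rw [map_neg]
    ring
  set Q := Bp a (fun j => -(μ j + μ0)) * Z.det with hQ
  have h3 : δ Q = 0 := by
    rw [hQ, Derivation.leibniz, h1, h2, smul_eq_mul, smul_eq_mul]
    ring
  have hfp : (fp a : L⟦X⟧) ≠ 0 := by
    rw [Ne, Polynomial.coe_eq_zero_iff]
    exact (Polynomial.monic_prod_of_monic _ _ fun j _ => Polynomial.monic_X_sub_C _).ne_zero
  have h4 : d⁄dX L Q = 0 := by
    rw [hd] at h3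
    exact (mul_eq_zero.1 h3).resolve_left hfp
  have h5 : constantCoeff Q = 1 := by
    rw [hQ, map_mul]
    have e1 : constantCoeff (Bp a (fun j => -(μ j + μ0))) = (1 : L) := by
      unfold Bp
      rw [map_prod]
      exact Finset.prod_eq_one fun j _ => Bn_coeff_zero _ _
    have e2 : constantCoeff Z.det = (1 : L) := by
      rw [RingHom.map_det]
      have : (constantCoeff (R := L)).mapMatrix Z = 1 := by
        ext i j
        rw [RingHom.mapMatrix_apply, Matrix.map_apply, hZ, Matrix.of_apply, Zk_zero, Matrix.one_apply]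
      rw [this, Matrix.det_one]
    rw [e1, e2, one_mul]
  ext m
  rcases m with _ | m
  · rw [coeff_zero_eq_constantCoeff_apply, h5]; simp
  · have h6 := congrArg (coeff m) h4
    rw [coeff_derivative, map_zero] at h6
    have h7 : ((m : L) + 1) ≠ 0 := by
      exact_mod_cast Nat.succ_ne_zero m
    rw [(mul_eq_zero.1 h6).resolve_right h7, coeff_one, if_neg (by omega)]

/-- the inverse -/
noncomputable def Wk (i j : Fin n) : L⟦X⟧ := Bp a (fun j => -(μ j + μ0)) * (Matrix.of (Zk a μ μ0)).adjugate i j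

theorem Wk_inv (ha : ∀ j, a j ≠ 0) (h0 : ∀ m : ℕ, (m : ℚ) ≠ μ0) (i j : Fin n) :
    ∑ k, Wk a μ μ0 i k * Zk a μ μ0 k j = if i = j then 1 else 0 := by
  have h1 := congrArg (fun M : Matrix (Fin n) (Fin n) L⟦X⟧ => M i j) (Matrix.adjugate_mul (Matrix.of (Zk a μ μ0)))
  simp only [Matrix.mul_apply, Matrix.smul_apply, smul_eq_mul, Matrix.one_apply, Matrix.of_apply] at h1
  unfold Wk
  rw [Finset.sum_congr rfl fun k _ => mul_assoc _ _ _, ← Finset.mul_sum, h1]
  split_ifs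
  · rw [mul_one, det_Zk a μ μ0 ha h0]
  · rw [mul_zero, mul_zero]

lemma GFn_ge (x : L) : GFn (ge x) := GFn_Bn _ _

lemma GFn_Rk (h0 : ∀ m : ℕ, (m : ℚ) ≠ μ0) (k j : Fin n) : GFn (Rk a μ μ0 k j) := by
  unfold Rk et Ek hk
  refine ((GFn.const _).sub (((GFn.const _).mul GFn.X).mul ((GFn_Bp _ _).mul ?_))).mul (GFn_ge _)
  exact ((GFn_Bp _ _).mul ((GFn.const _).mul (GFn_ge _))).had (GFn.of_rat (SDc_Ls μ0 h0))

theorem GFn_Zk (h0 : ∀ m : ℕ, (m : ℚ) ≠ μ0) (k j : Fin n) : GFn (Zk a μ μ0 k j) :=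
  (GFn.of_rat (SDc_Bs μ0)).had (GFn_Rk a μ μ0 h0 k j)

theorem GFn_det {m : ℕ} (M : Matrix (Fin m) (Fin m) L⟦X⟧) (h : ∀ i j, GFn (M i j)) : GFn M.det := by
  rw [Matrix.det_apply']
  refine GFn.sum _ _ fun σ _ => ?_
  refine GFn.mul ?_ (GFn.prod _ _ fun i _ => h _ _)
  have : (((Equiv.Perm.sign σ : ℤˣ) : ℤ) : L⟦X⟧) = C ((((Equiv.Perm.sign σ : ℤˣ) : ℤ)) : L) := by
    rw [map_intCast]
  rw [this]
  exact GFn.const _

theorem GFn_Wk (h0 : ∀ m : ℕ, (m : ℚ) ≠ μ0) (i j : Fin n) : GFn (Wk a μ μ0 i j) := by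
  unfold Wk
  refine (GFn_Bp _ _).mul ?_
  rw [Matrix.adjugate_apply]
  refine GFn_det _ fun i' j' => ?_
  rw [Matrix.updateRow_apply]
  split_ifs
  · rw [Pi.single_apply]
    split_ifs
    · exact GFn.one
    · exact GFn.zero
  · exact GFn_Zk a μ μ0 h0 _ _

end Pool.Agent.Y921.DB
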