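import Pool.Agent.Y113.GG.Basis

/-!
# Specialisation of the kernel of a matrix over a domain
-/

set_option autoImplicit false

namespace Pool.Agent.Y921.DB

open Pool.Agent.Y113.GG

/-- a right inverse up to a nonzero factor -/
lemma exists_right {A ι κ : Type} [CommRing A] [IsDomain A] [Fintype ι] [Fintype κ] [DecidableEq ι] [DecidableEq κ]
    (y : ι → κ → A) (h : LinearIndependent A y) :
    ∃ (Δ : A) (C : κ → ι → A), Δ ≠ 0 ∧ ∀ i i', ∑ j, y i j * C j i' = if i = i' then Δ else 0 := by
  let φ : (κ → A) →ₗ[A] (κ → FractionRing A) := (Algebra.linearMap A (FractionRing A)).compLeft κ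
  have hφ : Function.Injective φ := by
    intro a b hab
    funext j
    exact IsFractionRing.injective A (FractionRing A) (congrFun hab j)
  have h1 : LinearIndependent A (φ ∘ y) := h.map' φ (LinearMap.ker_eq_bot.2 hφ)
  have h2 : LinearIndependent (FractionRing A) (φ ∘ y) := (LinearIndependent.iff_fractionRing A (FractionRing A)).1 h1
  let T : (ι → FractionRing A) →ₗ[FractionRing A] (κ → FractionRing A) := Fintype.linearCombination (FractionRing A) (φ ∘ y)
  have hT : LinearMap.ker T = ⊥ :=
    LinearMap.ker_eq_bot.2 (LinearIndependent.fintypeLinearCombination_injective h2)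
  obtain ⟨g, hg⟩ := T.exists_leftInverse_of_injective hT
  obtain ⟨b, hb⟩ := IsLocalization.exist_integer_multiples_of_finite (nonZeroDivisors A)
    (fun p : κ × ι => g (Pi.single p.1 1) p.2)
  choose c hc using hb
  refine ⟨b, fun j i => c (j, i), nonZeroDivisors.ne_zero b.2, fun i i' => ?_⟩
  apply IsFractionRing.injective A (FractionRing A)
  rw [map_sum]
  have h3 : ∀ j, algebraMap A (FractionRing A) (y i j * c (j, i')) =
      algebraMap A (FractionRing A) b * (algebraMap A (FractionRing A) (y i j) * g (Pi.single j 1) i') := by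
    intro j
    rw [map_mul, hc (j, i')]
    simp only [Algebra.smul_def]
    ring
  rw [Finset.sum_congr rfl fun j _ => h3 j, ← Finset.mul_sum]
  have h4 : ∑ j, algebraMap A (FractionRing A) (y i j) * g (Pi.single j 1) i' = g (φ (y i)) i' := by
    have e1 : φ (y i) = ∑ j, (algebraMap A (FractionRing A) (y i j)) • (Pi.single j (1 : FractionRing A) : κ → FractionRing A) := by
      funext j
      rw [Finset.sum_apply, Finset.sum_eq_single j]
      · simp [φ]
      · intro j' _ hj'
        simp [Pi.single_eq_of_ne hj'.symm]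
      · intro hh; exact absurd (Finset.mem_univ _) hh
    rw [e1, map_sum, Finset.sum_apply]
    refine Finset.sum_congr rfl fun j _ => ?_
    rw [map_smul]
    rfl
  have h5 : φ (y i) = T (Pi.single i 1) := by
    simp [T, Fintype.linearCombination_apply_single]
  have h6 : g (T (Pi.single i 1)) = Pi.single i 1 := by
    have := congrArg (fun L => L (Pi.single i (1 : FractionRing A))) hg
    simpa using this
  rw [h4, h5, h6]
  by_cases hi : i = i'
  · subst hi
    simp
  · simp [hi]

/-- **Specialisation of kernels.** Outside the zeros of some `Δ ≠ 0` the kernel of the specialised matrix is the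
specialisation of the kernel. -/
theorem ker_spec {A H J : Type} [CommRing A] [IsDomain A] [Fintype H] [Fintype J] (R : H → J → A) :
    ∃ Δ : A, Δ ≠ 0 ∧ ∀ (K : Type) [Field K] (i : K →+* A) (φ : A →+* K), φ.comp i = RingHom.id K → φ Δ ≠ 0 →
      ∀ f : H → K, (∀ j, ∑ h, f h * φ (R h j) = 0) →
        ∃ g : H → A, (∀ j, ∑ h, g h * R h j = 0) ∧ ∀ h, φ (g h) = f h := by
  classical
  set y : Option H → Option J → A := fun h => h.elim (Pi.single none 1) fun h j => j.elim 0 (R h) with hy
  obtain ⟨s, hs0, hli, D, N, hD, hN⟩ := exists_basis (R := A) y none (by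
    intro a ha
    have := congrFun ha none
    simpa [hy] using this)
  obtain ⟨Δ₁, C, hΔ₁, hC⟩ := exists_right (fun k : s => y k) hli
  refine ⟨D * Δ₁, mul_ne_zero hD hΔ₁, fun K _ i φ hφ hΔ f hf => ?_⟩
  rw [map_mul] at hΔ
  have hφD : φ D ≠ 0 := left_ne_zero_of_mul hΔ
  have hφΔ : φ Δ₁ ≠ 0 := right_ne_zero_of_mul hΔ
  have hid : ∀ x, φ (i x) = x := fun x => by
    have := congrArg (fun L => L x) hφ
    simpa using this
  have hN' : ∀ h j, D * y h j = ∑ k : s, N h k * y k j := by
    intro h j
    have := congrFun (hN h) j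
    simpa [Finset.sum_apply] using this
  set a : s → K := fun k => ∑ h, f h * φ (N (some h) k) with ha
  have ha0 : ∀ j, ∑ k : s, a k * φ (y k j) = 0 := by
    intro j
    have e1 : ∑ k : s, a k * φ (y k j) = φ D * ∑ h, f h * φ (y (some h) j) := by
      rw [Finset.mul_sum]
      simp only [ha, Finset.sum_mul]
      rw [Finset.sum_comm]
      refine Finset.sum_congr rfl fun h _ => ?_
      have e2 := congrArg φ (hN' (some h) j)
      rw [map_mul, map_sum] at e2
      calc ∑ k : s, f h * φ (N (some h) k) * φ (y k j) = f h * ∑ k : s, φ (N (some h) k * y k j) := by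
            rw [Finset.mul_sum]
            refine Finset.sum_congr rfl fun k _ => ?_
            rw [map_mul, mul_assoc]
        _ = φ D * (f h * φ (y (some h) j)) := by rw [← e2]; ring
    rw [e1]
    rcases j with _ | j
    · have : ∀ h, y (some h) none = 0 := fun h => rfl
      simp [this]
    · have : ∀ h, y (some h) (some j) = R h j := fun h => rfl
      simp only [this]
      rw [hf j, mul_zero]
  have hak : ∀ k, a k = 0 := by
    intro k'
    have e1 : ∑ j, (∑ k : s, a k * φ (y k j)) * φ (C j k') = 0 :=
      Finset.sum_eq_zero fun j _ => by rw [ha0 j, zero_mul]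
    have e2 : ∑ j, (∑ k : s, a k * φ (y k j)) * φ (C j k') = a k' * φ Δ₁ := by
      have e3 : ∀ j, (∑ k : s, a k * φ (y k j)) * φ (C j k') = ∑ k : s, a k * φ (y k j * C j k') := by
        intro j
        rw [Finset.sum_mul]
        refine Finset.sum_congr rfl fun k _ => ?_
        rw [map_mul, mul_assoc]
      rw [Finset.sum_congr rfl fun j _ => e3 j, Finset.sum_comm]
      have e4 : ∀ k : s, ∑ j, a k * φ (y k j * C j k') = if k = k' then a k * φ Δ₁ else 0 := by
        intro k
        rw [← Finset.mul_sum, ← map_sum, hC k k']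
        split_ifs <;> simp
      rw [Finset.sum_congr rfl fun k _ => e4 k, Finset.sum_ite_eq']
      simp
    rw [e1] at e2
    exact (mul_eq_zero.1 e2.symm).resolve_right hφΔ
  refine ⟨fun h => i (φ D)⁻¹ * (D * i (f h) - if hh : some h ∈ s then ∑ h', i (f h') * N (some h') ⟨some h, hh⟩ else 0),
    fun j => ?_, fun h => ?_⟩
  · have e1 : ∀ h, i (φ D)⁻¹ * (D * i (f h) - if hh : some h ∈ s then ∑ h', i (f h') * N (some h') ⟨some h, hh⟩ else 0) *
        R h j = i (φ D)⁻¹ * (i (f h) * (D * y (some h) (some j)) -
          (if hh : some h ∈ s then ∑ h', i (f h') * N (some h') ⟨some h, hh⟩ else 0) * y (some h) (some j)) := by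
      intro h
      have : y (some h) (some j) = R h j := rfl
      rw [this]
      ring
    rw [Finset.sum_congr rfl fun h _ => e1 h, ← Finset.mul_sum, Finset.sum_sub_distrib]
    have e2 : ∑ h, i (f h) * (D * y (some h) (some j)) =
        ∑ k : s, (∑ h, i (f h) * N (some h) k) * y k (some j) := by
      have : ∀ h, i (f h) * (D * y (some h) (some j)) = ∑ k : s, i (f h) * N (some h) k * y k (some j) := by
        intro h
        rw [hN', Finset.mul_sum]
        exact Finset.sum_congr rfl fun k _ => by ring
      rw [Finset.sum_congr rfl fun h _ => this h, Finset.sum_comm]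
      exact Finset.sum_congr rfl fun k _ => (Finset.sum_mul _ _ _).symm
    have e3 : ∑ k : s, (∑ h, i (f h) * N (some h) k) * y k (some j) =
        ∑ h, (if hh : some h ∈ s then ∑ h', i (f h') * N (some h') ⟨some h, hh⟩ else 0) * y (some h) (some j) := by
      set ψ : Option H → A := fun k => (if hh : k ∈ s then ∑ h', i (f h') * N (some h') ⟨k, hh⟩ else 0) * y k (some j) with hψ
      have h7 : ∑ k : s, (∑ h, i (f h) * N (some h) k) * y k (some j) = ∑ k ∈ s, ψ k := by
        rw [← Finset.sum_coe_sort s ψ]
        refine Finset.sum_congr rfl fun k _ => ?_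
        simp only [hψ, k.2, dif_pos]
      have h8 : ∑ k ∈ s, ψ k = ∑ k, ψ k := by
        refine Finset.sum_subset (Finset.subset_univ _) fun k _ hk => ?_
        simp only [hψ, dif_neg hk, zero_mul]
      rw [h7, h8, Fintype.sum_option]
      have h9 : ψ none = 0 := by
        have : y none (some j) = 0 := by simp [hy]
        simp only [hψ, this, mul_zero]
      rw [h9, zero_add]
    rw [e2, e3, sub_self, mul_zero]
  · rw [map_mul, map_sub, map_mul, hid, hid]
    have e1 : φ (if hh : some h ∈ s then ∑ h', i (f h') * N (some h') ⟨some h, hh⟩ else 0) = 0 := by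
      split_ifs with hh
      · have := hak ⟨some h, hh⟩
        rw [map_sum]
        rw [ha] at this
        refine Eq.trans (Finset.sum_congr rfl fun h' _ => ?_) this
        rw [map_mul, hid]
      · exact map_zero _
    rw [e1, sub_zero, ← mul_assoc, inv_mul_cancel₀ hφD, one_mul]

end Pool.Agent.Y921.DB
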