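import Pool.Agent.Y921.DB.Spec
import Mathlib.Algebra.MvPolynomial.SchwartzZippel

/-!
# Relations over a number field are specialisations of functional relations: counting and windows
-/

set_option autoImplicit false

open PowerSeries

namespace Pool.Agent.Y921.DB

open Pool.Agent.Y113 Pool.Agent.Y113.GG Pool.Agent.Y37.GF Pool.Agent.Y118.HG

open Classical in
/-- zeros of a polynomial at the points `1 / m` -/
lemma zeros_le {K : Type} [Field K] [CharZero K] {k : ℕ} {Δ : MvPolynomial (Fin k) K} (h : Δ ≠ 0) (S : Finset ℕ)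
    (hS : ∀ m ∈ S, 1 ≤ m) :
    ((Fintype.piFinset fun _ : Fin k => S).filter fun m => MvPolynomial.eval (fun l => 1 / (m l : K)) Δ = 0).card *
      S.card ≤ Δ.totalDegree * S.card ^ k := by
  rcases S.eq_empty_or_nonempty with rfl | hne
  · simp
  set φ : ℕ → K := fun m => 1 / (m : K) with hφ
  have hinj : Function.Injective φ := by
    intro a b hab
    simp only [hφ, one_div, inv_inj] at hab
    exact_mod_cast hab
  have h1 := MvPolynomial.schwartz_zippel_totalDegree h (S.image φ)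
  rw [Finset.card_image_of_injective _ hinj] at h1
  have hS0 : (0 : ℚ≥0) < (S.card : ℚ≥0) := by exact_mod_cast hne.card_pos
  rw [div_le_div_iff₀ (by positivity) hS0] at h1
  have h2 : ((Fintype.piFinset fun _ : Fin k => S).filter fun m =>
      MvPolynomial.eval (fun l => 1 / (m l : K)) Δ = 0).card ≤
      ((Fintype.piFinset fun _ : Fin k => S.image φ).filter fun f => MvPolynomial.eval f Δ = 0).card := by
    refine Finset.card_le_card_of_injOn (fun m l => φ (m l)) ?_ ?_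
    · intro m hm
      obtain ⟨hm1, hm2⟩ := Finset.mem_filter.1 hm
      rw [Finset.mem_coe, Finset.mem_filter]
      refine ⟨?_, hm2⟩
      rw [Fintype.mem_piFinset] at hm1 ⊢
      exact fun l => Finset.mem_image_of_mem _ (hm1 l)
    · intro m _ m' _ hmm
      funext l
      exact hinj (congrFun hmm l)
  have h3 : ((((Fintype.piFinset fun _ : Fin k => S.image φ).filter fun f => MvPolynomial.eval f Δ = 0).card *
      S.card : ℕ) : ℚ≥0) ≤ ((Δ.totalDegree * S.card ^ k : ℕ) : ℚ≥0) := by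
    push_cast
    convert h1
  have h4 := Nat.cast_le.1 h3
  exact (Nat.mul_le_mul_right _ h2).trans h4

open Classical in
/-- zeros of a polynomial at the points `1 / m`, `m ≤ T` -/
lemma zeros_T {K : Type} [Field K] [CharZero K] {k : ℕ} {Δ : MvPolynomial (Fin k) K} (h : Δ ≠ 0) {T : ℕ} (hT : 1 ≤ T) :
    (((Fintype.piFinset fun _ : Fin k => Finset.Icc 2 T).filter fun m =>
      MvPolynomial.eval (fun l => 1 / (m l : K)) Δ = 0).card : ℝ) ≤ Δ.totalDegree * (T : ℝ) ^ ((k : ℝ) - 1) := by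
  have hT0 : (0 : ℝ) < T := by exact_mod_cast hT
  rcases k with _ | k
  · have h0 : ((Fintype.piFinset fun _ : Fin 0 => Finset.Icc 2 T).filter fun m =>
        MvPolynomial.eval (fun l => 1 / (m l : K)) Δ = 0) = ∅ := by
      refine Finset.filter_false_of_mem fun m _ hm => h ?_
      rw [MvPolynomial.eq_C_of_isEmpty Δ] at hm ⊢
      rw [MvPolynomial.eval_C] at hm
      rw [hm, map_zero]
    rw [h0]
    simp
    positivity
  · rcases Nat.lt_or_ge T 2 with h2 | h2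
    · have h0 : (Fintype.piFinset fun _ : Fin (k + 1) => Finset.Icc 2 T) = ∅ := by
        rw [Finset.Icc_eq_empty (by omega)]
        exact Fintype.piFinset_empty
      rw [h0]
      simp
      positivity
    · have h3 := zeros_le h (Finset.Icc 2 T) (fun m hm => by have := Finset.mem_Icc.1 hm; omega)
      have hcard : (Finset.Icc 2 T).card = T - 1 := by rw [Nat.card_Icc]; omega
      rw [hcard, pow_succ, ← mul_assoc] at h3
      have h4 := Nat.le_of_mul_le_mul_right h3 (by omega : 0 < T - 1)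
      have h5 : (((Fintype.piFinset fun _ : Fin (k + 1) => Finset.Icc 2 T).filter fun m =>
        MvPolynomial.eval (fun l => 1 / (m l : K)) Δ = 0).card : ℝ) ≤ Δ.totalDegree * ((T - 1 : ℕ) : ℝ) ^ k := by
        exact_mod_cast h4
      refine h5.trans ?_
      have h6 : ((k + 1 : ℕ) : ℝ) - 1 = k := by push_cast; ring
      rw [h6, Real.rpow_natCast]
      have h7 : ((T - 1 : ℕ) : ℝ) ≤ T := by exact_mod_cast Nat.sub_le T 1
      gcongr

/-- a polynomial which vanishes at `1 / m` if some `m l` is small -/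
lemma exists_small (K : Type) [Field K] [CharZero K] (k C₀ : ℕ) : ∃ Q : MvPolynomial (Fin k) K, Q ≠ 0 ∧
    ∀ m : Fin k → ℕ, (∀ l, 1 ≤ m l) → MvPolynomial.eval (fun l => 1 / (m l : K)) Q ≠ 0 → ∀ l, C₀ < m l := by
  classical
  refine ⟨∏ l : Fin k, ∏ j ∈ Finset.range (C₀ + 1), (MvPolynomial.C (j : K) * MvPolynomial.X l - 1), ?_, ?_⟩
  · refine Finset.prod_ne_zero_iff.2 fun l _ => Finset.prod_ne_zero_iff.2 fun j _ h0 => ?_
    have h1 := congrArg (MvPolynomial.eval fun _ : Fin k => (0 : K)) h0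
    simp at h1
  · intro m hm h l
    by_contra hl
    push Not at hl
    refine h ?_
    rw [map_prod]
    refine Finset.prod_eq_zero (Finset.mem_univ l) ?_
    rw [map_prod]
    refine Finset.prod_eq_zero (Finset.mem_range.2 (by omega : m l < C₀ + 1)) ?_
    have : (m l : K) ≠ 0 := by
      have := hm l
      exact_mod_cast (by omega : m l ≠ 0)
    simp [this]

variable {n k : ℕ} {f : Polynomial ℚ} {A : Fin n → Fin n → Polynomial ℚ} {Z W : Fin n → Fin n → ℚ⟦X⟧}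
  {ι : Type} [Fintype ι]

/-- the exceptional set: degenerate tuples, and zeros of a polynomial -/
theorem spec_exc (h : Dat f A Z W) (lam : Fin k → ι → Option (Fin n × Fin n) → ℂ)
    (K : Type) [Field K] [NumberField K] [Algebra K ℂ] {δ : ℕ} (b : Bas Z δ) {r₀ : ℝ} (hr₀ : 0 < r₀) :
    ∃ r : ℝ, 0 < r ∧ r ≤ r₀ ∧ ∃ V : Submodule ℚ ℂ, Module.Finite ℚ V ∧ ∃ Δ : MvPolynomial (Fin k) K, Δ ≠ 0 ∧
      ∀ m : Fin k → ℕ, (∀ l, 1 ≤ m l) → Nd b V m → MvPolynomial.eval (fun l => 1 / (m l : K)) Δ ≠ 0 →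
        (∀ l, 1 / (m l : ℝ) < r) ∧ SpecK K (pt lam Z) r δ m := by
  obtain ⟨C', hC', hCZ', -⟩ := h.bound
  obtain ⟨C, hCC, hCr⟩ : ∃ C : ℝ, C' ≤ C ∧ 1 / r₀ ≤ C := ⟨max C' (1 / r₀), le_max_left _ _, le_max_right _ _⟩
  have hC : 1 ≤ C := hC'.trans hCC
  have hCZ : ∀ i j m, |((coeff m (Z i j) : ℚ) : ℝ)| ≤ C ^ (m + 1) := fun i j m =>
    (hCZ' i j m).trans (pow_le_pow_left₀ (by linarith) hCC _)
  obtain ⟨V, hV, Δ, hΔ, hmain⟩ := spec_main b lam K hC hCZ
  obtain ⟨C₀, hC₀⟩ := exists_nat_ge C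
  obtain ⟨Q, hQ, hQm⟩ := exists_small K k C₀
  have hC0 : 0 < C := by linarith
  refine ⟨1 / C, by positivity, by rw [div_le_iff₀ hC0]; rw [div_le_iff₀ hr₀] at hCr; linarith, V, hV, Δ * Q, mul_ne_zero hΔ hQ, fun m hm hN he => ?_⟩
  rw [map_mul] at he
  have h1 := hQm m hm (right_ne_zero_of_mul he)
  have h2 : ∀ l, C < m l := fun l => lt_of_le_of_lt hC₀ (by exact_mod_cast h1 l)
  exact ⟨fun l => one_div_lt_one_div_of_lt hC0 (h2 l), hmain m h2 hN (left_ne_zero_of_mul he)⟩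

open Classical in
/-- **Counting** -/
theorem spec_count (h : Dat f A Z W) (lam : Fin k → ι → Option (Fin n × Fin n) → ℂ)
    (K : Type) [Field K] [NumberField K] [Algebra K ℂ] (δ : ℕ) {r₀ : ℝ} (hr₀ : 0 < r₀) :
    ∃ r : ℝ, 0 < r ∧ r ≤ r₀ ∧ ∃ c : ℝ, 0 < c ∧ ∃ C : ℝ, ∀ T : ℕ, 1 ≤ T →
      (((Fintype.piFinset fun _ : Fin k => Finset.Icc 2 T).filter fun m =>
        ¬ ((∀ l, 1 / (m l : ℝ) < r) ∧ SpecK K (pt lam Z) r δ m)).card : ℝ) ≤ C * (T : ℝ) ^ ((k : ℝ) - c) := by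
  obtain ⟨b⟩ := exists_bas Z δ
  obtain ⟨r, hr, hrr, V, hV, Δ, hΔ, hmain⟩ := spec_exc h lam K b hr₀
  obtain ⟨c, hc, C, hC, hcount⟩ := nd_count h b k (Module.finrank ℚ V)
  refine ⟨r, hr, hrr, min c 1, lt_min hc one_pos, C + Δ.totalDegree, fun T hT => ?_⟩
  have hT1 : (1 : ℝ) ≤ T := by exact_mod_cast hT
  have h1 : ((Fintype.piFinset fun _ : Fin k => Finset.Icc 2 T).filter fun m =>
      ¬ ((∀ l, 1 / (m l : ℝ) < r) ∧ SpecK K (pt lam Z) r δ m)) ⊆
      ((Fintype.piFinset fun _ : Fin k => Finset.Icc 2 T).filter fun m => ¬ Nd b V m) ∪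
      ((Fintype.piFinset fun _ : Fin k => Finset.Icc 2 T).filter fun m =>
        MvPolynomial.eval (fun l => 1 / (m l : K)) Δ = 0) := by
    intro m hm
    obtain ⟨hm1, hm2⟩ := Finset.mem_filter.1 hm
    rw [Finset.mem_union, Finset.mem_filter, Finset.mem_filter]
    by_contra hcon
    push Not at hcon
    refine hm2 (hmain m (fun l => ?_) (hcon.1 hm1) (hcon.2 hm1))
    rw [Fintype.mem_piFinset] at hm1
    have := Finset.mem_Icc.1 (hm1 l)
    omega
  have h2 : (((Fintype.piFinset fun _ : Fin k => Finset.Icc 2 T).filter fun m =>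
      ¬ ((∀ l, 1 / (m l : ℝ) < r) ∧ SpecK K (pt lam Z) r δ m)).card : ℝ) ≤
      C * (T : ℝ) ^ ((k : ℝ) - c) + Δ.totalDegree * (T : ℝ) ^ ((k : ℝ) - 1) := by
    refine le_trans ?_ (add_le_add (hcount V hV le_rfl T hT) (zeros_T hΔ hT))
    exact_mod_cast (Finset.card_le_card h1).trans (Finset.card_union_le _ _)
  refine h2.trans ?_
  rw [add_mul]
  refine add_le_add (mul_le_mul_of_nonneg_left ?_ hC) (mul_le_mul_of_nonneg_left ?_ (by positivity))
  · exact Real.rpow_le_rpow_of_exponent_le hT1 (by linarith [min_le_left c 1])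
  · exact Real.rpow_le_rpow_of_exponent_le hT1 (by linarith [min_le_right c 1])

/-- **Windows** -/
theorem spec_win (h : Dat f A Z W) (lam : Fin 1 → ι → Option (Fin n × Fin n) → ℂ)
    (K : Type) [Field K] [NumberField K] [Algebra K ℂ] (δ : ℕ) {r₀ : ℝ} (hr₀ : 0 < r₀) :
    ∃ r : ℝ, 0 < r ∧ r ≤ r₀ ∧ ∃ c : ℝ, 0 < c ∧ ∃ M : ℕ, ∀ N : ℕ, 1 ≤ N → ∃ S : Finset ℕ, S.card ≤ M ∧
      ∀ m : ℕ, N ≤ m → (m : ℝ) ≤ N + (N : ℝ) ^ c → m ∉ S →
        1 / (m : ℝ) < r ∧ SpecK K (pt lam Z) r δ (fun _ => m) := by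
  classical
  obtain ⟨b⟩ := exists_bas Z δ
  obtain ⟨r, hr, hrr, V, hV, Δ, hΔ, hmain⟩ := spec_exc h lam K b hr₀
  obtain ⟨M, c, hc, hwin⟩ := nd_win h b (Module.finrank ℚ V)
  refine ⟨r, hr, hrr, c, hc, M + Δ.totalDegree, fun N hN => ?_⟩
  obtain ⟨S, hS, hS'⟩ := hwin V hV le_rfl N hN
  set B : Finset ℕ := Finset.Icc N (N + ⌊(N : ℝ) ^ c⌋₊) with hB
  set S₂ := B.filter fun m : ℕ => MvPolynomial.eval (fun _ : Fin 1 => 1 / (m : K)) Δ = 0 with hS₂
  have hcard : S₂.card ≤ Δ.totalDegree := by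
    rcases S₂.eq_empty_or_nonempty with h0 | hne
    · rw [h0]; simp
    have h1 := zeros_le hΔ S₂ (fun m hm => by
      have := (Finset.mem_Icc.1 (Finset.mem_filter.1 hm).1).1
      omega)
    rw [pow_one] at h1
    have h2 := Nat.le_of_mul_le_mul_right h1 hne.card_pos
    refine le_trans ?_ h2
    refine Finset.card_le_card_of_injOn (fun m _ => m) ?_ ?_
    · intro m hm
      have hm' : m ∈ S₂ := hm
      rw [Finset.mem_coe, Finset.mem_filter]
      refine ⟨?_, (Finset.mem_filter.1 hm').2⟩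
      rw [Fintype.mem_piFinset]
      exact fun _ => hm'
    · intro m _ m' _ hmm
      exact congrFun hmm 0
  refine ⟨S ∪ S₂, (Finset.card_union_le _ _).trans (add_le_add hS hcard), fun m h1 h2 h3 => ?_⟩
  rw [Finset.mem_union, not_or] at h3
  have h4 := hS' m h1 h2 h3.1
  have h5 : MvPolynomial.eval (fun _ : Fin 1 => 1 / (m : K)) Δ ≠ 0 := by
    intro h6
    refine h3.2 (Finset.mem_filter.2 ⟨Finset.mem_Icc.2 ⟨h1, ?_⟩, h6⟩)
    have h7 : (m : ℝ) < (N + ⌊(N : ℝ) ^ c⌋₊ : ℕ) + 1 := by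
      push_cast
      linarith [Nat.lt_floor_add_one ((N : ℝ) ^ c)]
    have h8 : m < N + ⌊(N : ℝ) ^ c⌋₊ + 1 := by exact_mod_cast h7
    omega
  have h9 := hmain (fun _ => m) (fun _ => by omega) h4 h5
  exact ⟨h9.1 0, h9.2⟩

end Pool.Agent.Y921.DB
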