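import Pool.Agent.Y113.GG.Conv

/-!
# Counting the degenerate points of a matrix of G-functions (from the theorems of Project GG)
-/

set_option autoImplicit false

open PowerSeries

namespace Pool.Agent.Y921.DB

open Pool.Agent.Y113 Pool.Agent.Y113.GG Pool.Agent.Y37.GF Pool.Agent.Y118.HG

variable {n : ℕ} {f : Polynomial ℚ} {A : Fin n → Fin n → Polynomial ℚ} {Z W : Fin n → Fin n → ℚ⟦X⟧}

open Classical in
/-- few tuples are degenerate -/
theorem nd_count (h : Dat f A Z W) {δ : ℕ} (b : Bas Z δ) (k D : ℕ) :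
    ∃ c : ℝ, 0 < c ∧ ∃ C : ℝ, 0 ≤ C ∧ ∀ V : Submodule ℚ ℂ, Module.Finite ℚ V → Module.finrank ℚ V ≤ D →
      ∀ T : ℕ, 1 ≤ T → (((Fintype.piFinset fun _ : Fin k => Finset.Icc 2 T).filter fun m => ¬ Nd b V m).card : ℝ) ≤
        C * (T : ℝ) ^ ((k : ℝ) - c) := by
  obtain ⟨C, hC, hCZ, -⟩ := h.bound
  obtain ⟨G₀, hG₀, hw⟩ := win_nd h hC hCZ
  obtain ⟨Bk, hBk⟩ : ∃ Bk : (k : ℕ) → Submodule ℚ ℂ → (Fin k → ℕ) → Prop, ∀ k V m, Bk k V m ↔ ¬ Nd b V m :=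
    ⟨fun k V m => ¬ Nd b V m, fun _ _ _ => Iff.rfl⟩
  obtain ⟨c, hc, C', hC', hcount⟩ := count_abs
    (fun V m => ¬ Nd b V (fun _ : Fin 1 => m))
    Bk
    (fun k V m => V * sp (fun e : Fin k → b.s => ∏ l, wv (zv Z (m l)) (e l : Fin δ → Option (Fin n × Fin n))))
    (fun k => Fintype.card (Fin k → b.s) + 1)
    (fun V m hh => by
      rw [hBk] at hh
      exact hh (nd_zero b m))
    (fun k V m hh => by
      rw [hBk] at hh ⊢
      by_cases h1 : Nd b V (fun i => m i.succ)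
      · right
        intro h2
        exact hh (nd_split b h1 h2)
      · exact Or.inl h1)
    (fun k V m hV => by
      obtain ⟨h1, h2⟩ := sp_fin (fun e : Fin k → b.s => ∏ l, wv (zv Z (m l)) (e l : Fin δ → Option (Fin n × Fin n)))
      obtain ⟨h3, h4⟩ := finrank_mul_le V
        (sp (fun e : Fin k → b.s => ∏ l, wv (zv Z (m l)) (e l : Fin δ → Option (Fin n × Fin n))))
      exact ⟨h3, h4.trans (Nat.mul_le_mul_left _ h2)⟩)
    (fun D' => by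
      obtain ⟨M, E, hME⟩ := hw δ b 1 D'
      refine ⟨M, E, fun V hV hVD H t ht S hS => ?_⟩
      obtain ⟨S', hS', hS''⟩ := hME V hV hVD H t ht
      refine (Finset.card_le_card fun g hg => ?_).trans hS'
      obtain ⟨h1, h2⟩ := hS g hg
      by_contra hgS
      exact h2 (hS'' (fun _ => g) (fun l l' hll => absurd (Subsingleton.elim l l') hll) (fun _ => ⟨h1, hgS⟩)))
    k D
  refine ⟨c, hc, C', hC', fun V hV hVD T hT => le_trans ?_ (hcount V hV hVD T hT)⟩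
  refine Nat.cast_le.2 (Finset.card_le_card fun m hm => ?_)
  obtain ⟨hm1, hm2⟩ := Finset.mem_filter.1 hm
  refine Finset.mem_filter.2 ⟨hm1, ?_⟩
  rw [hBk]
  exact hm2

/-- few integers of a short interval are degenerate -/
theorem nd_win (h : Dat f A Z W) {δ : ℕ} (b : Bas Z δ) (D : ℕ) :
    ∃ M : ℕ, ∃ c : ℝ, 0 < c ∧ ∀ V : Submodule ℚ ℂ, Module.Finite ℚ V → Module.finrank ℚ V ≤ D →
      ∀ N : ℕ, 1 ≤ N → ∃ S : Finset ℕ, S.card ≤ M ∧ ∀ m : ℕ, N ≤ m → (m : ℝ) ≤ N + (N : ℝ) ^ c → m ∉ S →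
        Nd b V (fun _ : Fin 1 => m) := by
  obtain ⟨C, hC, hCZ, -⟩ := h.bound
  obtain ⟨G₀, hG₀, hw⟩ := win_nd h hC hCZ
  obtain ⟨M, E, hME⟩ := hw δ b 1 D
  obtain ⟨c, hc, hconv⟩ := conv 1 G₀ E M
  refine ⟨M + 3, c, hc, fun V hV hVD N hN => ?_⟩
  obtain ⟨S, hS, hS'⟩ := hconv (fun m => Nd b V m) (hME V hV hVD) N hN
  refine ⟨S, hS, fun m h1 h2 h3 => ?_⟩
  exact hS' (fun _ => m) (fun l l' hll => absurd (Subsingleton.elim l l') hll) (fun _ => ⟨h1, h2, h3⟩)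

end Pool.Agent.Y921.DB
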