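import Pool.Agent.Y921.DB.Res
import Pool.Agent.Y921.DB.JP
import Mathlib.Analysis.Analytic.Binomial

/-!
# The integrals `∫ w_z dx / (x - a_j)` along closed paths
-/

set_option autoImplicit false

open PowerSeries

namespace Pool.Agent.Y921.DB

open Pool.Agent.Y113 Pool.Agent.Y113.GG Pool.Agent.Y37.GF

/-- the binomial coefficients -/
lemma choose_bc (s : ℚ) (m : ℕ) : Ring.choose (s : ℂ) m = (-1) ^ m * (bc s m : ℂ) := by
  induction m with
  | zero => simp [bc]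
  | succ m ih =>
    rw [Ring.choose_eq_smul] at ih ⊢
    rw [descPochhammer_succ_right, Polynomial.smeval_mul, Polynomial.smeval_sub, Polynomial.smeval_X, pow_one,
      Polynomial.smeval_natCast, pow_zero, nsmul_eq_mul, mul_one, smul_eq_mul]
    rw [smul_eq_mul] at ih
    have h1 : ((m + 1 : ℕ).factorial : ℂ)⁻¹ = ((m : ℂ) + 1)⁻¹ * ((m.factorial : ℂ))⁻¹ := by
      rw [Nat.factorial_succ]; push_cast; rw [mul_inv]
    have h2 : (m : ℂ) + 1 ≠ 0 := by exact_mod_cast Nat.succ_ne_zero m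
    rw [h1, bc]
    push_cast
    calc _ = ((m : ℂ) + 1)⁻¹ * (((m.factorial : ℂ))⁻¹ * Polynomial.smeval (descPochhammer ℤ m) (s : ℂ)) * (s - m) := by ring
      _ = _ := by rw [ih]; field_simp; ring

/-- the binomial series -/
lemma hasSum_bc (s : ℚ) {u : ℂ} (hu : ‖u‖ < 1) : HasSum (fun m => (bc s m : ℂ) * u ^ m) ((1 - u) ^ (s : ℂ)) := by
  have h := (Complex.one_add_cpow_hasFPowerSeriesOnBall_zero (a := (s : ℂ))).hasSum (y := -u) (by
    rw [mem_eball_zero_iff, enorm_neg, ← ofReal_norm, ENNReal.ofReal_lt_one]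
    exact hu)
  simp only [zero_add] at h
  rw [sub_eq_add_neg]
  convert! h using 2 with m
  rw [binomialSeries_apply]
  simp only [List.ofFn_const, List.prod_replicate, smul_eq_mul]
  have e0 : (-u) ^ m = (-1) ^ m * u ^ m := neg_pow u m
  rw [choose_bc, e0]
  have : ((-1 : ℂ) ^ m * (bc s m : ℂ)) * ((-1) ^ m * u ^ m) = ((-1) ^ m * (-1) ^ m) * ((bc s m : ℂ) * u ^ m) := by ring
  rw [this, ← pow_add, Even.neg_one_pow ⟨m, rfl⟩, one_mul]

/-- a closed path, and a branch of the multivalued function `∏ (x - a_j)^(μ_j) x^(μ₀)` along it -/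
structure Loop {n : ℕ} (a : Fin n → ℂ) (μ : Fin n → ℚ) (μ0 : ℚ) (ρ : ℝ) (x w : ℝ → ℂ) : Prop where
  cx : ContDiff ℝ 1 x
  cw : ∀ t ∈ Set.Icc (0 : ℝ) 1, DifferentiableAt ℝ w t
  rho : 0 < ρ
  far : ∀ t ∈ Set.Icc (0 : ℝ) 1, ρ < ‖x t‖
  ne : ∀ t ∈ Set.Icc (0 : ℝ) 1, ∀ j, x t ≠ a j
  x1 : x 0 = x 1
  w1 : w 0 = w 1
  ode : ∀ t ∈ Set.Icc (0 : ℝ) 1, deriv w t = w t * ((∑ l, (μ l : ℂ) / (x t - a l)) + (μ0 : ℂ) / x t) * deriv x t

section loop

variable {n : ℕ} {a : Fin n → ℂ} {μ : Fin n → ℚ} {μ0 : ℚ} {ρ : ℝ} {x w : ℝ → ℂ}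

/-- the moments -/
noncomputable def Mo (a : Fin n → ℂ) (x w : ℝ → ℂ) (m : ℕ) (j : Fin n) : ℂ :=
  ∫ t in (0 : ℝ)..1, w t * (x t)⁻¹ ^ m / (x t - a j) * deriv x t

noncomputable def No (x w : ℝ → ℂ) (m : ℕ) : ℂ := ∫ t in (0 : ℝ)..1, w t * (x t)⁻¹ ^ m * deriv x t

lemma Loop.x0 (h : Loop a μ μ0 ρ x w) {t : ℝ} (ht : t ∈ Set.Icc (0 : ℝ) 1) : x t ≠ 0 := by
  have h1 := h.far t ht
  have h2 := h.rho
  intro h3
  rw [h3, norm_zero] at h1
  linarith

lemma Loop.cont_x (h : Loop a μ μ0 ρ x w) : Continuous x := h.cx.continuous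

lemma Loop.cont_dx (h : Loop a μ μ0 ρ x w) : Continuous (deriv x) := h.cx.continuous_deriv le_rfl

lemma Loop.cont_w (h : Loop a μ μ0 ρ x w) : ContinuousOn w (Set.Icc (0 : ℝ) 1) := fun t ht =>
  (h.cw t ht).continuousAt.continuousWithinAt

lemma Loop.cont_inv (h : Loop a μ μ0 ρ x w) (m : ℕ) : ContinuousOn (fun t => w t * (x t)⁻¹ ^ m) (Set.Icc (0 : ℝ) 1) :=
  h.cont_w.mul ((h.cont_x.continuousOn.inv₀ fun _ ht => h.x0 ht).pow m)

lemma Loop.int_No (h : Loop a μ μ0 ρ x w) (m : ℕ) :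
    IntervalIntegrable (fun t => w t * (x t)⁻¹ ^ m * deriv x t) MeasureTheory.volume 0 1 := by
  apply ContinuousOn.intervalIntegrable
  rw [Set.uIcc_of_le zero_le_one]
  exact (h.cont_inv m).mul h.cont_dx.continuousOn

lemma Loop.cont_Mo (h : Loop a μ μ0 ρ x w) (m : ℕ) (j : Fin n) :
    ContinuousOn (fun t => w t * (x t)⁻¹ ^ m / (x t - a j) * deriv x t) (Set.Icc (0 : ℝ) 1) :=
  ((h.cont_inv m).div (h.cont_x.continuousOn.sub continuousOn_const) fun t ht => sub_ne_zero.2 (h.ne t ht j)).mul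
    h.cont_dx.continuousOn

lemma Loop.int_Mo (h : Loop a μ μ0 ρ x w) (m : ℕ) (j : Fin n) :
    IntervalIntegrable (fun t => w t * (x t)⁻¹ ^ m / (x t - a j) * deriv x t) MeasureTheory.volume 0 1 := by
  apply ContinuousOn.intervalIntegrable
  rw [Set.uIcc_of_le zero_le_one]
  exact h.cont_Mo m j

/-- first relation of the moments -/
lemma Loop.rel1 (h : Loop a μ μ0 ρ x w) (m : ℕ) (j : Fin n) :
    a j * Mo a x w (m + 1) j = Mo a x w m j - No x w (m + 1) := by
  unfold Mo No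
  rw [← intervalIntegral.integral_const_mul, ← intervalIntegral.integral_sub (h.int_Mo m j) (h.int_No (m + 1))]
  refine intervalIntegral.integral_congr fun t ht => ?_
  rw [Set.uIcc_of_le zero_le_one] at ht
  have h1 := h.x0 ht
  have h2 := sub_ne_zero.2 (h.ne t ht j)
  rw [pow_succ]
  field_simp
  ring

/-- second relation of the moments -/
lemma Loop.rel2 (h : Loop a μ μ0 ρ x w) (m : ℕ) :
    ((m : ℂ) - μ0) * No x w (m + 1) = ∑ l, (μ l : ℂ) * Mo a x w m l := by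
  have hd : ∀ t ∈ Set.uIcc (0 : ℝ) 1, HasDerivAt (fun t => w t * (x t)⁻¹ ^ m)
      ((∑ l, (μ l : ℂ) * (w t * (x t)⁻¹ ^ m / (x t - a l) * deriv x t)) -
        ((m : ℂ) - μ0) * (w t * (x t)⁻¹ ^ (m + 1) * deriv x t)) t := by
    intro t ht
    rw [Set.uIcc_of_le zero_le_one] at ht
    have h1 := h.x0 ht
    have hx : HasDerivAt x (deriv x t) t := (h.cx.differentiable one_ne_zero t).hasDerivAt
    have hw : HasDerivAt w (deriv w t) t := (h.cw t ht).hasDerivAt
    have h2 : HasDerivAt (fun t => w t * (x t)⁻¹ ^ m) (deriv w t * (x t)⁻¹ ^ m +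
        w t * ((m : ℂ) * (x t)⁻¹ ^ (m - 1) * (-deriv x t / x t ^ 2))) t := hw.mul ((hx.inv h1).pow m)
    refine h2.congr_deriv ?_
    rw [h.ode t ht]
    have h3 : ∑ l, (μ l : ℂ) * (w t * (x t)⁻¹ ^ m / (x t - a l) * deriv x t) =
        (∑ l, (μ l : ℂ) / (x t - a l)) * (w t * (x t)⁻¹ ^ m * deriv x t) := by
      rw [Finset.sum_mul]
      refine Finset.sum_congr rfl fun l _ => ?_
      ring
    have e1 : (μ0 : ℂ) / x t = μ0 * (x t)⁻¹ := div_eq_mul_inv _ _
    have e2 : -deriv x t / x t ^ 2 = -deriv x t * ((x t)⁻¹) ^ 2 := by rw [div_eq_mul_inv, inv_pow]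
    rw [h3, e1, e2]
    rcases m with _ | m
    · simp only [Nat.cast_zero, pow_zero, zero_mul, mul_zero, zero_sub, zero_add, pow_one, mul_one, add_zero]
      ring
    · simp only [Nat.add_sub_cancel]
      push_cast
      ring
  have hi : ∀ l, IntervalIntegrable (fun t => (μ l : ℂ) * (w t * (x t)⁻¹ ^ m / (x t - a l) * deriv x t))
      MeasureTheory.volume 0 1 := fun l => (h.int_Mo m l).const_mul _
  have hs : IntervalIntegrable (fun t => ∑ l, (μ l : ℂ) * (w t * (x t)⁻¹ ^ m / (x t - a l) * deriv x t))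
      MeasureTheory.volume 0 1 := by
    have h5 := IntervalIntegrable.sum (Finset.univ) (f := fun l => fun t => (μ l : ℂ) * (w t * (x t)⁻¹ ^ m / (x t - a l) * deriv x t))
      (fun l _ => hi l)
    have h6 : (fun t => ∑ l, (μ l : ℂ) * (w t * (x t)⁻¹ ^ m / (x t - a l) * deriv x t)) =
        ∑ l, fun t => (μ l : ℂ) * (w t * (x t)⁻¹ ^ m / (x t - a l) * deriv x t) := by
      funext t
      rw [Finset.sum_apply]
    rw [h6]
    exact h5
  have hN := (h.int_No (m + 1)).const_mul ((m : ℂ) - μ0)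
  have h1 := intervalIntegral.integral_eq_sub_of_hasDerivAt hd (hs.sub hN)
  rw [← h.x1, ← h.w1, sub_self, intervalIntegral.integral_sub hs hN, intervalIntegral.integral_finsetSum fun l _ => hi l,
    intervalIntegral.integral_const_mul] at h1
  unfold Mo No
  rw [← sub_eq_zero.1 h1]
  refine Finset.sum_congr rfl fun l _ => ?_
  rw [intervalIntegral.integral_const_mul]

variable {L : Type} [Field L] [NumberField L] [Algebra L ℂ]

/-- **The moments in terms of the fundamental matrix.** -/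
lemma Loop.moments (h : Loop a μ μ0 ρ x w) (α : Fin n → L) (hα : ∀ j, algebraMap L ℂ (α j) = a j) (hα0 : ∀ j, α j ≠ 0)
    (h0 : ∀ m : ℕ, (m : ℚ) ≠ μ0) (m : ℕ) (j : Fin n) :
    (bc μ0 m : ℂ) * Mo a x w m j = ∑ l, Mo a x w 0 l * algebraMap L ℂ (coeff m (Zk α μ μ0 l j)) := by
  induction m generalizing j with
  | zero =>
    have h1 : ∀ l, Mo a x w 0 l * algebraMap L ℂ (coeff 0 (Zk α μ μ0 l j)) = if l = j then Mo a x w 0 l else 0 := by
      intro l
      rw [coeff_zero_eq_constantCoeff_apply, Zk_zero]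
      split_ifs <;> simp
    rw [Finset.sum_congr rfl fun l _ => h1 l, Finset.sum_ite_eq', if_pos (Finset.mem_univ j)]
    simp [bc]
  | succ m ih =>
    have ha0 : a j ≠ 0 := by
      rw [← hα j]
      exact (map_ne_zero_iff _ (algebraMap L ℂ).injective).2 (hα0 j)
    have hm0 : (m : ℂ) + 1 ≠ 0 := by exact_mod_cast Nat.succ_ne_zero m
    apply mul_left_cancel₀ (mul_ne_zero ha0 hm0)
    have hb : ((bc μ0 (m + 1) : ℚ) : ℂ) * ((m : ℂ) + 1) = (bc μ0 m : ℂ) * ((m : ℂ) - (μ0 : ℂ)) := by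
      have := congrArg (fun x : ℚ => (x : ℂ)) (bc_rec μ0 m)
      push_cast at this
      exact this
    have hZ : ∀ l, a j * ((m : ℂ) + 1) * algebraMap L ℂ (coeff (m + 1) (Zk α μ μ0 l j)) =
        ((m : ℂ) - μ0) * algebraMap L ℂ (coeff m (Zk α μ μ0 l j)) -
        ∑ i, (μ i : ℂ) * algebraMap L ℂ (coeff m (Zk α μ μ0 l i)) := by
      intro l
      have := congrArg (algebraMap L ℂ) (Zk_rec α μ μ0 hα0 h0 l j m)
      simp only [map_mul, map_sub, map_sum, map_add, map_natCast, map_one, map_ratCast, hα] at this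
      exact this
    have h1 : a j * ((m : ℂ) + 1) * ∑ l, Mo a x w 0 l * algebraMap L ℂ (coeff (m + 1) (Zk α μ μ0 l j)) =
        ((m : ℂ) - μ0) * ((bc μ0 m : ℂ) * Mo a x w m j) - ∑ i, (μ i : ℂ) * ((bc μ0 m : ℂ) * Mo a x w m i) := by
      have h5 : ∑ i, (μ i : ℂ) * ((bc μ0 m : ℂ) * Mo a x w m i) =
          ∑ l, ∑ i, (μ i : ℂ) * (Mo a x w 0 l * algebraMap L ℂ (coeff m (Zk α μ μ0 l i))) := by
        rw [Finset.sum_comm]
        refine Finset.sum_congr rfl fun i _ => ?_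
        rw [ih i, Finset.mul_sum]
      rw [h5, ih j, Finset.mul_sum, Finset.mul_sum, ← Finset.sum_sub_distrib]
      refine Finset.sum_congr rfl fun l _ => ?_
      have h2 := hZ l
      calc _ = Mo a x w 0 l * (a j * ((m : ℂ) + 1) * algebraMap L ℂ (coeff (m + 1) (Zk α μ μ0 l j))) := by ring
        _ = _ := by
          rw [h2, mul_sub, Finset.mul_sum]
          congr 1
          · ring
          · refine Finset.sum_congr rfl fun i _ => ?_
            ring
    rw [h1]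
    have h3 := h.rel1 m j
    have h4 := h.rel2 m
    calc _ = (((bc μ0 (m + 1) : ℚ) : ℂ) * ((m : ℂ) + 1)) * (a j * Mo a x w (m + 1) j) := by ring
      _ = (bc μ0 m : ℂ) * (((m : ℂ) - μ0) * Mo a x w m j - ((m : ℂ) - μ0) * No x w (m + 1)) := by
          rw [hb, h3]; ring
      _ = _ := by
          rw [h4, mul_sub, Finset.mul_sum]
          congr 1
          · ring
          · refine Finset.sum_congr rfl fun i _ => ?_
            ring

/-- the integral at the parameter `z` -/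
noncomputable def Io (a : Fin n → ℂ) (μ0 : ℚ) (x w : ℝ → ℂ) (z : ℂ) (j : Fin n) : ℂ :=
  ∫ t in (0 : ℝ)..1, w t * (1 - z / x t) ^ (μ0 : ℂ) / (x t - a j) * deriv x t

omit [NumberField L] in
lemma summable_VL {A : ℝ} {Y : L⟦X⟧} (hY : GFp A Y) {z : ℂ} (hz : ‖z‖ * A < 1) :
    Summable fun m : ℕ => algebraMap L ℂ (coeff m Y) * z ^ m := by
  have hA := hY.one_le
  have h1 : Summable fun m : ℕ => A * (‖z‖ * A) ^ m :=
    (summable_geometric_of_lt_one (by positivity) hz).mul_left _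
  refine Summable.of_norm_bounded h1 fun m => ?_
  rw [norm_mul, norm_pow]
  have h2 := hY.1 (algebraMap L ℂ) m
  calc _ ≤ A ^ (m + 1) * ‖z‖ ^ m := mul_le_mul_of_nonneg_right h2 (by positivity)
    _ = _ := by rw [mul_pow]; ring

/-- **The integrals in terms of the fundamental matrix.** -/
theorem Loop.integral (h : Loop a μ μ0 ρ x w) (α : Fin n → L) (hα : ∀ j, algebraMap L ℂ (α j) = a j) (hα0 : ∀ j, α j ≠ 0)
    (h0 : ∀ m : ℕ, (m : ℚ) ≠ μ0) : ∃ r : ℝ, 0 < r ∧ ∀ z : ℂ, ‖z‖ < r → ∀ j,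
      Io a μ0 x w z j = ∑ l, Mo a x w 0 l * VL (Zk α μ μ0 l j) z := by
  choose A hA using fun l j => GFn_Zk α μ μ0 h0 l j
  obtain ⟨B, hB1, hB⟩ : ∃ B : ℝ, 1 ≤ B ∧ ∀ l j, A l j ≤ B := by
    refine ⟨1 + ∑ l, ∑ j, |A l j|, by
      have : 0 ≤ ∑ l, ∑ j, |A l j| := Finset.sum_nonneg fun _ _ => Finset.sum_nonneg fun _ _ => abs_nonneg _
      linarith, fun l j => ?_⟩
    have h1 := Finset.single_le_sum (f := fun j => |A l j|) (fun _ _ => abs_nonneg _) (Finset.mem_univ j)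
    have h2 := Finset.single_le_sum (f := fun l => ∑ j, |A l j|)
      (fun _ _ => Finset.sum_nonneg fun _ _ => abs_nonneg _) (Finset.mem_univ l)
    have h3 := le_abs_self (A l j)
    linarith
  have hρ := h.rho
  have hq : 0 < |(μ0 : ℝ)| + 1 := by positivity
  refine ⟨min (1 / B) (ρ / (|(μ0 : ℝ)| + 1)), lt_min (by positivity) (by positivity), fun z hz j => ?_⟩
  have hz1 : ‖z‖ * B < 1 := by
    have := hz.trans_le (min_le_left _ _)
    rwa [lt_div_iff₀ (by linarith)] at this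
  have hz2 : (|(μ0 : ℝ)| + 1) * (‖z‖ / ρ) < 1 := by
    have := hz.trans_le (min_le_right _ _)
    rw [lt_div_iff₀ hq] at this
    rw [mul_div_assoc', div_lt_one hρ]
    linarith
  have hz3 : ‖z‖ / ρ < 1 := by
    have h5 : ‖z‖ / ρ ≤ (|(μ0 : ℝ)| + 1) * (‖z‖ / ρ) := by
      have h6 : 0 ≤ ‖z‖ / ρ := by positivity
      have h7 : 0 ≤ |(μ0 : ℝ)| := abs_nonneg _
      nlinarith
    linarith
  -- the right side
  have hR : HasSum (fun m : ℕ => ∑ l, Mo a x w 0 l * (algebraMap L ℂ (coeff m (Zk α μ μ0 l j)) * z ^ m))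
      (∑ l, Mo a x w 0 l * VL (Zk α μ μ0 l j) z) := by
    refine hasSum_sum fun l _ => HasSum.mul_left _ ?_
    exact (summable_VL ((hA l j).mono (hB l j)) hz1).hasSum
  -- the left side
  obtain ⟨K, hK⟩ : ∃ K : ℝ, ∀ t ∈ Set.Icc (0 : ℝ) 1, ‖w t / (x t - a j) * deriv x t‖ ≤ K := by
    have hc : ContinuousOn (fun t => w t / (x t - a j) * deriv x t) (Set.Icc (0 : ℝ) 1) :=
      (h.cont_w.div (h.cont_x.continuousOn.sub continuousOn_const) fun t ht =>
        sub_ne_zero.2 (h.ne t ht j)).mul h.cont_dx.continuousOn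
    exact isCompact_Icc.exists_bound_of_continuousOn hc
  have hK0 : 0 ≤ K := (norm_nonneg _).trans (hK 0 ⟨le_rfl, zero_le_one⟩)
  have hsum : Summable fun m : ℕ => K * ((|(μ0 : ℝ)| + 1) * (‖z‖ / ρ)) ^ m :=
    (summable_geometric_of_lt_one (by positivity) hz2).mul_left _
  have hLs : HasSum (fun m : ℕ => ∫ t in (0 : ℝ)..1, (bc μ0 m : ℂ) * z ^ m * (w t * (x t)⁻¹ ^ m / (x t - a j) * deriv x t))
      (Io a μ0 x w z j) := by
    unfold Io
    refine intervalIntegral.hasSum_integral_of_dominated_convergence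
      (fun m _ => K * ((|(μ0 : ℝ)| + 1) * (‖z‖ / ρ)) ^ m) (fun m => ?_) (fun m => ?_) ?_ ?_ ?_
    · have h1 : ContinuousOn (fun t => (bc μ0 m : ℂ) * z ^ m * (w t * (x t)⁻¹ ^ m / (x t - a j) * deriv x t))
          (Set.Icc (0 : ℝ) 1) := continuousOn_const.mul (h.cont_Mo m j)
      rw [Set.uIoc_of_le zero_le_one]
      exact (h1.mono Set.Ioc_subset_Icc_self).aestronglyMeasurable measurableSet_Ioc
    · refine Filter.Eventually.of_forall fun t ht => ?_
      rw [Set.uIoc_of_le zero_le_one] at ht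
      have ht' : t ∈ Set.Icc (0 : ℝ) 1 := Set.Ioc_subset_Icc_self ht
      have e1 : (bc μ0 m : ℂ) * z ^ m * (w t * (x t)⁻¹ ^ m / (x t - a j) * deriv x t) =
          (w t / (x t - a j) * deriv x t) * ((bc μ0 m : ℂ) * (z * (x t)⁻¹) ^ m) := by
        rw [mul_pow]; ring
      rw [e1, norm_mul]
      refine mul_le_mul (hK t ht') ?_ (norm_nonneg _) hK0
      rw [norm_mul, norm_pow, norm_mul, norm_inv, mul_pow (|(μ0 : ℝ)| + 1)]
      have b1 : ‖((bc μ0 m : ℚ) : ℂ)‖ ≤ (|(μ0 : ℝ)| + 1) ^ m := by rw [norm_rat]; exact bc_bound μ0 m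
      have b2 : (‖z‖ * ‖x t‖⁻¹) ^ m ≤ (‖z‖ / ρ) ^ m := by
        refine pow_le_pow_left₀ (by positivity) ?_ _
        rw [← div_eq_mul_inv]
        exact div_le_div_of_nonneg_left (norm_nonneg _) hρ (h.far t ht').le
      exact mul_le_mul b1 b2 (by positivity) (by positivity)
    · exact Filter.Eventually.of_forall fun t _ => hsum
    · exact intervalIntegrable_const
    · refine Filter.Eventually.of_forall fun t ht => ?_
      rw [Set.uIoc_of_le zero_le_one] at ht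
      have ht' : t ∈ Set.Icc (0 : ℝ) 1 := Set.Ioc_subset_Icc_self ht
      have hu : ‖z / x t‖ < 1 := by
        rw [norm_div]
        exact (div_le_div_of_nonneg_left (norm_nonneg _) hρ (h.far t ht').le).trans_lt hz3
      have h2 := (hasSum_bc μ0 hu).mul_left (w t / (x t - a j) * deriv x t)
      have e3 : (fun m : ℕ => (bc μ0 m : ℂ) * z ^ m * (w t * (x t)⁻¹ ^ m / (x t - a j) * deriv x t)) =
          fun m : ℕ => w t / (x t - a j) * deriv x t * ((bc μ0 m : ℂ) * (z / x t) ^ m) := by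
        funext m
        rw [div_pow, inv_pow]
        ring
      have e4 : w t * (1 - z / x t) ^ (μ0 : ℂ) / (x t - a j) * deriv x t =
          w t / (x t - a j) * deriv x t * (1 - z / x t) ^ (μ0 : ℂ) := by ring
      rw [e3, e4]
      exact h2
  have e2 : ∀ m : ℕ, ∫ t in (0 : ℝ)..1, (bc μ0 m : ℂ) * z ^ m * (w t * (x t)⁻¹ ^ m / (x t - a j) * deriv x t) =
      ∑ l, Mo a x w 0 l * (algebraMap L ℂ (coeff m (Zk α μ μ0 l j)) * z ^ m) := by
    intro m
    rw [intervalIntegral.integral_const_mul]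
    have h3 := h.moments α hα hα0 h0 m j
    have h4 : ∑ l, Mo a x w 0 l * (algebraMap L ℂ (coeff m (Zk α μ μ0 l j)) * z ^ m) =
        (∑ l, Mo a x w 0 l * algebraMap L ℂ (coeff m (Zk α μ μ0 l j))) * z ^ m := by
      rw [Finset.sum_mul]
      exact Finset.sum_congr rfl fun l _ => by ring
    rw [h4, ← h3]
    unfold Mo
    ring
  simp only [e2] at hLs
  exact hLs.unique hR

end loop

end Pool.Agent.Y921.DB
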