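import Pool.Agent.Y921.DB.GL
import Pool.Agent.Y921.DB.Main

/-!
# Restriction of scalars for systems of G-functions over a number field
-/

set_option autoImplicit false

open PowerSeries

namespace Pool.Agent.Y921.DB

open Pool.Agent.Y113 Pool.Agent.Y113.GG Pool.Agent.Y37.GF Pool.Agent.Y118.HG

variable {L : Type} [Field L] [NumberField L]

/-- a fundamental matrix of G-functions of a system over `L(z)` which is regular at `0`, and its inverse -/
structure DatL {n : ℕ} (f : Polynomial L) (A : Fin n → Fin n → Polynomial L) (Z W : Fin n → Fin n → L⟦X⟧) : Prop where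
  reg : f.coeff 0 ≠ 0
  sys : ∀ i j, (f : L⟦X⟧) * PowerSeries.derivative L (Z i j) = ∑ k, Z i k * (A k j : L⟦X⟧)
  inv : ∀ i j, ∑ k, W i k * Z k j = if i = j then 1 else 0
  gZ : ∀ i j, GFn (Z i j)
  gW : ∀ i j, GFn (W i j)

/-- every polynomial divides a rational one -/
lemma exists_rat_mult (f : Polynomial L) (hf : f.coeff 0 ≠ 0) :
    ∃ (F : Polynomial ℚ) (g : Polynomial L), F.coeff 0 ≠ 0 ∧ F.map (algebraMap ℚ L) = g * f := by
  classical
  have hf0 : f ≠ 0 := by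
    rintro rfl
    simp at hf
  set E := AlgebraicClosure L with hE
  have hsplit : (f.map (algebraMap L E)) = Polynomial.C (f.map (algebraMap L E)).leadingCoeff *
      ((f.map (algebraMap L E)).roots.map fun x => Polynomial.X - Polynomial.C x).prod :=
    (IsAlgClosed.splits _).eq_prod_roots
  set R := (f.map (algebraMap L E)).roots with hR
  set F : Polynomial ℚ := (R.map fun x => minpoly ℚ x).prod with hF
  have halg : ∀ x : E, IsIntegral ℚ x := fun x => by
    have h1 : IsAlgebraic L x := Algebra.IsAlgebraic.isAlgebraic x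
    have h2 : Algebra.IsAlgebraic ℚ E := Algebra.IsAlgebraic.trans ℚ L E
    exact (h2.isAlgebraic x).isIntegral
  have hdvd : f.map (algebraMap L E) ∣ (F.map (algebraMap ℚ L)).map (algebraMap L E) := by
    rw [Polynomial.map_map, ← IsScalarTower.algebraMap_eq ℚ L E, hsplit]
    have hlead : (f.map (algebraMap L E)).leadingCoeff ≠ 0 := by
      rw [Ne, Polynomial.leadingCoeff_eq_zero]
      exact (Polynomial.map_ne_zero_iff (algebraMap L E).injective).2 hf0
    rw [(Polynomial.isUnit_C.2 hlead.isUnit).mul_left_dvd]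
    rw [hF, ← Polynomial.coe_mapRingHom, map_multiset_prod, Multiset.map_map]
    refine Multiset.prod_dvd_prod_of_dvd _ _ fun x _ => ?_
    simp only [Function.comp]
    rw [Polynomial.dvd_iff_isRoot, Polynomial.IsRoot, Polynomial.coe_mapRingHom, Polynomial.eval_map_algebraMap]
    exact minpoly.aeval ℚ x
  have hdvd' : f ∣ F.map (algebraMap ℚ L) := (Polynomial.map_dvd_map' (algebraMap L E)).1 hdvd
  obtain ⟨g, hg⟩ := hdvd'
  refine ⟨F, g, ?_, by rw [hg]; ring⟩
  rw [hF, Polynomial.coeff_zero_eq_eval_zero, ← Polynomial.coe_evalRingHom, map_multiset_prod, Multiset.map_map]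
  intro h0
  rw [Multiset.prod_eq_zero_iff, Multiset.mem_map] at h0
  obtain ⟨x, hx, hx0⟩ := h0
  simp only [Function.comp, Polynomial.coe_evalRingHom] at hx0
  rw [← Polynomial.coeff_zero_eq_eval_zero] at hx0
  have hx1 : x = 0 := (minpoly.coeff_zero_eq_zero (halg x)).1 hx0
  subst hx1
  have h2 := (Polynomial.mem_roots'.1 hx).2
  rw [Polynomial.IsRoot, ← Polynomial.coeff_zero_eq_eval_zero, Polynomial.coeff_map] at h2
  exact hf ((map_eq_zero_iff _ (algebraMap L E).injective).1 h2)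

section rho

variable {ι : Type} [Fintype ι] [DecidableEq ι] (b : Module.Basis ι ℚ L)

/-- the matrix of the multiplication by a power series -/
noncomputable def rho (Y : L⟦X⟧) (i j : ι) : ℚ⟦X⟧ := PowerSeries.mk fun m => Algebra.leftMulMatrix b (coeff m Y) i j

lemma coeff_rho (Y : L⟦X⟧) (i j : ι) (m : ℕ) : coeff m (rho b Y i j) = Algebra.leftMulMatrix b (coeff m Y) i j := by
  rw [rho, coeff_mk]

lemma rho_mul (Y Y' : L⟦X⟧) (i j : ι) : rho b (Y * Y') i j = ∑ k, rho b Y i k * rho b Y' k j := by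
  ext m
  rw [coeff_rho, coeff_mul, map_sum, map_sum, Matrix.sum_apply]
  simp only [coeff_mul, coeff_rho, map_mul, Matrix.mul_apply]
  rw [Finset.sum_comm]

lemma rho_sum {κ : Type} (s : Finset κ) (Y : κ → L⟦X⟧) (i j : ι) :
    rho b (∑ k ∈ s, Y k) i j = ∑ k ∈ s, rho b (Y k) i j := by
  ext m
  rw [coeff_rho, map_sum, map_sum, map_sum, Matrix.sum_apply]
  simp only [coeff_rho]

lemma rho_one (i j : ι) : rho b 1 i j = if i = j then 1 else 0 := by
  ext m
  rw [coeff_rho, coeff_one]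
  split_ifs with h1 h2 h2
  · rw [map_one, h2, Matrix.one_apply_eq, coeff_one, if_pos h1]
  · rw [map_one, Matrix.one_apply_ne h2, map_zero]
  · rw [map_zero, coeff_one, if_neg h1]; rfl
  · rw [map_zero, map_zero]; rfl

lemma rho_zero (i j : ι) : rho b 0 i j = 0 := by
  ext m
  rw [coeff_rho, map_zero, map_zero, map_zero]
  rfl

lemma rho_der (Y : L⟦X⟧) (i j : ι) : d⁄dX ℚ (rho b Y i j) = rho b (d⁄dX L Y) i j := by
  ext m
  rw [coeff_derivative, coeff_rho, coeff_rho, coeff_derivative]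
  have h1 : coeff (m + 1) Y * ((m : L) + 1) = ((m : ℚ) + 1) • coeff (m + 1) Y := by
    rw [Algebra.smul_def]
    simp only [map_add, map_natCast, map_one]
    ring
  rw [h1, map_smul, Matrix.smul_apply, smul_eq_mul, mul_comm]

/-- multiplication by a rational series -/
lemma rho_rat (F : ℚ⟦X⟧) (Y : L⟦X⟧) (i j : ι) : rho b (PowerSeries.map (algebraMap ℚ L) F * Y) i j = F * rho b Y i j := by
  ext m
  rw [coeff_rho, coeff_mul, coeff_mul, map_sum, Matrix.sum_apply]
  refine Finset.sum_congr rfl fun p _ => ?_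
  rw [coeff_map, ← Algebra.smul_def, map_smul, Matrix.smul_apply, smul_eq_mul, coeff_rho]

/-- the matrix of a polynomial -/
noncomputable def rhoP (P : Polynomial L) (i j : ι) : Polynomial ℚ :=
  ∑ m ∈ P.support, Polynomial.monomial m (Algebra.leftMulMatrix b (P.coeff m) i j)

lemma coe_rhoP (P : Polynomial L) (i j : ι) : (rhoP b P i j : ℚ⟦X⟧) = rho b (P : L⟦X⟧) i j := by
  classical
  ext m
  rw [Polynomial.coeff_coe, coeff_rho, Polynomial.coeff_coe, rhoP, Polynomial.finsetSum_coeff]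
  simp only [Polynomial.coeff_monomial]
  rw [Finset.sum_ite_eq']
  split_ifs with h
  · rfl
  · rw [Polynomial.notMem_support_iff.1 h, map_zero]; rfl

/-- a linear form is bounded by the conjugates -/
lemma exists_bound (ℓ : L →ₗ[ℚ] ℚ) : ∃ c : ℝ, 0 ≤ c ∧ ∀ (y : L) (B : ℝ), (∀ φ : L →+* ℂ, ‖φ y‖ ≤ B) →
    |((ℓ y : ℚ) : ℝ)| ≤ c * B := by
  obtain ⟨γ, hγ⟩ : ∃ γ : L, ∀ y, ℓ y = Algebra.trace ℚ L (γ * y) := by
    have hnd : (Algebra.traceForm ℚ L).Nondegenerate := traceForm_nondegenerate ℚ L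
    refine ⟨((Algebra.traceForm ℚ L).toDual hnd).symm ℓ, fun y => ?_⟩
    have := LinearMap.BilinForm.apply_toDual_symm_apply (B := Algebra.traceForm ℚ L) (hB := hnd) ℓ y
    rw [Algebra.traceForm_apply] at this
    exact this.symm
  refine ⟨∑ φ : L →ₐ[ℚ] ℂ, ‖φ γ‖, Finset.sum_nonneg fun _ _ => norm_nonneg _, fun y B hB => ?_⟩
  have h1 := trace_eq_sum_embeddings (K := ℚ) (L := L) ℂ (x := γ * y)
  have h2 : |((ℓ y : ℚ) : ℝ)| = ‖algebraMap ℚ ℂ (Algebra.trace ℚ L (γ * y))‖ := by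
    rw [← hγ, eq_ratCast]
    exact (norm_rat _).symm
  rw [h2, h1, Finset.sum_mul]
  refine (norm_sum_le _ _).trans (Finset.sum_le_sum fun φ _ => ?_)
  rw [map_mul, norm_mul]
  exact mul_le_mul_of_nonneg_left (hB φ.toRingHom) (norm_nonneg _)

/-- the entries of the matrices are G-functions -/
lemma SDc_rho (hb1 : ∀ i, IsIntegral ℤ (b i)) (hb2 : ∀ x : L, IsIntegral ℤ x → ∀ i, ∃ a : ℤ, b.repr x i = a) {Y : L⟦X⟧}
    (hY : GFn Y) (i j : ι) : SDc (rho b Y i j) := by
  obtain ⟨A, h1, h2⟩ := hY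
  have hA1 : 1 ≤ A := GFp.one_le ⟨h1, h2⟩
  obtain ⟨c, hc0, hc⟩ := exists_bound ((b.coord i).comp (LinearMap.mul' ℚ L |>.comp ((TensorProduct.mk ℚ L L).flip (b j))))
  have hval : ∀ x : L, Algebra.leftMulMatrix b x i j =
      ((b.coord i).comp (LinearMap.mul' ℚ L |>.comp ((TensorProduct.mk ℚ L L).flip (b j)))) x := by
    intro x
    rw [Algebra.leftMulMatrix_eq_repr_mul]
    simp
  obtain ⟨n, hn⟩ := pow_unbounded_of_one_lt ((c + 1) * A) (show (1 : ℝ) < 2 by norm_num)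
  have hAn : A ≤ 2 ^ n := by nlinarith
  refine ⟨n, fun m => ?_, fun m => ?_⟩
  · rw [coeff_rho, hval]
    refine (hc _ (A ^ (m + 1)) (fun φ => h1 φ m)).trans ?_
    calc c * A ^ (m + 1) ≤ (c + 1) ^ (m + 1) * A ^ (m + 1) := by
          refine mul_le_mul_of_nonneg_right ?_ (by positivity)
          have : (c + 1) ≤ (c + 1) ^ (m + 1) := le_self_pow₀ (by linarith) (by omega)
          linarith
      _ = ((c + 1) * A) ^ (m + 1) := by rw [mul_pow]
      _ ≤ _ := pow_le_pow_left₀ (by positivity) hn.le _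
  · obtain ⟨d, hd0, hd, hd'⟩ := h2 m
    refine ⟨d, hd0, hd.trans (pow_le_pow_left₀ (by linarith) hAn _), fun l hl => ?_⟩
    obtain ⟨a, ha⟩ := hb2 _ ((hd' l hl).mul (hb1 j)) i
    refine ⟨a, ?_⟩
    rw [coeff_rho, Algebra.leftMulMatrix_eq_repr_mul, ← ha]
    have : (d : L) * coeff l Y * b j = (d : ℚ) • (coeff l Y * b j) := by
      rw [Algebra.smul_def, map_natCast, mul_assoc]
    rw [this, map_smul, Finsupp.smul_apply, smul_eq_mul]

end rho

section restrict

variable {n : ℕ}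

/-- an integral basis indexed by `Fin d` -/
lemma exists_ibasis (L : Type) [Field L] [NumberField L] : ∃ (d : ℕ) (b : Module.Basis (Fin d) ℚ L),
    (∀ i, IsIntegral ℤ (b i)) ∧ ∀ x : L, IsIntegral ℤ x → ∀ i, ∃ a : ℤ, b.repr x i = a := by
  classical
  set b₀ := NumberField.integralBasis L with hb₀
  set e := Fintype.equivFin (Module.Free.ChooseBasisIndex ℤ (NumberField.RingOfIntegers L)) with he
  refine ⟨_, b₀.reindex e, fun i => ?_, fun x hx i => ?_⟩
  · rw [Module.Basis.reindex_apply, hb₀, NumberField.integralBasis_apply]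
    exact NumberField.RingOfIntegers.isIntegral_coe _
  · rw [Module.Basis.repr_reindex_apply]
    obtain ⟨y, hy⟩ : ∃ y : NumberField.RingOfIntegers L, algebraMap (NumberField.RingOfIntegers L) L y = x :=
      ⟨⟨x, hx⟩, rfl⟩
    rw [← hy, hb₀, NumberField.integralBasis_repr_apply]
    exact ⟨_, rfl⟩

/-- the complex value of a power series over `L` -/
noncomputable def VL [Algebra L ℂ] (Y : L⟦X⟧) (z : ℂ) : ℂ := ∑' m : ℕ, algebraMap L ℂ (coeff m Y) * z ^ m

variable [Algebra L ℂ] {d : ℕ} (b : Module.Basis (Fin d) ℚ L)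

/-- the index of the restricted matrix -/
def ix (n d : ℕ) : Fin (n * d) ≃ Fin n × Fin d := finProdFinEquiv.symm

/-- the restricted matrix -/
noncomputable def Zr (Z : Fin n → Fin n → L⟦X⟧) (r s : Fin (n * d)) : ℚ⟦X⟧ :=
  rho b (Z (ix n d r).1 (ix n d s).1) (ix n d r).2 (ix n d s).2

/-- the value in terms of the restricted matrix -/
lemma VL_eq {Y : L⟦X⟧} {z : ℂ} (hY : ∀ i j, SR ‖z‖ (rho b Y i j)) :
    VL Y z = ∑ i, ∑ j, ((b.repr 1 j : ℚ) : ℂ) * algebraMap L ℂ (b i) * Ec (rho b Y i j) z := by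
  have h1 : ∀ x : L, algebraMap L ℂ x = ∑ i, ∑ j, ((b.repr 1 j : ℚ) : ℂ) * algebraMap L ℂ (b i) *
      ((Algebra.leftMulMatrix b x i j : ℚ) : ℂ) := by
    intro x
    have e1 : x = ∑ j, b.repr 1 j • ∑ i, Algebra.leftMulMatrix b x i j • b i := by
      have e2 : ∀ j, ∑ i, Algebra.leftMulMatrix b x i j • b i = x * b j := by
        intro j
        simp only [Algebra.leftMulMatrix_eq_repr_mul]
        exact b.sum_repr (x * b j)
      calc x = x * 1 := (mul_one x).symm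
        _ = x * ∑ j, b.repr 1 j • b j := by rw [b.sum_repr]
        _ = _ := by
          rw [Finset.mul_sum]
          refine Finset.sum_congr rfl fun j _ => ?_
          rw [e2, mul_smul_comm]
    conv_lhs => rw [e1]
    simp only [map_sum, Finset.smul_sum]
    rw [Finset.sum_comm]
    refine Finset.sum_congr rfl fun i _ => Finset.sum_congr rfl fun j _ => ?_
    simp only [Algebra.smul_def, map_mul, eq_ratCast, map_ratCast]
    ring
  have h2 : HasSum (fun m : ℕ => ∑ i, ∑ j, ((b.repr 1 j : ℚ) : ℂ) * algebraMap L ℂ (b i) *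
      (((coeff m (rho b Y i j) : ℚ) : ℂ) * z ^ m))
      (∑ i, ∑ j, ((b.repr 1 j : ℚ) : ℂ) * algebraMap L ℂ (b i) * Ec (rho b Y i j) z) :=
    hasSum_sum fun i _ => hasSum_sum fun j _ => (hasSum_Ec (hY i j) le_rfl).mul_left _
  rw [← h2.tsum_eq]
  unfold VL
  refine tsum_congr fun m => ?_
  rw [h1, Finset.sum_mul]
  refine Finset.sum_congr rfl fun i _ => ?_
  rw [Finset.sum_mul]
  refine Finset.sum_congr rfl fun j _ => ?_
  rw [coeff_rho]
  ring

/-- **Restriction of scalars.** -/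
theorem DatL.res {f : Polynomial L} {A : Fin n → Fin n → Polynomial L} {Z W : Fin n → Fin n → L⟦X⟧}
    (h : DatL f A Z W) (hb1 : ∀ i, IsIntegral ℤ (b i))
    (hb2 : ∀ x : L, IsIntegral ℤ x → ∀ i, ∃ a : ℤ, b.repr x i = a) :
    ∃ (F : Polynomial ℚ) (B : Fin (n * d) → Fin (n * d) → Polynomial ℚ), Dat F B (Zr b Z) (Zr b W) := by
  classical
  obtain ⟨F, g, hF0, hFg⟩ := exists_rat_mult f h.reg
  refine ⟨F, fun r s => rhoP b (g * A (ix n d r).1 (ix n d s).1) (ix n d r).2 (ix n d s).2, hF0, fun r s => ?_,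
    fun r s => ?_, fun r s => ?_, fun r s => ?_⟩
  · unfold Zr
    rw [rho_der]
    have h1 : PowerSeries.map (algebraMap ℚ L) (F : ℚ⟦X⟧) * PowerSeries.derivative L (Z (ix n d r).1 (ix n d s).1) =
        ∑ k, Z (ix n d r).1 k * ((g * A k (ix n d s).1 : Polynomial L) : L⟦X⟧) := by
      have e1 : PowerSeries.map (algebraMap ℚ L) (F : ℚ⟦X⟧) = ((F.map (algebraMap ℚ L) : Polynomial L) : L⟦X⟧) :=
        (Polynomial.polynomial_map_coe).symm
      rw [e1, hFg, Polynomial.coe_mul, mul_assoc, h.sys, Finset.mul_sum]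
      refine Finset.sum_congr rfl fun k _ => ?_
      rw [Polynomial.coe_mul]
      ring
    rw [← rho_rat, h1, rho_sum, ← (ix n d).symm.sum_comp, Fintype.sum_prod_type]
    refine Finset.sum_congr rfl fun k _ => ?_
    rw [rho_mul]
    refine Finset.sum_congr rfl fun l _ => ?_
    simp only [Equiv.apply_symm_apply, coe_rhoP]
  · unfold Zr
    rw [← (ix n d).symm.sum_comp, Fintype.sum_prod_type]
    simp only [Equiv.apply_symm_apply]
    have h1 : ∀ k, ∑ l, rho b (W (ix n d r).1 k) (ix n d r).2 l * rho b (Z k (ix n d s).1) l (ix n d s).2 =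
        rho b (W (ix n d r).1 k * Z k (ix n d s).1) (ix n d r).2 (ix n d s).2 := fun k => (rho_mul b _ _ _ _).symm
    rw [Finset.sum_congr rfl fun k _ => h1 k, ← rho_sum, h.inv]
    by_cases hrs : r = s
    · subst hrs
      rw [if_pos rfl, if_pos rfl, rho_one, if_pos rfl]
    · rw [if_neg hrs]
      split_ifs with h2
      · rw [rho_one, if_neg]
        intro h3
        exact hrs ((ix n d).injective (Prod.ext h2 h3))
      · exact rho_zero b _ _
  · exact SDc_rho b hb1 hb2 (h.gZ _ _) _ _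
  · exact SDc_rho b hb1 hb2 (h.gW _ _) _ _

end restrict

section final

variable {n k : ℕ} {ι : Type} [Fintype ι] [Algebra L ℂ]

/-- the functions: linear combinations, with arbitrary constant coefficients, of `1` and of the entries of `Z`, at every
place `l` -/
noncomputable def ptL (lam : Fin k → ι → Option (Fin n × Fin n) → ℂ) (Z : Fin n → Fin n → L⟦X⟧) (z : Fin k → ℂ)
    (p : Fin k × ι) : ℂ := ∑ q, lam p.1 p.2 q * q.elim 1 fun q => VL (Z q.1 q.2) (z p.1)

omit [Fintype ι] in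
/-- the functions in terms of the restricted matrix -/
lemma ptL_eq {f : Polynomial L} {A : Fin n → Fin n → Polynomial L} {Z W : Fin n → Fin n → L⟦X⟧}
    (h : DatL f A Z W) (lam : Fin k → ι → Option (Fin n × Fin n) → ℂ) :
    ∃ (n' : ℕ) (F : Polynomial ℚ) (B : Fin n' → Fin n' → Polynomial ℚ) (Z' W' : Fin n' → Fin n' → ℚ⟦X⟧)
      (lam' : Fin k → ι → Option (Fin n' × Fin n') → ℂ) (r : ℝ), Dat F B Z' W' ∧ 0 < r ∧
      ∀ z : Fin k → ℂ, (∀ l, ‖z l‖ < r) → ptL lam Z z = pt lam' Z' z := by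
  classical
  obtain ⟨d, b, hb1, hb2⟩ := exists_ibasis L
  obtain ⟨F, B, hD⟩ := h.res b hb1 hb2
  obtain ⟨C, hC, hCZ, -⟩ := hD.bound
  have hC0 : 0 < C := by linarith
  refine ⟨n * d, F, B, Zr b Z, Zr b W, fun l i q => q.elim (lam l i none) fun q =>
    lam l i (some ((ix n d q.1).1, (ix n d q.2).1)) *
      (((b.repr 1 (ix n d q.2).2 : ℚ) : ℂ) * algebraMap L ℂ (b (ix n d q.1).2)), 1 / C, hD, by positivity,
    fun z hz => ?_⟩
  funext p
  unfold ptL pt
  rw [Fintype.sum_option, Fintype.sum_option]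
  simp only [Option.elim_none, Option.elim_some, mul_one]
  congr 1
  rw [Fintype.sum_prod_type, Fintype.sum_prod_type, ← (ix n d).symm.sum_comp, Fintype.sum_prod_type]
  refine Finset.sum_congr rfl fun i _ => ?_
  have h1 : ∀ i₀ : Fin d, ∑ y : Fin (n * d), lam p.1 p.2 (some (i, (ix n d y).1)) *
      (((b.repr 1 (ix n d y).2 : ℚ) : ℂ) * algebraMap L ℂ (b i₀)) *
      zc (Zr b Z) (z p.1) ((ix n d).symm (i, i₀), y) =
      ∑ j, ∑ j₀, lam p.1 p.2 (some (i, j)) * (((b.repr 1 j₀ : ℚ) : ℂ) * algebraMap L ℂ (b i₀)) *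
        Ec (rho b (Z i j) i₀ j₀) (z p.1) := by
    intro i₀
    rw [← (ix n d).symm.sum_comp, Fintype.sum_prod_type]
    refine Finset.sum_congr rfl fun j _ => Finset.sum_congr rfl fun j₀ _ => ?_
    simp only [zc, Zr, Equiv.apply_symm_apply]
  simp only [Equiv.apply_symm_apply] at h1 ⊢
  rw [Finset.sum_congr rfl fun i₀ _ => h1 i₀, Finset.sum_comm]
  refine Finset.sum_congr rfl fun j _ => ?_
  rw [VL_eq b (Y := Z i j) (z := z p.1) (fun i₀ j₀ => ?_), Finset.mul_sum]
  · refine Finset.sum_congr rfl fun i₀ _ => ?_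
    rw [Finset.mul_sum]
    exact Finset.sum_congr rfl fun j₀ _ => by ring
  · have h2 := hCZ ((ix n d).symm (i, i₀)) ((ix n d).symm (j, j₀))
    simp only [Zr, Equiv.apply_symm_apply] at h2
    exact sr_c hC h2 (hz p.1)

/-- a relation depends only on the functions near `0` -/
lemma SpecK.congr {K : Type} [Field K] [Algebra K ℂ] {τ : Type} {p p' : (Fin k → ℂ) → τ → ℂ} {r : ℝ} {δ : ℕ}
    {m : Fin k → ℕ} (hp : ∀ z : Fin k → ℂ, (∀ l, ‖z l‖ < r) → p z = p' z) (hm : ∀ l, 1 / (m l : ℝ) < r)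
    (h : SpecK K p' r δ m) : SpecK K p r δ m := by
  have hz : ∀ l, ‖(1 / (m l : ℂ))‖ < r := by
    intro l
    have := hm l
    rwa [norm_div, norm_one, Complex.norm_natCast]
  intro P hP h0
  rw [hp _ hz] at h0
  obtain ⟨G, h1, h2, h3⟩ := h P hP h0
  exact ⟨G, h1, fun z hz' => by rw [hp z hz']; exact h2 z hz', h3⟩

open Classical in
/-- **Counting**, over number fields -/
theorem specL_count {f : Polynomial L} {A : Fin n → Fin n → Polynomial L} {Z W : Fin n → Fin n → L⟦X⟧}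
    (h : DatL f A Z W) (lam : Fin k → ι → Option (Fin n × Fin n) → ℂ)
    (K : Type) [Field K] [NumberField K] [Algebra K ℂ] (δ : ℕ) {r₀ : ℝ} (hr₀ : 0 < r₀) :
    ∃ r : ℝ, 0 < r ∧ r ≤ r₀ ∧ ∃ c : ℝ, 0 < c ∧ ∃ C : ℝ, ∀ T : ℕ, 1 ≤ T →
      (((Fintype.piFinset fun _ : Fin k => Finset.Icc 2 T).filter fun m =>
        ¬ ((∀ l, 1 / (m l : ℝ) < r) ∧ SpecK K (ptL lam Z) r δ m)).card : ℝ) ≤ C * (T : ℝ) ^ ((k : ℝ) - c) := by
  obtain ⟨n', F, B, Z', W', lam', r₁, hD, hr₁, heq⟩ := ptL_eq h lam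
  obtain ⟨r, hr, hrr, c, hc, C, hC⟩ := spec_count hD lam' K δ (lt_min hr₀ hr₁)
  refine ⟨r, hr, hrr.trans (min_le_left _ _), c, hc, C, fun T hT => le_trans ?_ (hC T hT)⟩
  refine Nat.cast_le.2 (Finset.card_le_card fun m hm => ?_)
  obtain ⟨hm1, hm2⟩ := Finset.mem_filter.1 hm
  refine Finset.mem_filter.2 ⟨hm1, fun hh => hm2 ⟨hh.1, ?_⟩⟩
  exact SpecK.congr (fun z hz => heq z fun l => (hz l).trans_le (hrr.trans (min_le_right _ _))) hh.1 hh.2

/-- **Windows**, over number fields -/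
theorem specL_win {f : Polynomial L} {A : Fin n → Fin n → Polynomial L} {Z W : Fin n → Fin n → L⟦X⟧}
    (h : DatL f A Z W) (lam : Fin 1 → ι → Option (Fin n × Fin n) → ℂ)
    (K : Type) [Field K] [NumberField K] [Algebra K ℂ] (δ : ℕ) {r₀ : ℝ} (hr₀ : 0 < r₀) :
    ∃ r : ℝ, 0 < r ∧ r ≤ r₀ ∧ ∃ c : ℝ, 0 < c ∧ ∃ M : ℕ, ∀ N : ℕ, 1 ≤ N → ∃ S : Finset ℕ, S.card ≤ M ∧
      ∀ m : ℕ, N ≤ m → (m : ℝ) ≤ N + (N : ℝ) ^ c → m ∉ S →
        1 / (m : ℝ) < r ∧ SpecK K (ptL lam Z) r δ (fun _ => m) := by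
  obtain ⟨n', F, B, Z', W', lam', r₁, hD, hr₁, heq⟩ := ptL_eq h lam
  obtain ⟨r, hr, hrr, c, hc, M, hM⟩ := spec_win hD lam' K δ (lt_min hr₀ hr₁)
  refine ⟨r, hr, hrr.trans (min_le_left _ _), c, hc, M, fun N hN => ?_⟩
  obtain ⟨S, hS, hS'⟩ := hM N hN
  refine ⟨S, hS, fun m h1 h2 h3 => ?_⟩
  obtain ⟨h4, h5⟩ := hS' m h1 h2 h3
  exact ⟨h4, SpecK.congr (fun z hz => heq z fun l => (hz l).trans_le (hrr.trans (min_le_right _ _))) (fun _ => h4) h5⟩

end final

end Pool.Agent.Y921.DB
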