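import Pool.Agent.Y921.DB.Ker
import Pool.Agent.Y921.DB.Nd
import Pool.Agent.Y921.DB.Cv

/-!
# Relations over a number field are specialisations of functional relations over the same field
-/

set_option autoImplicit false

open PowerSeries

namespace Pool.Agent.Y921.DB

open Pool.Agent.Y113 Pool.Agent.Y113.GG Pool.Agent.Y37.GF Pool.Agent.Y118.HG

variable {n k δ : ℕ} {ι : Type}

/-- the functions: linear combinations, with arbitrary constant coefficients, of `1` and of the entries of `Z`, at every
place `l` -/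
noncomputable def pt (lam : Fin k → ι → Option (Fin n × Fin n) → ℂ) (Z : Fin n → Fin n → ℚ⟦X⟧) (z : Fin k → ℂ)
    (p : Fin k × ι) : ℂ := ∑ q, lam p.1 p.2 q * q.elim 1 (zc Z (z p.1))

/-- every relation over `K` of degree `≤ δ` between the values of `p` at `1 / m` is the specialisation of a functional
relation over `K` -/
def SpecK (K : Type) [Field K] [Algebra K ℂ] {τ : Type} (p : (Fin k → ℂ) → τ → ℂ) (r : ℝ) (δ : ℕ) (m : Fin k → ℕ) :
    Prop :=
  ∀ P : MvPolynomial τ K, P.totalDegree ≤ δ → MvPolynomial.aeval (p fun l => 1 / (m l : ℂ)) P = 0 →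
    ∃ G : MvPolynomial τ (MvPolynomial (Fin k) K), G.totalDegree ≤ δ ∧
      (∀ z : Fin k → ℂ, (∀ l, ‖z l‖ < r) → G.eval₂ (MvPolynomial.aeval z : MvPolynomial (Fin k) K →ₐ[K] ℂ).toRingHom
        (p z) = 0) ∧
      G.map (MvPolynomial.eval fun l => 1 / (m l : K)) = P

section words

variable {K : Type} [Field K] {τ : Type} [Fintype τ]

/-- a polynomial of degree `≤ δ` is a combination of words -/
lemma exists_f (P : MvPolynomial τ K) (hP : P.totalDegree ≤ δ) : ∃ f : (Fin δ → Option τ) → K,
    ∀ (R : Type) [CommRing R] [Algebra K R] (y : τ → R),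
      MvPolynomial.aeval y P = ∑ w, algebraMap K R (f w) * wv y w := by
  classical
  have h : ∀ μ : τ →₀ ℕ, ∃ h : Fin δ → Option τ,
      μ ∈ P.support → ∀ (M : Type) [CommMonoid M] (z : τ → M), wv z h = ∏ i, z i ^ μ i := by
    intro μ
    by_cases hμ : μ ∈ P.support
    · have h1 := (MvPolynomial.le_totalDegree hμ).trans hP
      rw [Finsupp.sum_fintype _ _ (fun _ => rfl)] at h1
      obtain ⟨h, hh⟩ := exists_wv δ (fun i => μ i) h1
      exact ⟨h, fun _ => hh⟩
    · exact ⟨fun _ => none, fun h => absurd h hμ⟩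
  choose H hH using h
  refine ⟨fun w => ∑ μ ∈ P.support, if H μ = w then P.coeff μ else 0, fun R _ _ y => ?_⟩
  rw [MvPolynomial.aeval_def, MvPolynomial.eval₂_eq']
  simp only [map_sum, Finset.sum_mul]
  rw [Finset.sum_comm]
  refine Finset.sum_congr rfl fun μ hμ => ?_
  rw [Finset.sum_eq_single (H μ)]
  · rw [if_pos rfl, hH μ hμ]
  · intro w _ hw
    rw [if_neg (Ne.symm hw), map_zero, zero_mul]
  · intro hh; exact absurd (Finset.mem_univ _) hh

omit [Fintype τ] in
lemma degree_wv {S : Type} [CommRing S] (w : Fin δ → Option τ) :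
    (wv (fun i => (MvPolynomial.X i : MvPolynomial τ S)) w).totalDegree ≤ δ := by
  unfold wv
  refine (MvPolynomial.totalDegree_finsetProd _ _).trans ?_
  have h1 : ∀ a ∈ (Finset.univ : Finset (Fin δ)),
      ((w a).elim (1 : MvPolynomial τ S) fun i => MvPolynomial.X i).totalDegree ≤ 1 := by
    intro a _
    rcases w a with _ | i
    · simp
    · rcases subsingleton_or_nontrivial S with h | h
      · have : (MvPolynomial.X i : MvPolynomial τ S) = 0 := Subsingleton.elim _ _
        simp [this]
      · simp [MvPolynomial.totalDegree_X]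
  refine (Finset.sum_le_card_nsmul _ _ 1 h1).trans ?_
  simp

end words

section expand

variable {K : Type} [Field K] [Algebra K ℂ]

/-- finitely many polynomials over `ℂ` in terms of polynomials over `K` and constants independent over `K` -/
lemma exists_expand {α : Type} [Fintype α] (P : α → MvPolynomial (Fin k) ℂ) :
    ∃ (r : ℕ) (v : Fin r → ℂ) (R : Fin r → α → MvPolynomial (Fin k) K), LinearIndependent K v ∧
      ∀ a, P a = ∑ i, MvPolynomial.C (v i) * (R i a).map (algebraMap K ℂ) := by
  classical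
  set S : Set ℂ := ⋃ a, (fun s => (P a).coeff s) '' ((P a).support : Set (Fin k →₀ ℕ)) with hS
  have hfin : S.Finite := Set.finite_iUnion fun a => ((P a).support.finite_toSet.image _)
  set U := Submodule.span K S with hU
  have : Module.Finite K U := Module.Finite.span_of_finite K hfin
  set b := Module.finBasis K U with hb
  have hmem : ∀ a s, (P a).coeff s ∈ U := by
    intro a s
    by_cases h : s ∈ (P a).support
    · exact Submodule.subset_span (Set.mem_iUnion.2 ⟨a, s, h, rfl⟩)
    · rw [MvPolynomial.notMem_support_iff.1 h]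
      exact U.zero_mem
  refine ⟨_, fun i => (b i : ℂ), fun i a => ∑ s ∈ (P a).support, MvPolynomial.monomial s (b.repr ⟨_, hmem a s⟩ i), ?_, ?_⟩
  · exact b.linearIndependent.map' U.subtype (Submodule.ker_subtype U)
  · intro a
    have h1 : ∀ i, MvPolynomial.C (b i : ℂ) * (∑ s ∈ (P a).support,
        MvPolynomial.monomial s (b.repr ⟨_, hmem a s⟩ i)).map (algebraMap K ℂ) =
        ∑ s ∈ (P a).support, MvPolynomial.monomial s (algebraMap K ℂ (b.repr ⟨_, hmem a s⟩ i) * (b i : ℂ)) := by
      intro i
      rw [map_sum, Finset.mul_sum]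
      refine Finset.sum_congr rfl fun s _ => ?_
      rw [MvPolynomial.map_monomial, MvPolynomial.C_mul_monomial, mul_comm]
    rw [Finset.sum_congr rfl fun i _ => h1 i, Finset.sum_comm]
    conv_lhs => rw [(P a).as_sum]
    refine Finset.sum_congr rfl fun s _ => ?_
    rw [← map_sum]
    congr 1
    have h2 := b.sum_repr ⟨_, hmem a s⟩
    have h3 := congrArg (fun x : U => (x : ℂ)) h2
    simp only [Submodule.coe_sum, Submodule.coe_smul] at h3
    refine h3.symm.trans (Finset.sum_congr rfl fun i _ => ?_)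
    rw [Algebra.smul_def]

end expand

section main

variable {Z : Fin n → Fin n → ℚ⟦X⟧} (b : Bas Z δ) (lam : Fin k → ι → Option (Fin n × Fin n) → ℂ)

/-- the coefficients of the words -/
noncomputable def cc (l : Fin k) (h : Fin δ → Option ι) (g : Fin δ → Option (Fin n × Fin n)) : ℂ :=
  ∏ a, (h a).elim (if g a = none then 1 else 0) fun i => lam l i (g a)

/-- the coefficients in terms of the basis words -/
noncomputable def al (w : Fin δ → Option (Fin k × ι)) (e : Fin k → b.s) : MvPolynomial (Fin k) ℂ :=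
  ∏ l, ∑ g, MvPolynomial.C (cc lam l (rs w l) g) * Polynomial.aeval (MvPolynomial.X l) (b.N g (e l))

lemma aeval_XN {S T : Type} [CommRing S] [CommRing T] [Algebra S T] (Q : Polynomial ℤ) (z : Fin k → T) (l : Fin k) :
    MvPolynomial.aeval z (Polynomial.aeval (MvPolynomial.X l : MvPolynomial (Fin k) S) Q) = Polynomial.aeval (z l) Q := by
  have h1 := Polynomial.aeval_algHom_apply ((MvPolynomial.aeval z : MvPolynomial (Fin k) S →ₐ[S] T).toRingHom.toIntAlgHom)
    (MvPolynomial.X l) Q
  have h2 : ((MvPolynomial.aeval z : MvPolynomial (Fin k) S →ₐ[S] T).toRingHom.toIntAlgHom) (MvPolynomial.X l) = z l := by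
    simp
  rw [h2] at h1
  exact h1.symm

lemma dw {C : ℝ} (hC : 1 ≤ C) (hZ : ∀ i j m, |((coeff m (Z i j) : ℚ) : ℝ)| ≤ C ^ (m + 1))
    (w : Fin δ → Option (Fin k × ι)) {z : Fin k → ℂ} (hz : ∀ l, ‖z l‖ < 1 / C) :
    (∏ l, Polynomial.aeval (z l) b.D) * wv (pt lam Z z) w =
      ∑ e, MvPolynomial.aeval z (al b lam w e) *
        ∏ l, wv (zc Z (z l)) (e l : Fin δ → Option (Fin n × Fin n)) := by
  classical
  rw [wv_rs, ← Finset.prod_mul_distrib]
  have h1 : ∀ l, Polynomial.aeval (z l) b.D * wv (fun i => pt lam Z z (l, i)) (rs w l) =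
      ∑ j : b.s, (∑ g, cc lam l (rs w l) g * Polynomial.aeval (z l) (b.N g j)) *
        wv (zc Z (z l)) (j : Fin δ → Option (Fin n × Fin n)) := by
    intro l
    have h2 : wv (fun i => pt lam Z z (l, i)) (rs w l) = _ := wv_lin (lam l) (zc Z (z l)) (rs w l)
    rw [h2, Finset.mul_sum]
    have h3 : ∀ g : Fin δ → Option (Fin n × Fin n), Polynomial.aeval (z l) b.D *
        ((∏ a, (rs w l a).elim (if g a = none then 1 else 0) fun i => lam l i (g a)) * wv (zc Z (z l)) g) =
        ∑ j : b.s, cc lam l (rs w l) g * Polynomial.aeval (z l) (b.N g j) *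
          wv (zc Z (z l)) (j : Fin δ → Option (Fin n × Fin n)) := by
      intro g
      have h4 := red_vc hC hZ b g (hz l)
      calc _ = cc lam l (rs w l) g * (Polynomial.aeval (z l) b.D * wv (zc Z (z l)) g) := by
            unfold cc; ring
        _ = _ := by
            rw [h4, Finset.mul_sum]
            exact Finset.sum_congr rfl fun j _ => by ring
    rw [Finset.sum_congr rfl fun g _ => h3 g, Finset.sum_comm]
    exact Finset.sum_congr rfl fun j _ => (Finset.sum_mul _ _ _).symm
  rw [Finset.prod_congr rfl fun l _ => h1 l, Finset.prod_univ_sum, Fintype.piFinset_univ]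
  refine Finset.sum_congr rfl fun e _ => ?_
  rw [Finset.prod_mul_distrib]
  congr 1
  unfold al
  rw [map_prod]
  refine Finset.prod_congr rfl fun l _ => ?_
  rw [map_sum]
  refine Finset.sum_congr rfl fun g _ => ?_
  rw [map_mul, aeval_XN, MvPolynomial.aeval_C]
  rfl

variable (K : Type) [Field K] [NumberField K] [Algebra K ℂ] [Fintype ι]

/-- **The main lemma.** -/
theorem spec_main {C : ℝ} (hC : 1 ≤ C) (hZ : ∀ i j m, |((coeff m (Z i j) : ℚ) : ℝ)| ≤ C ^ (m + 1)) :
    ∃ V : Submodule ℚ ℂ, Module.Finite ℚ V ∧ ∃ Δ : MvPolynomial (Fin k) K, Δ ≠ 0 ∧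
      ∀ m : Fin k → ℕ, (∀ l, C < m l) → Nd b V m → MvPolynomial.eval (fun l => 1 / (m l : K)) Δ ≠ 0 →
        SpecK K (pt lam Z) (1 / C) δ m := by
  classical
  obtain ⟨r, v, R, hv, hR⟩ := exists_expand (K := K)
    (fun p : (Fin δ → Option (Fin k × ι)) × (Fin k → b.s) => al b lam p.1 p.2)
  obtain ⟨Δ, hΔ, hker⟩ := ker_spec (fun (w : Fin δ → Option (Fin k × ι)) (j : Fin r × (Fin k → b.s)) => R j.1 (w, j.2))
  set dD : MvPolynomial (Fin k) K := ∏ l, Polynomial.aeval (MvPolynomial.X l) b.D with hdD
  have hXD : ∀ l : Fin k, (Polynomial.aeval (MvPolynomial.X l : MvPolynomial (Fin k) K) b.D) ≠ 0 := by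
    intro l h0
    have h1 := congrArg (MvPolynomial.aeval (fun _ : Fin k => (Polynomial.X : Polynomial K))) h0
    rw [aeval_XN, map_zero] at h1
    have h2 : ∀ φ : ℤ →+* Polynomial K, Polynomial.eval₂ φ Polynomial.X b.D = b.D.map (Int.castRingHom K) := by
      intro φ
      have : φ = Polynomial.C.comp (Int.castRingHom K) := Subsingleton.elim _ _
      rw [this]
      rfl
    rw [Polynomial.aeval_def, h2] at h1
    exact b.hD ((Polynomial.map_eq_zero_iff (RingHom.injective_int _)).1 h1)
  have hdD0 : dD ≠ 0 := Finset.prod_ne_zero_iff.2 fun l _ => hXD l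
  set V : Submodule ℚ ℂ := (Submodule.span K (Set.range v)).restrictScalars ℚ with hV
  refine ⟨V, ?_, Δ * dD, mul_ne_zero hΔ hdD0, fun m hm hN hΔm P hPd hP => ?_⟩
  · have : Module.Finite K (Submodule.span K (Set.range v)) := Module.Finite.span_of_finite K (Set.finite_range v)
    have : IsScalarTower ℚ K (Submodule.span K (Set.range v)) := inferInstance
    exact (Module.Finite.trans K (Submodule.span K (Set.range v)) : Module.Finite ℚ (Submodule.span K (Set.range v)))
  rw [map_mul] at hΔm
  have hΔ1 := left_ne_zero_of_mul hΔm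
  have hρ := right_ne_zero_of_mul hΔm
  set ρ : K := MvPolynomial.eval (fun l => 1 / (m l : K)) dD with hρdef
  set z : Fin k → ℂ := fun l => 1 / (m l : ℂ) with hz
  have hm0 : ∀ l, (0 : ℝ) < m l := fun l => lt_trans (by linarith) (hm l)
  have hzC : ∀ l, ‖z l‖ < 1 / C := by
    intro l
    rw [hz]
    simp only [norm_div, norm_one, Complex.norm_natCast]
    exact one_div_lt_one_div_of_lt (by linarith) (hm l)
  have hzK : ∀ Q : MvPolynomial (Fin k) K, MvPolynomial.aeval z Q =
      algebraMap K ℂ (MvPolynomial.eval (fun l => 1 / (m l : K)) Q) := by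
    intro Q
    have h1 : z = algebraMap K ℂ ∘ fun l => (1 / (m l : K)) := by
      funext l
      simp [hz]
    rw [h1, MvPolynomial.aeval_algebraMap_apply]
    rfl
  -- expansion
  have hexp : ∀ (x : Fin k → ℂ), (∀ l, ‖x l‖ < 1 / C) → ∀ w : Fin δ → Option (Fin k × ι),
      MvPolynomial.aeval x dD * wv (pt lam Z x) w = ∑ e, (∑ i, v i * MvPolynomial.aeval x (R i (w, e))) *
        ∏ l, wv (zc Z (x l)) (e l : Fin δ → Option (Fin n × Fin n)) := by
    intro x hx w
    have h1 : MvPolynomial.aeval x dD = ∏ l, Polynomial.aeval (x l) b.D := by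
      rw [hdD, map_prod]
      exact Finset.prod_congr rfl fun l _ => aeval_XN _ _ _
    rw [h1, dw b lam hC hZ w hx]
    refine Finset.sum_congr rfl fun e _ => ?_
    congr 1
    rw [hR (w, e), map_sum]
    refine Finset.sum_congr rfl fun i _ => ?_
    rw [map_mul, MvPolynomial.aeval_C, MvPolynomial.aeval_map_algebraMap]
    rfl
  obtain ⟨f, hf⟩ := exists_f P hPd
  -- the linear relations
  have hc : ∀ e : Fin k → b.s, ∑ i, v i * algebraMap K ℂ (∑ w, f w *
      MvPolynomial.eval (fun l => 1 / (m l : K)) (R i (w, e))) = 0 := by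
    have hsum : ∑ e : Fin k → b.s, (∑ i, v i * algebraMap K ℂ (∑ w, f w *
        MvPolynomial.eval (fun l => 1 / (m l : K)) (R i (w, e)))) *
        ∏ l, wv (zv Z (m l)) (e l : Fin δ → Option (Fin n × Fin n)) = 0 := by
      have h1 : MvPolynomial.aeval z dD * MvPolynomial.aeval (pt lam Z z) P = 0 := by
        have : MvPolynomial.aeval (pt lam Z z) P = 0 := hP
        rw [this, mul_zero]
      rw [hf, Finset.mul_sum] at h1
      rw [← h1]
      have h2 : ∀ w, MvPolynomial.aeval z dD * (algebraMap K ℂ (f w) * wv (pt lam Z z) w) =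
          ∑ e, (∑ i, v i * algebraMap K ℂ (f w * MvPolynomial.eval (fun l => 1 / (m l : K)) (R i (w, e)))) *
        ∏ l, wv (zv Z (m l)) (e l : Fin δ → Option (Fin n × Fin n)) := by
        intro w
        calc _ = algebraMap K ℂ (f w) * (MvPolynomial.aeval z dD * wv (pt lam Z z) w) := by ring
          _ = _ := by
            rw [hexp z hzC w, Finset.mul_sum]
            refine Finset.sum_congr rfl fun e _ => ?_
            rw [← mul_assoc, Finset.mul_sum]
            congr 1
            · refine Finset.sum_congr rfl fun i _ => ?_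
              rw [hzK, map_mul]
              ring
            · refine Finset.prod_congr rfl fun l _ => ?_
              have h3 : zv Z (m l) = zc Z (z l) := by
                funext p
                rw [zv_eq]
                simp [hz]
              rw [h3]
      rw [Finset.sum_congr rfl fun w _ => h2 w, Finset.sum_comm]
      refine Finset.sum_congr rfl fun e _ => ?_
      rw [← Finset.sum_mul]
      congr 1
      rw [Finset.sum_comm]
      refine Finset.sum_congr rfl fun i _ => ?_
      rw [map_sum, Finset.mul_sum]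
    have h4 := hN _ (fun e => by
      show _ ∈ Submodule.span K (Set.range v)
      refine Submodule.sum_mem _ fun i _ => ?_
      rw [mul_comm, ← Algebra.smul_def]
      exact Submodule.smul_mem _ _ (Submodule.subset_span ⟨i, rfl⟩)) hsum
    exact fun e => congrFun h4 e
  obtain ⟨g, hg1, hg2⟩ := hker K MvPolynomial.C (MvPolynomial.eval fun l => 1 / (m l : K))
    (by ext x; simp) hΔ1 f (fun j => by
      have h1 := hc j.2
      have h2 := Fintype.linearIndependent_iff.1 hv (fun i => ∑ w, f w *
        MvPolynomial.eval (fun l => 1 / (m l : K)) (R i (w, j.2))) (by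
          rw [← h1]
          refine Finset.sum_congr rfl fun i _ => ?_
          rw [Algebra.smul_def, mul_comm]) j.1
      exact h2)
  refine ⟨∑ w, MvPolynomial.C (MvPolynomial.C ρ⁻¹ * dD * g w) * wv (fun i => MvPolynomial.X i) w, ?_, fun x hx => ?_, ?_⟩
  · refine MvPolynomial.totalDegree_finsetSum_le fun w _ => ?_
    refine (MvPolynomial.totalDegree_mul _ _).trans ?_
    rw [MvPolynomial.totalDegree_C, zero_add]
    exact degree_wv w
  · rw [MvPolynomial.eval₂_sum]
    have h1 : ∀ w, MvPolynomial.eval₂ (MvPolynomial.aeval x : MvPolynomial (Fin k) K →ₐ[K] ℂ).toRingHom (pt lam Z x)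
        (MvPolynomial.C (MvPolynomial.C ρ⁻¹ * dD * g w) * wv (fun i => MvPolynomial.X i) w) =
        ∑ e, ∑ i, (algebraMap K ℂ ρ⁻¹ * v i * MvPolynomial.aeval x (g w * R i (w, e))) *
          ∏ l, wv (zc Z (x l)) (e l : Fin δ → Option (Fin n × Fin n)) := by
      intro w
      rw [MvPolynomial.eval₂_mul, MvPolynomial.eval₂_C]
      have h2 : MvPolynomial.eval₂ (MvPolynomial.aeval x : MvPolynomial (Fin k) K →ₐ[K] ℂ).toRingHom (pt lam Z x)
          (wv (fun i => MvPolynomial.X i) w) = wv (pt lam Z x) w := by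
        have := map_wv (MvPolynomial.eval₂Hom (MvPolynomial.aeval x : MvPolynomial (Fin k) K →ₐ[K] ℂ).toRingHom
          (pt lam Z x)) (fun i => (MvPolynomial.X i : MvPolynomial (Fin k × ι) (MvPolynomial (Fin k) K))) w
        rw [MvPolynomial.coe_eval₂Hom] at this
        rw [this]
        congr 1
        funext i
        exact MvPolynomial.eval₂_X _ _ _
      rw [h2]
      calc _ = algebraMap K ℂ ρ⁻¹ * MvPolynomial.aeval x (g w) * (MvPolynomial.aeval x dD * wv (pt lam Z x) w) := by
            show MvPolynomial.aeval x (MvPolynomial.C ρ⁻¹ * dD * g w) * wv (pt lam Z x) w = _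
            rw [map_mul, map_mul, MvPolynomial.aeval_C]
            ring
        _ = _ := by
            rw [hexp x hx w, Finset.mul_sum]
            refine Finset.sum_congr rfl fun e _ => ?_
            rw [← mul_assoc, Finset.mul_sum, Finset.sum_mul]
            refine Finset.sum_congr rfl fun i _ => ?_
            rw [map_mul]
            ring
    rw [Finset.sum_congr rfl fun w _ => h1 w, Finset.sum_comm]
    refine Finset.sum_eq_zero fun e _ => ?_
    rw [Finset.sum_comm]
    refine Finset.sum_eq_zero fun i _ => ?_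
    have h5 : ∑ w, MvPolynomial.aeval x (g w * R i (w, e)) = 0 := by
      rw [← map_sum, hg1 (i, e), map_zero]
    have h6 : ∑ w, algebraMap K ℂ ρ⁻¹ * v i * MvPolynomial.aeval x (g w * R i (w, e)) *
        ∏ l, wv (zc Z (x l)) (e l : Fin δ → Option (Fin n × Fin n)) =
        algebraMap K ℂ ρ⁻¹ * v i * (∑ w, MvPolynomial.aeval x (g w * R i (w, e))) *
        ∏ l, wv (zc Z (x l)) (e l : Fin δ → Option (Fin n × Fin n)) := by
      rw [Finset.mul_sum, Finset.sum_mul]
    rw [h6, h5, mul_zero, zero_mul]
  · rw [map_sum]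
    have h1 := hf (MvPolynomial (Fin k × ι) K) MvPolynomial.X
    rw [MvPolynomial.aeval_X_left_apply] at h1
    rw [h1]
    refine Finset.sum_congr rfl fun w _ => ?_
    have h2 : MvPolynomial.eval (fun l => 1 / (m l : K)) (MvPolynomial.C ρ⁻¹ * dD * g w) = f w := by
      rw [map_mul, map_mul, MvPolynomial.eval_C, hg2, ← hρdef, inv_mul_cancel₀ hρ, one_mul]
    rw [map_mul, MvPolynomial.map_C, map_wv, h2]
    congr 1
    congr 1
    funext i
    exact MvPolynomial.map_X _ _

end main

end Pool.Agent.Y921.DB
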